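import Mathlib

/-!
# Growth of multiplicities: the analysis
-/

set_option autoImplicit false

open Filter Topology

namespace Pool.Agent.H23NC

section Seq

/-- The ratios of a positive log-convex sequence. -/
lemma ratio_mono {u : ℕ → ℝ} (hpos : ∀ k, 0 < u k) (hc : ∀ k, u (k + 1) ^ 2 ≤ u k * u (k + 2)) :
    Monotone fun k => u (k + 1) / u k := by
  refine monotone_nat_of_le_succ fun k => ?_
  rw [div_le_div_iff₀ (hpos k) (hpos (k + 1))]
  have := hc k
  nlinarith

lemma le_of_ratio {u : ℕ → ℝ} (hpos : ∀ k, 0 < u k)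
    (hc : ∀ k, u (k + 1) ^ 2 ≤ u k * u (k + 2)) (m : ℕ) (j : ℕ) :
    u m * (u (m + 1) / u m) ^ j ≤ u (m + j) := by
  induction j with
  | zero => simp
  | succ j ih =>
    have h1 := ratio_mono hpos hc (Nat.le_add_right m j)
    simp only at h1
    have h2 : u (m + (j + 1)) = u (m + j) * (u (m + j + 1) / u (m + j)) := by
      rw [mul_div_cancel₀ _ (hpos (m + j)).ne']
      rfl
    rw [h2, pow_succ, ← mul_assoc]
    have h3 : 0 ≤ u (m + 1) / u m := (div_pos (hpos _) (hpos _)).le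
    exact mul_le_mul ih h1 h3 (hpos _).le

/-- If `q ^ k ≤ C * E ^ k` for all `k` then `q ≤ E`. -/
lemma le_of_pow_le' {q C E : ℝ} (hE : 0 ≤ E) (hq : 0 < q) (h : ∀ k : ℕ, q ^ k ≤ C * E ^ k) :
    q ≤ E := by
  by_contra hcon
  push Not at hcon
  have hC : 0 < C := by
    have := h 0
    simp at this
    linarith
  rcases hE.eq_or_lt with h0 | h0
  · have := h 1
    rw [← h0] at this
    simp at this
    linarith
  have h1 : 1 < q / E := by rwa [one_lt_div h0]
  obtain ⟨k, hk⟩ := pow_unbounded_of_one_lt C h1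
  have h2 := h k
  rw [div_pow, lt_div_iff₀ (by positivity)] at hk
  linarith

lemma first_ratio {a : ℕ → ℝ} (hpos : ∀ k, 0 < a k)
    (hc : ∀ k, a (k + 1) ^ 2 ≤ a k * a (k + 2)) {C E : ℝ} (hE : 0 ≤ E)
    (h : ∀ k, a k ≤ C * E ^ k) (m : ℕ) : a (m + 1) ≤ E * a m := by
  have h1 : a (m + 1) / a m ≤ E := by
    refine le_of_pow_le' (C := C * E ^ m / a m) hE (div_pos (hpos _) (hpos _)) fun k => ?_
    have h2 := le_of_ratio hpos hc m k
    have h3 := h (m + k)
    rw [div_mul_eq_mul_div, le_div_iff₀ (hpos m), mul_assoc, ← pow_add, mul_comm]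
    exact h2.trans h3
  rwa [div_le_iff₀ (hpos m)] at h1

/-- The growth rate of a positive log-convex sequence. -/
lemma seq_exists {u : ℕ → ℝ} (h0 : u 0 = 1) (hpos : ∀ k, 0 < u k)
    (hc : ∀ k, u (k + 1) ^ 2 ≤ u k * u (k + 2)) {B : ℝ} (hB : 0 ≤ B) (hB' : ∀ k, u k ≤ B ^ k) :
    ∃ δ : ℝ, 0 < δ ∧ Tendsto (fun k => u (k + 1) / u k) atTop (𝓝 δ) ∧ (∀ k, u k ≤ δ ^ k) ∧
      ∀ θ, 0 < θ → θ < δ → ∃ c, 0 < c ∧ ∀ k, c * θ ^ k ≤ u k := by
  have hmono := ratio_mono hpos hc
  have hbd : ∀ k, u (k + 1) / u k ≤ B := by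
    intro k
    rw [div_le_iff₀ (hpos k)]
    exact first_ratio (C := 1) hpos hc hB (fun k => by rw [one_mul]; exact hB' k) k
  have hbdd : BddAbove (Set.range fun k => u (k + 1) / u k) := ⟨B, by
    rintro _ ⟨k, rfl⟩
    exact hbd k⟩
  set δ := ⨆ k, u (k + 1) / u k with hδ
  have hle : ∀ k, u (k + 1) / u k ≤ δ := fun k => le_ciSup hbdd k
  have hδ0 : 0 < δ := lt_of_lt_of_le (div_pos (hpos 1) (hpos 0)) (hle 0)
  refine ⟨δ, hδ0, tendsto_atTop_ciSup hmono hbdd, ?_, ?_⟩
  · intro k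
    induction k with
    | zero => rw [h0, pow_zero]
    | succ k ih =>
      have h1 := hle k
      rw [div_le_iff₀ (hpos k)] at h1
      rw [pow_succ']
      exact h1.trans (mul_le_mul_of_nonneg_left ih hδ0.le)
  · intro θ hθ hθδ
    obtain ⟨k₀, hk₀⟩ := exists_lt_of_lt_ciSup hθδ
    -- the minimum of the initial part
    obtain ⟨j, hj, hjm⟩ := Finset.exists_min_image (Finset.range (k₀ + 1))
      (fun k => u k / θ ^ k) ⟨0, by simp⟩
    refine ⟨u j / θ ^ j, div_pos (hpos j) (by positivity), fun k => ?_⟩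
    have key : ∀ k, u j / θ ^ j ≤ u k / θ ^ k := by
      intro k
      by_cases hk : k ≤ k₀
      · exact hjm k (Finset.mem_range.2 (by omega))
      · push Not at hk
        obtain ⟨i, rfl⟩ := Nat.exists_eq_add_of_le hk.le
        refine (hjm k₀ (Finset.mem_range.2 (by omega))).trans ?_
        rw [div_le_div_iff₀ (by positivity) (by positivity)]
        have h2 := le_of_ratio hpos hc k₀ i
        have h3 : θ ^ i ≤ (u (k₀ + 1) / u k₀) ^ i := pow_le_pow_left₀ hθ.le hk₀.le i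
        have h4 : u k₀ * θ ^ i ≤ u (k₀ + i) :=
          (mul_le_mul_of_nonneg_left h3 (hpos k₀).le).trans h2
        calc u k₀ * θ ^ (k₀ + i) = (u k₀ * θ ^ i) * θ ^ k₀ := by rw [pow_add]; ring
          _ ≤ u (k₀ + i) * θ ^ k₀ := mul_le_mul_of_nonneg_right h4 (by positivity)
    have h1 := key k
    rwa [le_div_iff₀ (by positivity)] at h1

end Seq

/-- The properties of the dimensions of the spaces of morphisms. -/
structure Ax {A : Type*} [AddCommMonoid A] (φ : A → ℝ) (D : A → A → Prop) : Prop where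
  zero : φ 0 = 1
  int : ∀ x, φ x = 0 ∨ 1 ≤ φ x
  mul : ∀ x y, φ x * φ y ≤ φ (x + y)
  dzero : D 0 0
  dadd : ∀ {x x' y y'}, D x x' → D y y' → D (x + y) (x' + y')
  dsymm : ∀ {x x'}, D x x' → D x' x
  cs : ∀ {x x' y y'}, D x x' → D y y' → φ (x' + y) ^ 2 ≤ φ (x' + x) * φ (y' + y)

namespace Ax

variable {A : Type*} [AddCommMonoid A] {φ : A → ℝ} {D : A → A → Prop} (h : Ax φ D)
include h

lemma nonneg (x : A) : 0 ≤ φ x := by
  rcases h.int x with h1 | h1 <;> linarith

lemma dnsmul {x x' : A} (hx : D x x') (n : ℕ) : D (n • x) (n • x') := by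
  induction n with
  | zero => rw [zero_nsmul, zero_nsmul]; exact h.dzero
  | succ n ih => rw [succ_nsmul, succ_nsmul]; exact h.dadd ih hx

/-- The multiplicities vanish if `x` is zero. -/
lemma eq_zero {x x' : A} (hx : D x x') (h0 : φ (x + x') = 0) {z z' : A} (hz : D z z') :
    φ (x + z) = 0 := by
  have h1 := h.cs (h.dsymm hx) hz
  rw [h0, zero_mul] at h1
  nlinarith [h.nonneg (x + z)]

lemma logconv {x x' w w' : A} (hx : D x x') (hw : D w w') (k : ℕ) :
    φ ((k + 1) • (x + x') + (w + w')) ^ 2 ≤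
      φ (k • (x + x') + (w + w')) * φ ((k + 2) • (x + x') + (w + w')) := by
  have hxx : D (x + x') (x + x') := by
    have := h.dadd hx (h.dsymm hx)
    rwa [add_comm x' x] at this
  rcases Nat.even_or_odd' k with ⟨i, rfl | rfl⟩
  · have h1 := h.cs (h.dadd (h.dnsmul hxx i) hw) (h.dadd (h.dnsmul hxx (i + 1)) hw)
    have e1 : i • (x + x') + w' + ((i + 1) • (x + x') + w) =
        (2 * i + 1) • (x + x') + (w + w') := by
      have : 2 * i + 1 = i + (i + 1) := by ring
      rw [this, add_nsmul _ i (i + 1)]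
      abel
    have e2 : i • (x + x') + w' + (i • (x + x') + w) = (2 * i) • (x + x') + (w + w') := by
      rw [two_mul, add_nsmul _ i i]
      abel
    have e3 : (i + 1) • (x + x') + w' + ((i + 1) • (x + x') + w) =
        (2 * i + 2) • (x + x') + (w + w') := by
      have : 2 * i + 2 = (i + 1) + (i + 1) := by ring
      rw [this, add_nsmul _ (i + 1) (i + 1)]
      abel
    rw [e1, e2, e3] at h1
    exact h1
  · have h1 := h.cs (h.dadd (h.dnsmul hxx i) (h.dadd hx hw))
      (h.dadd (h.dnsmul hxx (i + 1)) (h.dadd hx hw))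
    have e1 : i • (x + x') + (x' + w') + ((i + 1) • (x + x') + (x + w)) =
        (2 * i + 1 + 1) • (x + x') + (w + w') := by
      have : 2 * i + 1 + 1 = i + (i + 1) + 1 := by ring
      rw [this, add_nsmul _ (i + (i + 1)) 1, add_nsmul _ i (i + 1), one_nsmul]
      abel
    have e2 : i • (x + x') + (x' + w') + (i • (x + x') + (x + w)) =
        (2 * i + 1) • (x + x') + (w + w') := by
      have : 2 * i + 1 = i + i + 1 := by ring
      rw [this, add_nsmul _ (i + i) 1, add_nsmul _ i i, one_nsmul]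
      abel
    have e3 : (i + 1) • (x + x') + (x' + w') + ((i + 1) • (x + x') + (x + w)) =
        (2 * i + 1 + 2) • (x + x') + (w + w') := by
      have : 2 * i + 1 + 2 = (i + 1) + (i + 1) + 1 := by ring
      rw [this, add_nsmul _ (i + 1 + (i + 1)) 1, add_nsmul _ (i + 1) (i + 1), one_nsmul]
      abel
    rw [e1, e2, e3] at h1
    exact h1

lemma one_le_pow {x x' : A} (h1 : 1 ≤ φ (x + x')) (k : ℕ) : 1 ≤ φ (k • (x + x')) := by
  induction k with
  | zero => rw [zero_nsmul, h.zero]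
  | succ k ih =>
    rw [succ_nsmul]
    have h2 := h.mul (k • (x + x')) (x + x')
    nlinarith

/-- The growth rate `δ` of the object `x`, the square of its dimension. -/
def IsRate (_ : Ax φ D) (x x' : A) (δ : ℝ) : Prop :=
  0 < δ ∧ (∀ k : ℕ, φ (k • (x + x')) ≤ δ ^ k) ∧
    (∀ θ, 0 < θ → θ < δ → ∃ c, 0 < c ∧ ∀ k : ℕ, c * θ ^ k ≤ φ (k • (x + x'))) ∧
    Tendsto (fun k : ℕ => φ ((k + 1) • (x + x')) / φ (k • (x + x'))) atTop (𝓝 δ)

lemma exists_rate {x x' : A} (hx : D x x') (h1 : 1 ≤ φ (x + x')) {B : ℝ} (hB : 0 ≤ B)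
    (hB' : ∀ k : ℕ, φ (k • (x + x')) ≤ B ^ k) : ∃ δ, h.IsRate x x' δ := by
  have hpos : ∀ k : ℕ, 0 < φ (k • (x + x')) := fun k => by
    have := h.one_le_pow h1 k
    linarith
  obtain ⟨δ, h2, h3, h4, h5⟩ := seq_exists (u := fun k : ℕ => φ (k • (x + x')))
    (by simp only [zero_nsmul, h.zero]) hpos (fun k => by
      have := h.logconv hx h.dzero k
      simpa only [add_zero] using this) hB hB'
  exact ⟨δ, h2, h4, h5, h3⟩

lemma one_le_rate {x x' : A} (h1 : 1 ≤ φ (x + x')) {δ : ℝ} (hδ : h.IsRate x x' δ) : 1 ≤ δ := by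
  have := hδ.2.1 1
  rw [one_nsmul, pow_one] at this
  linarith

/-- The bound for the operator given by `x`. -/
lemma op_le {x x' w w' : A} (hx : D x x') (h1 : 1 ≤ φ (x + x')) {δ : ℝ}
    (hδ : h.IsRate x x' δ) (hw : D w w') (h2 : 1 ≤ φ (w + w')) :
    φ ((x + x') + (w + w')) ≤ δ * φ (w + w') := by
  have hxx : D (x + x') (x + x') := by
    have := h.dadd hx (h.dsymm hx)
    rwa [add_comm x' x] at this
  have hww : D (w + w') (w + w') := by
    have := h.dadd hw (h.dsymm hw)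
    rwa [add_comm w' w] at this
  have h3 := first_ratio (a := fun k : ℕ => φ (k • (x + x') + (w + w')))
    (C := Real.sqrt (φ ((w + w') + (w + w')))) (E := δ) (fun k => by
      have h4 := h.mul (k • (x + x')) (w + w')
      have h5 := h.one_le_pow h1 k
      nlinarith) (fun k => h.logconv hx hw k) hδ.1.le (fun k => by
      have h4 := h.cs (h.dnsmul hxx k) hww
      have h5 := hδ.2.1 (k + k)
      rw [← add_nsmul] at h4
      have h6 : 0 ≤ φ ((w + w') + (w + w')) := h.nonneg _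
      have h7 : φ (k • (x + x') + (w + w')) ^ 2 ≤ δ ^ (k + k) * φ ((w + w') + (w + w')) :=
        h4.trans (mul_le_mul_of_nonneg_right h5 h6)
      have h8 : δ ^ (k + k) * φ ((w + w') + (w + w')) =
          (Real.sqrt (φ ((w + w') + (w + w'))) * δ ^ k) ^ 2 := by
        rw [mul_pow, Real.sq_sqrt h6, ← pow_mul]
        ring
      rw [h8] at h7
      exact le_of_sq_le_sq h7 (mul_nonneg (Real.sqrt_nonneg _) (pow_nonneg hδ.1.le _))) 0
  simpa using h3

lemma op_le' {x x' w w' v v' : A} (hx : D x x') (h1 : 1 ≤ φ (x + x')) {δ : ℝ}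
    (hδ : h.IsRate x x' δ) (hw : D w w') (h2 : 1 ≤ φ (w + w')) (hv : D v v') :
    φ (x + w + v) ^ 2 ≤ δ * φ (w + w') * φ (v + v') := by
  have h3 := h.cs (h.dsymm (h.dadd hx hw)) hv
  refine h3.trans ?_
  rw [add_comm v' v]
  have h4 : x + w + (x' + w') = (x + x') + (w + w') := by abel
  rw [h4]
  exact mul_le_mul_of_nonneg_right (h.op_le hx h1 hδ hw h2) (h.nonneg _)

end Ax

end Pool.Agent.H23NC
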