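import Pool.Agent.H23NC.Ana

/-!
# Growth of multiplicities: superadditivity and limits
-/

set_option autoImplicit false

open Filter Topology Finset

namespace Pool.Agent.H23NC

/-- A variant with a polynomial factor. -/
lemma le_of_pow_le_mul {q C E : ℝ} (hE : 0 ≤ E) (hq : 0 < q)
    (h : ∀ k : ℕ, q ^ k ≤ C * (k + 1) * E ^ k) : q ≤ E := by
  by_contra hcon
  push Not at hcon
  have hr0 : 0 ≤ E / q := div_nonneg hE hq.le
  have hr1 : E / q < 1 := (div_lt_one hq).2 hcon
  have h1 : Tendsto (fun k : ℕ => C * (((k : ℝ) ^ 1 * (E / q) ^ k) + (E / q) ^ k)) atTop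
      (𝓝 (C * (0 + 0))) := by
    refine Tendsto.const_mul C (Tendsto.add ?_ ?_)
    · exact tendsto_pow_const_mul_const_pow_of_abs_lt_one 1 (by rw [abs_of_nonneg hr0]; exact hr1)
    · exact tendsto_pow_atTop_nhds_zero_of_lt_one hr0 hr1
  rw [add_zero, mul_zero] at h1
  have h2 : (1 : ℝ) ≤ 0 := by
    refine ge_of_tendsto h1 (Eventually.of_forall fun k => ?_)
    have h3 := h k
    have h4 : C * ((k : ℝ) ^ 1 * (E / q) ^ k + (E / q) ^ k) = C * (k + 1) * E ^ k / q ^ k := by
      rw [div_pow, pow_one]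
      ring
    rw [h4, le_div_iff₀ (by positivity), one_mul]
    exact h3
  linarith

lemma le_of_forall_lt' {a b : ℝ} (ha : 0 < a) (h : ∀ t, 0 < t → t < a → t ≤ b) : a ≤ b := by
  by_contra hcon
  push Not at hcon
  have h1 := h (max ((a + b) / 2) (a / 2)) (lt_of_lt_of_le (by linarith) (le_max_right _ _))
    (max_lt (by linarith) (by linarith))
  have h2 := (le_max_left ((a + b) / 2) (a / 2)).trans h1
  linarith

namespace Ax

variable {A : Type*} [AddCommMonoid A] {φ : A → ℝ} {D : A → A → Prop} (h : Ax φ D)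

omit h in
/-- The binomial formula. -/
lemma binom {S x y : A} (hS : ∀ z, φ (S + z) = φ (x + z) + φ (y + z)) (k : ℕ) :
    ∀ z, φ (k • S + z) = ∑ ij ∈ antidiagonal k, (k.choose ij.1 : ℝ) *
      φ (ij.1 • x + ij.2 • y + z) := by
  induction k with
  | zero => intro z; simp
  | succ k ih =>
    intro z
    have h1 : φ ((k + 1) • S + z) = φ (k • S + (x + z)) + φ (k • S + (y + z)) := by
      have e1 : (k + 1) • S + z = S + (k • S + z) := by rw [succ_nsmul]; abel
      rw [e1, hS]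
      congr 2 <;> abel
    have h2 := Finset.sum_antidiagonal_choose_succ_mul
      (fun i j => φ (i • x + j • y + z)) k
    rw [h2, h1, ih, ih, add_comm]
    congr 1
    · refine Finset.sum_congr rfl fun ij _ => ?_
      congr 2
      rw [succ_nsmul]
      abel
    · refine Finset.sum_congr rfl fun ij hij => ?_
      have h3 : k.choose ij.1 = k.choose ij.2 := by
        rw [HasAntidiagonal.mem_antidiagonal] at hij
        exact Nat.choose_symm_of_eq_add hij.symm
      rw [h3]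
      congr 2
      rw [succ_nsmul]
      abel

include h

/-- The lower bound for the growth of a sum. -/
lemma sum_le {S S' x x' y y' : A} (hS : ∀ z, φ (S + z) = φ (x + z) + φ (y + z))
    (hS' : ∀ z, φ (S' + z) = φ (x' + z) + φ (y' + z)) (k : ℕ) :
    ∑ ij ∈ antidiagonal k, ((k.choose ij.1 : ℝ)) ^ 2 *
      (φ (ij.1 • (x + x')) * φ (ij.2 • (y + y'))) ≤ φ (k • (S + S')) := by
  have h1 : φ (k • (S + S')) = ∑ ij ∈ antidiagonal k, (k.choose ij.1 : ℝ) *
      ∑ ij' ∈ antidiagonal k, (k.choose ij'.1 : ℝ) *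
        φ (ij'.1 • x' + ij'.2 • y' + (ij.1 • x + ij.2 • y)) := by
    rw [nsmul_add, binom hS k]
    refine Finset.sum_congr rfl fun ij _ => ?_
    rw [add_comm _ (k • S'), binom hS' k]
  rw [h1]
  refine Finset.sum_le_sum fun ij hij => ?_
  rw [sq, mul_assoc]
  refine mul_le_mul_of_nonneg_left ?_ (Nat.cast_nonneg _)
  refine le_trans ?_ (Finset.single_le_sum (f := fun ij' => (k.choose ij'.1 : ℝ) *
    φ (ij'.1 • x' + ij'.2 • y' + (ij.1 • x + ij.2 • y)))
    (fun ij' _ => mul_nonneg (Nat.cast_nonneg _) (h.nonneg _)) hij)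
  refine mul_le_mul_of_nonneg_left ?_ (Nat.cast_nonneg _)
  have e1 : ij.1 • x' + ij.2 • y' + (ij.1 • x + ij.2 • y) =
      ij.1 • (x + x') + ij.2 • (y + y') := by
    rw [nsmul_add, nsmul_add]
    abel
  rw [e1]
  exact h.mul _ _

/-- **Superadditivity of the dimension.** -/
lemma superadd {S S' x x' y y' : A} (hS : ∀ z, φ (S + z) = φ (x + z) + φ (y + z))
    (hS' : ∀ z, φ (S' + z) = φ (x' + z) + φ (y' + z)) {δ η Δ : ℝ} (hδ : h.IsRate x x' δ)
    (hη : h.IsRate y y' η) (hΔ : 0 ≤ Δ) (hΔ' : ∀ k : ℕ, φ (k • (S + S')) ≤ Δ ^ k) :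
    Real.sqrt δ + Real.sqrt η ≤ Real.sqrt Δ := by
  have key : ∀ a b : ℝ, 0 < a → a < Real.sqrt δ → 0 < b → b < Real.sqrt η →
      a + b ≤ Real.sqrt Δ := by
    intro a b ha ha' hb hb'
    have ha2 : a ^ 2 < δ := by
      have := pow_lt_pow_left₀ ha' ha.le two_ne_zero
      rwa [Real.sq_sqrt hδ.1.le] at this
    have hb2 : b ^ 2 < η := by
      have := pow_lt_pow_left₀ hb' hb.le two_ne_zero
      rwa [Real.sq_sqrt hη.1.le] at this
    obtain ⟨c, hc, hc'⟩ := hδ.2.2.1 (a ^ 2) (by positivity) ha2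
    obtain ⟨d, hd, hd'⟩ := hη.2.2.1 (b ^ 2) (by positivity) hb2
    have h1 : (a + b) ^ 2 ≤ Δ := by
      refine le_of_pow_le_mul (C := 1 / (c * d)) hΔ (by positivity) fun k => ?_
      have h2 := h.sum_le hS hS' k
      have h3 := hΔ' k
      have h4 : ((a + b) ^ k) ^ 2 ≤ (k + 1) * ∑ ij ∈ antidiagonal k,
          ((k.choose ij.1 : ℝ) * (a ^ ij.1 * b ^ ij.2)) ^ 2 := by
        have h5 := sq_sum_le_card_mul_sum_sq (s := antidiagonal k)
          (f := fun ij => (k.choose ij.1 : ℝ) * (a ^ ij.1 * b ^ ij.2))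
        rw [Finset.Nat.card_antidiagonal] at h5
        have h6 := (Commute.all a b).add_pow' k
        simp only [nsmul_eq_mul] at h6
        rw [h6]
        push_cast at h5
        exact h5
      have h5 : ∑ ij ∈ antidiagonal k, ((k.choose ij.1 : ℝ) * (a ^ ij.1 * b ^ ij.2)) ^ 2 ≤
          1 / (c * d) * φ (k • (S + S')) := by
        refine le_trans ?_ (mul_le_mul_of_nonneg_left h2 (by positivity))
        rw [Finset.mul_sum]
        refine Finset.sum_le_sum fun ij _ => ?_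
        have h6 := hc' ij.1
        have h7 := hd' ij.2
        have h8 : (c * (a ^ 2) ^ ij.1) * (d * (b ^ 2) ^ ij.2) ≤
            φ (ij.1 • (x + x')) * φ (ij.2 • (y + y')) :=
          mul_le_mul h6 h7 (by positivity) (h.nonneg _)
        have h9 : ((k.choose ij.1 : ℝ) * (a ^ ij.1 * b ^ ij.2)) ^ 2 =
            1 / (c * d) * ((k.choose ij.1 : ℝ) ^ 2 *
              ((c * (a ^ 2) ^ ij.1) * (d * (b ^ 2) ^ ij.2))) := by
          rw [← pow_mul, ← pow_mul, mul_comm 2 ij.1, mul_comm 2 ij.2, pow_mul, pow_mul]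
          field_simp
        rw [h9]
        exact mul_le_mul_of_nonneg_left (mul_le_mul_of_nonneg_left h8 (by positivity))
          (by positivity)
      rw [← pow_mul, mul_comm 2 k, pow_mul]
      calc ((a + b) ^ k) ^ 2 ≤ (k + 1) * ∑ ij ∈ antidiagonal k,
          ((k.choose ij.1 : ℝ) * (a ^ ij.1 * b ^ ij.2)) ^ 2 := h4
        _ ≤ (k + 1) * (1 / (c * d) * φ (k • (S + S'))) :=
            mul_le_mul_of_nonneg_left h5 (by positivity)
        _ ≤ (k + 1) * (1 / (c * d) * Δ ^ k) := by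
            refine mul_le_mul_of_nonneg_left (mul_le_mul_of_nonneg_left h3 (by positivity))
              (by positivity)
        _ = 1 / (c * d) * (k + 1) * Δ ^ k := by ring
    exact Real.le_sqrt_of_sq_le h1
  have h1 : ∀ b : ℝ, 0 < b → b < Real.sqrt η → Real.sqrt δ + b ≤ Real.sqrt Δ := by
    intro b hb hb'
    have := le_of_forall_lt' (b := Real.sqrt Δ - b) (Real.sqrt_pos.2 hδ.1)
      fun a ha ha' => by linarith [key a b ha ha' hb hb']
    linarith
  have := le_of_forall_lt' (b := Real.sqrt Δ - Real.sqrt δ) (Real.sqrt_pos.2 hη.1)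
    fun b hb hb' => by linarith [h1 b hb hb']
  linarith

/-- Monotonicity. -/
lemma mono_le {S S' x x' : A} (hS : ∀ z, φ (x + z) ≤ φ (S + z))
    (hS' : ∀ z, φ (x' + z) ≤ φ (S' + z)) (k : ℕ) :
    ∀ z, φ (k • (x + x') + z) ≤ φ (k • (S + S') + z) := by
  induction k with
  | zero => intro z; simp
  | succ k ih =>
    intro z
    rw [succ_nsmul, succ_nsmul]
    have e1 : k • (x + x') + (x + x') + z = k • (x + x') + (x + (x' + z)) := by abel
    have e2 : k • (S + S') + (S + S') + z = S + (S' + (k • (S + S') + z)) := by abel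
    rw [e1, e2]
    calc φ (k • (x + x') + (x + (x' + z))) ≤ φ (k • (S + S') + (x + (x' + z))) := ih _
      _ = φ (x + (x' + (k • (S + S') + z))) := by congr 1; abel
      _ ≤ φ (S + (x' + (k • (S + S') + z))) := hS _
      _ = φ (x' + (S + (k • (S + S') + z))) := by congr 1; abel
      _ ≤ φ (S' + (S + (k • (S + S') + z))) := hS' _
      _ = φ (S + (S' + (k • (S + S') + z))) := by congr 1; abel

lemma rate_le {S S' x x' : A} (hS : ∀ z, φ (x + z) ≤ φ (S + z))
    (hS' : ∀ z, φ (x' + z) ≤ φ (S' + z)) {δ Δ : ℝ} (hδ : h.IsRate x x' δ) (hΔ : 0 ≤ Δ)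
    (hΔ' : ∀ k : ℕ, φ (k • (S + S')) ≤ Δ ^ k) : δ ≤ Δ := by
  refine le_of_forall_lt' hδ.1 fun θ hθ hθ' => ?_
  obtain ⟨c, hc, hc'⟩ := hδ.2.2.1 θ hθ hθ'
  refine le_of_pow_le' (C := 1 / c) hΔ hθ fun k => ?_
  have h1 := hc' k
  have h2 := h.mono_le hS hS' k 0
  rw [add_zero, add_zero] at h2
  have h3 := h1.trans (h2.trans (hΔ' k))
  rw [div_mul_eq_mul_div, one_mul, le_div_iff₀ hc]
  linarith

lemma rate_zero : h.IsRate 0 0 1 := by
  refine ⟨one_pos, fun k => ?_, fun θ hθ hθ' => ⟨1, one_pos, fun k => ?_⟩, ?_⟩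
  · rw [add_zero, nsmul_zero, h.zero, one_pow]
  · rw [add_zero, nsmul_zero, h.zero, one_mul]
    exact pow_le_one₀ hθ.le hθ'.le
  · simp only [add_zero, nsmul_zero, h.zero, div_one]
    exact tendsto_const_nhds

end Ax

end Pool.Agent.H23NC
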