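import Pool.Agent.H23NC.Ana2

/-!
# Growth of multiplicities: the dimension as a limit
-/

set_option autoImplicit false
set_option linter.unusedSectionVars false

open Filter Topology Finset

namespace Pool.Agent.H23NC

namespace Ax

variable {A : Type*} [AddCommMonoid A] {φ : A → ℝ} {D : A → A → Prop} (h : Ax φ D)

/-- The comparison sequence. -/
noncomputable def cmp (φ : A → ℝ) (s : A) (n : ℕ) : ℝ :=
  Real.sqrt (φ ((n / 2 + n / 2) • s) * φ (((n + 1) / 2 + (n + 1) / 2) • s))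

/-- The situation: `s` is self-dual, and the sum of the unit and of `t`. -/
structure Sys (s t t' : A) (ρ : ℝ) : Prop where
  ds : D s s
  dt : D t t'
  add : ∀ z, φ (s + z) = φ z + φ (t + z)
  add' : ∀ z, φ (s + z) = φ z + φ (t' + z)
  rate : h.IsRate s s ρ

variable {s t t' : A} {ρ : ℝ} (H : h.Sys s t t' ρ)
include h H

lemma one_le_s (n : ℕ) : 1 ≤ φ (n • s) := by
  induction n with
  | zero => rw [zero_nsmul, h.zero]
  | succ n ih =>
    rw [succ_nsmul, add_comm, H.add]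
    linarith [h.nonneg (t + n • s)]

lemma two_nsmul' (n : ℕ) : φ ((n + n) • s) = φ (n • (s + s)) := by
  rw [add_nsmul, nsmul_add]

lemma cmp_even (n : ℕ) : cmp φ s (2 * n) = φ ((n + n) • s) := by
  have h1 : 2 * n / 2 = n := by omega
  have h2 : (2 * n + 1) / 2 = n := by omega
  rw [cmp, h1, h2, Real.sqrt_mul_self (h.nonneg _)]

lemma cmp_odd (n : ℕ) : cmp φ s (2 * n + 1) =
    Real.sqrt (φ ((n + n) • s) * φ ((n + 1 + (n + 1)) • s)) := by
  have h1 : (2 * n + 1) / 2 = n := by omega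
  have h2 : (2 * n + 1 + 1) / 2 = n + 1 := by omega
  rw [cmp, h1, h2]

lemma cmp_pos (n : ℕ) : 0 < cmp φ s n := by
  refine Real.sqrt_pos.2 (mul_pos ?_ ?_)
  · linarith [h.one_le_s H (n / 2 + n / 2)]
  · linarith [h.one_le_s H ((n + 1) / 2 + (n + 1) / 2)]

lemma le_cmp (n : ℕ) : φ (n • s) ≤ cmp φ s n := by
  have h1 := h.cs (h.dnsmul H.ds (n / 2)) (h.dnsmul H.ds ((n + 1) / 2))
  rw [← add_nsmul, ← add_nsmul, ← add_nsmul] at h1
  have h2 : n / 2 + (n + 1) / 2 = n := by omega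
  rw [h2] at h1
  exact Real.le_sqrt_of_sq_le h1

/-- The ratios of the even terms. -/
lemma tendsto_q : Tendsto (fun n : ℕ => φ ((n + 1 + (n + 1)) • s) / φ ((n + n) • s)) atTop
    (𝓝 ρ) := by
  refine H.rate.2.2.2.congr fun n => ?_
  rw [h.two_nsmul' H, h.two_nsmul' H]

/-- The bound for the complement of the unit. -/
lemma second (n : ℕ) : φ ((n + 1 + (n + 1)) • s) - 2 * φ ((n + n + 1) • s) + φ ((n + n) • s) ≤
    (Real.sqrt ρ - 1) ^ 2 * φ ((n + n) • s) := by
  have hρ := h.one_le_rate (by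
    have := h.one_le_s H 2
    rwa [two_nsmul] at this) H.rate
  have e0 : ∀ z, φ ((t + t') + z) = φ (2 • s + z) - 2 * φ (s + z) + φ z := by
    intro z
    have e1 := H.add (t' + z)
    have e2 := H.add' (s + z)
    have e3 := H.add' z
    have e4 : s + (t' + z) = t' + (s + z) := by abel
    have e5 : s + (s + z) = 2 • s + z := by rw [two_nsmul]; abel
    have e6 : t + (t' + z) = t + t' + z := by abel
    rw [e4, e6] at e1
    rw [e5] at e2
    linarith
  have e1 : φ ((n + 1 + (n + 1)) • s) - 2 * φ ((n + n + 1) • s) + φ ((n + n) • s) =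
      φ ((t + t') + (n • s + n • s)) := by
    rw [e0]
    have e2 : 2 • s + (n • s + n • s) = (n + 1 + (n + 1)) • s := by
      rw [← add_nsmul, ← add_nsmul]
      congr 1
      omega
    have e3 : s + (n • s + n • s) = (n + n + 1) • s := by
      rw [← add_nsmul, add_comm, succ_nsmul]
    rw [e2, e3, ← add_nsmul]
  rw [e1]
  rcases h.int (t + t') with h0 | h0
  · have h1 := h.eq_zero (h.dadd H.dt (h.dsymm H.dt)) (by
      have := h.eq_zero H.dt (by exact h0) (h.dadd (h.dsymm H.dt) (h.dadd (h.dsymm H.dt) H.dt))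
      have e : t + t' + (t' + t) = t + (t' + (t' + t)) := by abel
      rw [e]
      exact this) (h.dadd (h.dnsmul H.ds n) (h.dnsmul H.ds n))
    rw [h1]
    exact mul_nonneg (sq_nonneg _) (h.nonneg _)
  · -- the rate of `t`
    have hle : ∀ z, φ (t + z) ≤ φ (s + z) := fun z => by
      rw [H.add]; linarith [h.nonneg z]
    have hle' : ∀ z, φ (t' + z) ≤ φ (s + z) := fun z => by
      rw [H.add']; linarith [h.nonneg z]
    obtain ⟨σ, hσ⟩ := h.exists_rate H.dt h0 (B := ρ) (by linarith) fun k => by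
      have h1 := h.mono_le hle hle' k 0
      rw [add_zero, add_zero] at h1
      exact h1.trans (H.rate.2.1 k)
    have h2 := h.superadd (S := s) (S' := s) (x := 0) (x' := 0) (y := t) (y' := t')
      (fun z => by rw [zero_add]; exact H.add z) (fun z => by rw [zero_add]; exact H.add' z)
      h.rate_zero hσ (by linarith) H.rate.2.1
    rw [Real.sqrt_one] at h2
    have h3 : σ ≤ (Real.sqrt ρ - 1) ^ 2 := by
      have h4 : Real.sqrt σ ≤ Real.sqrt ρ - 1 := by linarith
      have h5 := pow_le_pow_left₀ (Real.sqrt_nonneg σ) h4 2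
      rwa [Real.sq_sqrt hσ.1.le] at h5
    have h4 := h.op_le H.dt h0 hσ (h.dnsmul H.ds n) (by
      rw [← add_nsmul]; exact h.one_le_s H _)
    rw [← add_nsmul] at h4 ⊢
    exact h4.trans (mul_le_mul_of_nonneg_right h3 (h.nonneg _))

/-- The ratios of an odd and the preceding even term. -/
lemma tendsto_r : Tendsto (fun n : ℕ => φ ((n + n + 1) • s) / φ ((n + n) • s)) atTop
    (𝓝 (Real.sqrt ρ)) := by
  have hρ := h.one_le_rate (by
    have := h.one_le_s H 2
    rwa [two_nsmul] at this) H.rate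
  have hpos : ∀ n : ℕ, 0 < φ (n • s) := fun n => by linarith [h.one_le_s H n]
  have h1 : Tendsto (fun n : ℕ => (φ ((n + 1 + (n + 1)) • s) / φ ((n + n) • s) - ρ) / 2 +
      Real.sqrt ρ) atTop (𝓝 (Real.sqrt ρ)) := by
    have := ((h.tendsto_q H).sub_const ρ).div_const 2 |>.add_const (Real.sqrt ρ)
    simpa using this
  have h2 : Tendsto (fun n : ℕ => Real.sqrt (φ ((n + 1 + (n + 1)) • s) / φ ((n + n) • s)))
      atTop (𝓝 (Real.sqrt ρ)) := (Real.continuous_sqrt.tendsto _).comp (h.tendsto_q H)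
  refine tendsto_of_tendsto_of_tendsto_of_le_of_le h1 h2 (fun n => ?_) (fun n => ?_)
  · have h3 := h.second H n
    have h4 : Real.sqrt ρ ^ 2 = ρ := Real.sq_sqrt (by linarith)
    change (φ ((n + 1 + (n + 1)) • s) / φ ((n + n) • s) - ρ) / 2 + Real.sqrt ρ ≤
      φ ((n + n + 1) • s) / φ ((n + n) • s)
    rw [le_div_iff₀ (hpos _), add_mul, div_mul_eq_mul_div, sub_mul,
      div_mul_cancel₀ _ (hpos _).ne']
    have h5 : (Real.sqrt ρ - 1) ^ 2 = ρ - 2 * Real.sqrt ρ + 1 := by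
      rw [sub_sq, h4]
      ring
    rw [h5] at h3
    linarith
  · change φ ((n + n + 1) • s) / φ ((n + n) • s) ≤ _
    refine Real.le_sqrt_of_sq_le ?_
    rw [div_pow, div_le_div_iff₀ (by have := hpos (n + n); positivity) (hpos _)]
    have h3 := h.cs (h.dnsmul H.ds n) (h.dnsmul H.ds (n + 1))
    rw [← add_nsmul, ← add_nsmul, ← add_nsmul] at h3
    have e1 : n + (n + 1) = n + n + 1 := by ring
    rw [e1] at h3
    have h4 := hpos (n + n)
    nlinarith

/-- The comparison sequence is asymptotically equal to the multiplicity of the unit. -/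
lemma tendsto_one : Tendsto (fun n : ℕ => φ (n • s) / cmp φ s n) atTop (𝓝 1) := by
  have hρ := h.one_le_rate (by
    have := h.one_le_s H 2
    rwa [two_nsmul] at this) H.rate
  have hpos : ∀ n : ℕ, 0 < φ (n • s) := fun n => by linarith [h.one_le_s H n]
  have hs : 0 < Real.sqrt ρ := Real.sqrt_pos.2 (by linarith)
  -- the odd terms
  have h1 : Tendsto (fun n : ℕ => φ ((2 * n + 1) • s) / cmp φ s (2 * n + 1)) atTop (𝓝 1) := by
    have h2 : Tendsto (fun n : ℕ => Real.sqrt (φ ((n + 1 + (n + 1)) • s) / φ ((n + n) • s)))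
        atTop (𝓝 (Real.sqrt ρ)) := (Real.continuous_sqrt.tendsto _).comp (h.tendsto_q H)
    have h3 := (h.tendsto_r H).div h2 hs.ne'
    rw [div_self hs.ne'] at h3
    refine h3.congr fun n => ?_
    rw [h.cmp_odd H]
    have e1 : 2 * n + 1 = n + n + 1 := by ring
    rw [e1]
    change φ ((n + n + 1) • s) / φ ((n + n) • s) /
      Real.sqrt (φ ((n + 1 + (n + 1)) • s) / φ ((n + n) • s)) = _
    have e2 : Real.sqrt (φ ((n + n) • s) * φ ((n + 1 + (n + 1)) • s)) = φ ((n + n) • s) *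
        Real.sqrt (φ ((n + 1 + (n + 1)) • s) / φ ((n + n) • s)) := by
      have e3 : φ ((n + n) • s) * φ ((n + 1 + (n + 1)) • s) = φ ((n + n) • s) ^ 2 *
          (φ ((n + 1 + (n + 1)) • s) / φ ((n + n) • s)) := by
        have := (hpos (n + n)).ne'
        field_simp
      rw [e3, Real.sqrt_mul (sq_nonneg _), Real.sqrt_sq (hpos _).le]
    rw [e2, div_div]
  have h2 : Tendsto (fun n : ℕ => φ ((2 * n) • s) / cmp φ s (2 * n)) atTop (𝓝 1) := by
    refine tendsto_const_nhds.congr fun n => ?_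
    rw [h.cmp_even H, two_mul, div_self (hpos _).ne']
  rw [Metric.tendsto_atTop] at h1 h2 ⊢
  intro ε hε
  obtain ⟨n₁, hn₁⟩ := h1 ε hε
  obtain ⟨n₂, hn₂⟩ := h2 ε hε
  refine ⟨2 * n₁ + 2 * n₂ + 1, fun n hn => ?_⟩
  rcases Nat.even_or_odd' n with ⟨k, rfl | rfl⟩
  · exact hn₂ k (by omega)
  · exact hn₁ k (by omega)

/-- The ratios of the comparison sequence. -/
lemma tendsto_cmp : Tendsto (fun n : ℕ => cmp φ s (n + 1) / cmp φ s n) atTop
    (𝓝 (Real.sqrt ρ)) := by
  have hpos : ∀ n : ℕ, 0 < φ (n • s) := fun n => by linarith [h.one_le_s H n]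
  have h2 : Tendsto (fun n : ℕ => Real.sqrt (φ ((n + 1 + (n + 1)) • s) / φ ((n + n) • s)))
      atTop (𝓝 (Real.sqrt ρ)) := (Real.continuous_sqrt.tendsto _).comp (h.tendsto_q H)
  have e0 : ∀ n : ℕ, cmp φ s (n + 1) / cmp φ s n =
      Real.sqrt (φ ((n / 2 + 1 + (n / 2 + 1)) • s) / φ ((n / 2 + n / 2) • s)) := by
    intro n
    have e1 : (n + 1 + 1) / 2 = n / 2 + 1 := by omega
    rw [cmp, cmp, e1]
    have p1 := hpos ((n + 1) / 2 + (n + 1) / 2)
    have p2 := hpos (n / 2 + n / 2)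
    have p3 := hpos (n / 2 + 1 + (n / 2 + 1))
    rw [← Real.sqrt_div (by positivity)]
    congr 1
    field_simp
  simp_rw [e0]
  exact h2.comp (Nat.tendsto_div_const_atTop two_ne_zero)

lemma tendsto_cmp_add (m : ℕ) : Tendsto (fun n : ℕ => cmp φ s (n + m) / cmp φ s n) atTop
    (𝓝 (Real.sqrt ρ ^ m)) := by
  induction m with
  | zero =>
    refine tendsto_const_nhds.congr fun n => ?_
    rw [pow_zero, add_zero, div_self (h.cmp_pos H n).ne']
  | succ m ih =>
    have h1 := ((h.tendsto_cmp H).comp (tendsto_add_atTop_nat m)).mul ih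
    rw [← pow_succ'] at h1
    refine h1.congr fun n => ?_
    rw [Function.comp_apply]
    have := (h.cmp_pos H (n + m)).ne'
    rw [div_mul_div_comm, mul_comm (cmp φ s (n + m + 1)), mul_div_mul_left _ _ this]
    rfl

/-- The upper bound for the multiplicities. -/
lemma le_sqrt {x x' : A} (hx : D x x') (h1 : 1 ≤ φ (x + x')) {δ : ℝ} (hδ : h.IsRate x x' δ)
    (n : ℕ) : φ (x + n • s) ≤ Real.sqrt δ * cmp φ s n := by
  have h2 := h.op_le' hx h1 hδ (h.dnsmul H.ds (n / 2)) (by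
    rw [← add_nsmul]; exact h.one_le_s H _) (h.dnsmul H.ds ((n + 1) / 2))
  have e1 : x + (n / 2) • s + ((n + 1) / 2) • s = x + n • s := by
    rw [add_assoc, ← add_nsmul]
    congr 2
    omega
  rw [e1, ← add_nsmul, ← add_nsmul, mul_assoc] at h2
  rw [cmp, ← Real.sqrt_mul hδ.1.le]
  exact Real.le_sqrt_of_sq_le h2

/-- **The dimension as a limit.** -/
theorem exists_dim (m : ℕ) {x x' y y' : A} (hx : D x x') (hy : D y y')
    (hS : ∀ z, φ (m • s + z) = φ (x + z) + φ (y + z))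
    (hS' : ∀ z, φ (m • s + z) = φ (x' + z) + φ (y' + z)) :
    ∃ d : ℝ, (φ (x + x') = 0 → d = 0) ∧ (φ (x + x') ≠ 0 → 1 ≤ d) ∧
      (∀ n : ℕ, φ (x + n • s) ≤ d * cmp φ s n) ∧
      Tendsto (fun n : ℕ => φ (x + n • s) / cmp φ s n) atTop (𝓝 d) ∧
      ∀ B : ℝ, 0 ≤ B → (∀ k : ℕ, φ (k • (x + x')) ≤ B ^ k) → d ^ 2 ≤ B := by
  have hρ := h.one_le_rate (by
    have := h.one_le_s H 2
    rwa [two_nsmul] at this) H.rate
  have hc := h.cmp_pos H
  have hΔ' : ∀ k : ℕ, φ (k • (m • s + m • s)) ≤ (ρ ^ m) ^ k := by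
    intro k
    have e1 : k • (m • s + m • s) = (m * k) • (s + s) := by
      rw [← nsmul_add, ← mul_nsmul]
    rw [e1, ← pow_mul]
    exact H.rate.2.1 (m * k)
  have hΔ : 0 ≤ ρ ^ m := by positivity
  have hsq : Real.sqrt (ρ ^ m) = Real.sqrt ρ ^ m := by
    have h1 : ρ ^ m = (Real.sqrt ρ ^ m) ^ 2 := by
      rw [← pow_mul, mul_comm, pow_mul, Real.sq_sqrt (by linarith)]
    rw [h1, Real.sqrt_sq (by positivity)]
  -- the whole power
  have hwhole : Tendsto (fun n : ℕ => φ (m • s + n • s) / cmp φ s n) atTop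
      (𝓝 (Real.sqrt ρ ^ m)) := by
    have h1 := ((h.tendsto_one H).comp (tendsto_add_atTop_nat m)).mul (h.tendsto_cmp_add H m)
    rw [one_mul] at h1
    refine h1.congr fun n => ?_
    rw [Function.comp_apply, ← add_nsmul, add_comm m n]
    have := (hc (n + m)).ne'
    rw [div_mul_div_comm, mul_comm (cmp φ s (n + m)), mul_div_mul_right _ _ this]
  rcases h.int (x + x') with h0 | h0
  · -- the zero object
    have h1 : ∀ n : ℕ, φ (x + n • s) = 0 := fun n => h.eq_zero hx h0 (h.dnsmul H.ds n)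
    refine ⟨0, fun _ => rfl, fun h2 => absurd h0 h2, fun n => ?_, ?_, fun B hB _ => ?_⟩
    · rw [h1, zero_mul]
    · simp_rw [h1, zero_div]
      exact tendsto_const_nhds
    · rw [sq, mul_zero]
      exact hB
  have hxle : ∀ z, φ (x + z) ≤ φ (m • s + z) := fun z => by
    rw [hS]; linarith [h.nonneg (y + z)]
  have hxle' : ∀ z, φ (x' + z) ≤ φ (m • s + z) := fun z => by
    rw [hS']; linarith [h.nonneg (y' + z)]
  have hyle : ∀ z, φ (y + z) ≤ φ (m • s + z) := fun z => by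
    rw [hS]; linarith [h.nonneg (x + z)]
  have hyle' : ∀ z, φ (y' + z) ≤ φ (m • s + z) := fun z => by
    rw [hS']; linarith [h.nonneg (x' + z)]
  obtain ⟨δ, hδ⟩ := h.exists_rate hx h0 hΔ fun k => by
    have h1 := h.mono_le hxle hxle' k 0
    rw [add_zero, add_zero] at h1
    exact h1.trans (hΔ' k)
  have hδ1 := h.one_le_rate h0 hδ
  have hup := h.le_sqrt H hx h0 hδ
  have hup' : ∀ n : ℕ, φ (x + n • s) / cmp φ s n ≤ Real.sqrt δ := fun n => by
    rw [div_le_iff₀ (hc n)]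
    exact hup n
  have hδΔ : Real.sqrt δ ≤ Real.sqrt ρ ^ m := by
    rw [← hsq]
    exact Real.sqrt_le_sqrt (h.rate_le hxle hxle' hδ hΔ hΔ')
  have hB : ∀ B : ℝ, 0 ≤ B → (∀ k : ℕ, φ (k • (x + x')) ≤ B ^ k) → Real.sqrt δ ^ 2 ≤ B := by
    intro B hB0 hBk
    rw [Real.sq_sqrt hδ.1.le]
    refine le_of_forall_lt' hδ.1 fun θ hθ hθ' => ?_
    obtain ⟨c, hc0, hc'⟩ := hδ.2.2.1 θ hθ hθ'
    refine le_of_pow_le' (C := 1 / c) hB0 hθ fun k => ?_
    have h1 := (hc' k).trans (hBk k)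
    rw [div_mul_eq_mul_div, one_mul, le_div_iff₀ hc0]
    linarith
  refine ⟨Real.sqrt δ, fun h2 => by linarith, fun _ => ?_, hup, ?_, hB⟩
  · rw [Real.one_le_sqrt]
    exact hδ1
  rcases h.int (y + y') with h2 | h2
  · -- the complement is zero
    have h3 : ∀ n : ℕ, φ (y + n • s) = 0 := fun n => h.eq_zero hy h2 (h.dnsmul H.ds n)
    have h4 : Tendsto (fun n : ℕ => φ (x + n • s) / cmp φ s n) atTop (𝓝 (Real.sqrt ρ ^ m)) := by
      refine hwhole.congr fun n => ?_
      rw [hS, h3, add_zero]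
    have h5 : Real.sqrt δ = Real.sqrt ρ ^ m :=
      le_antisymm hδΔ (le_of_tendsto' h4 hup')
    rw [h5]
    exact h4
  · obtain ⟨η, hη⟩ := h.exists_rate hy h2 hΔ fun k => by
      have h1 := h.mono_le hyle hyle' k 0
      rw [add_zero, add_zero] at h1
      exact h1.trans (hΔ' k)
    have hupy := h.le_sqrt H hy h2 hη
    have h3 := h.superadd hS hS' hδ hη hΔ hΔ'
    rw [hsq] at h3
    -- the lower bound
    have h4 : Tendsto (fun n : ℕ => φ (m • s + n • s) / cmp φ s n - Real.sqrt η) atTop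
        (𝓝 (Real.sqrt ρ ^ m - Real.sqrt η)) := hwhole.sub_const _
    have h5 : ∀ n : ℕ, φ (m • s + n • s) / cmp φ s n - Real.sqrt η ≤
        φ (x + n • s) / cmp φ s n := by
      intro n
      have h6 : φ (y + n • s) / cmp φ s n ≤ Real.sqrt η := by
        rw [div_le_iff₀ (hc n)]
        exact hupy n
      rw [hS, add_div]
      linarith
    have h6 : Real.sqrt ρ ^ m - Real.sqrt η ≤ Real.sqrt δ :=
      le_of_tendsto' h4 fun n => (h5 n).trans (hup' n)
    have h7 : Real.sqrt ρ ^ m - Real.sqrt η = Real.sqrt δ := le_antisymm h6 (by linarith)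
    rw [h7] at h4
    exact tendsto_of_tendsto_of_tendsto_of_le_of_le h4 tendsto_const_nhds h5 hup'

end Ax

end Pool.Agent.H23NC
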