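import Pool.Agent.H23NC.Schwarz
import Pool.Agent.N64.AF.E1

/-!
# Multiplicities in tensor products of direct summands: the basic inequalities
-/

set_option autoImplicit false
set_option linter.unusedSectionVars false
set_option linter.style.haveILetI false

open CategoryTheory Limits MonoidalCategory Module
open Pool.Agent.Y112.SR Pool.Agent.Y112.KD Pool.Agent.N64.AF
open Pool.Agent.Y116.MT (tr)

namespace Pool.Agent.H23NC

universe v u w t x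

section

variable {C : Type u} [Category.{v} C] [Preadditive C] [MonoidalCategory C]
  [MonoidalPreadditive C] [SymmetricCategory C] [RightRigidCategory C]

/-- An object with an endomorphism which is idempotent modulo numerical equivalence. -/
structure Pr (C : Type u) [Category.{v} C] [Preadditive C] [MonoidalCategory C]
    [MonoidalPreadditive C] [SymmetricCategory C] [RightRigidCategory C] where
  /-- the object -/
  Y : C
  /-- the endomorphism -/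
  e : Y ⟶ Y
  idem : NumIdem e

/-- Duality. -/
def IsDual (P P' : Pr C) : Prop :=
  ∃ _ : ExactPairing P.Y P'.Y, η_ P.Y P'.Y ≫ (P.e ▷ P'.Y) = η_ P.Y P'.Y ≫ (P.Y ◁ P'.e)

lemma IsDual.symm {P P' : Pr C} (h : IsDual P P') : IsDual P' P := by
  obtain ⟨p, hp⟩ := h
  refine ⟨BraidedCategory.exactPairing_swap P.Y P'.Y, ?_⟩
  change (η_ P.Y P'.Y ≫ (β_ P'.Y P.Y).inv) ≫ (P'.e ▷ P.Y) =
    (η_ P.Y P'.Y ≫ (β_ P'.Y P.Y).inv) ≫ (P'.Y ◁ P.e)
  rw [Category.assoc, Category.assoc, ← BraidedCategory.braiding_inv_naturality_right,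
    ← BraidedCategory.braiding_inv_naturality_left, ← Category.assoc, ← Category.assoc, hp]

end

section

variable {C : Type u} [Category.{v} C] [Preadditive C] [MonoidalCategory C]
  [MonoidalPreadditive C] [SymmetricCategory C] [RightRigidCategory C]
  {Λ : Type t} [Field Λ] [CharZero Λ] [Linear Λ C] [MonoidalLinear Λ C]
  {K : Type w} [Field K] [IsAlgClosed K] [Algebra Λ K] {R : SuperRealisation C K}

/-- Moving a factor to the other side. -/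
theorem nr_move (hR : IsReal Λ R) {Q' Q : Pr C} (h : IsDual Q' Q) {A B : C} (f : A ⟶ A)
    (g : B ⟶ B) : nr Λ (Q.e ⊗ₘ f) g = nr Λ f (Q'.e ⊗ₘ g) := by
  obtain ⟨p, hp⟩ := h
  let Φ : (Q.Y ⊗ A ⟶ B) →ₗ[Λ] (A ⟶ Q'.Y ⊗ B) :=
    { toFun := tensorLeftHomEquiv A Q'.Y Q.Y B
      map_add' := fun a b => by
        simp only [tensorLeftHomEquiv, Equiv.coe_fn_mk, MonoidalPreadditive.whiskerLeft_add,
          Preadditive.comp_add]
      map_smul' := fun a b => by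
        simp only [tensorLeftHomEquiv, Equiv.coe_fn_mk, MonoidalLinear.whiskerLeft_smul,
          Linear.comp_smul, RingHom.id_apply] }
  have hΦ : ∀ c, Φ c = (λ_ A).inv ≫ η_ Q'.Y Q.Y ▷ A ≫ (α_ _ _ _).hom ≫ Q'.Y ◁ c := fun _ => rfl
  have hΦ2 : ∀ c, Φ ((Q.e ⊗ₘ f) ≫ c ≫ g) = f ≫ Φ c ≫ (Q'.e ⊗ₘ g) := by
    intro c
    rw [hΦ, hΦ, MonoidalCategory.tensorHom_def, MonoidalCategory.tensorHom_def Q'.e g]
    simp only [MonoidalCategory.whiskerLeft_comp, Category.assoc]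
    rw [← associator_naturality_middle_assoc, ← comp_whiskerRight_assoc, ← hp,
      comp_whiskerRight_assoc, associator_naturality_left_assoc, ← whisker_exchange_assoc,
      ← associator_naturality_right_assoc, ← whisker_exchange_assoc,
      ← leftUnitor_inv_naturality_assoc, whisker_exchange_assoc]
  refine Pool.Agent.N199.AFA3.nr_eq_of _ _ _ _ Φ (fun c => ⟨Φ c, hΦ2 c⟩)
    (fun c' => ⟨(tensorLeftHomEquiv A Q'.Y Q.Y B).symm c', ?_⟩) ?_
  · rw [hΦ2]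
    congr 2
    exact (tensorLeftHomEquiv A Q'.Y Q.Y B).apply_symm_apply c'
  · intro c
    generalize (Q.e ⊗ₘ f) ≫ c ≫ g = x
    constructor
    · intro hx
      have h1 : x = (Q.Y ◁ Φ x) ≫ ((α_ _ _ _).inv ≫ (ε_ _ _ ▷ _) ≫ (λ_ _).hom) :=
        ((tensorLeftHomEquiv A Q'.Y Q.Y B).symm_apply_apply x).symm
      rw [h1]
      exact Pool.Agent.N199.AFA3.comp_right hR (hx.whiskerLeft hR Q.Y) _
    · intro hx
      rw [hΦ]
      have h1 : (λ_ A).inv ≫ η_ Q'.Y Q.Y ▷ A ≫ (α_ _ _ _).hom ≫ Q'.Y ◁ x =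
          ((λ_ A).inv ≫ η_ Q'.Y Q.Y ▷ A ≫ (α_ _ _ _).hom) ≫ Q'.Y ◁ x := by
        simp only [Category.assoc]
      rw [h1]
      exact Pool.Agent.N199.AFA3.comp_left hR (hx.whiskerLeft hR Q'.Y) _

/-- External products. -/
theorem nr_mul_le (hR : IsReal Λ R) {A B : C} (e : A ⟶ A) (f : B ⟶ B) :
    nr Λ (𝟙 (𝟙_ C)) e * nr Λ (𝟙 (𝟙_ C)) f ≤ nr Λ (𝟙 (𝟙_ C)) (e ⊗ₘ f) := by
  classical
  obtain ⟨τ, hτ, -⟩ := exists_tau hR (𝟙_ C)
  have hτ' : ∀ a : 𝟙_ C ⟶ 𝟙_ C, a = τ a • 𝟙 (𝟙_ C) := fun a => by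
    rw [← hτ, tr_unit hR]
  have h1ne : (𝟙 (𝟙_ C) : 𝟙_ C ⟶ 𝟙_ C) ≠ 0 := E1aux.id_ne_zero R
  have hfA := finite_num hR (𝟙_ C) A
  have hfB := finite_num hR (𝟙_ C) B
  have hfAB := finite_num hR (𝟙_ C) (A ⊗ B)
  rw [Pool.Agent.N199.AFA3.nr_eq, Pool.Agent.N199.AFA3.nr_eq, Pool.Agent.N199.AFA3.nr_eq]
  set SA := (Pool.Agent.N199.AFA3.sw Λ (𝟙 (𝟙_ C)) e).map (numIdeal Λ (𝟙_ C) A).mkQ with hSA
  set SB := (Pool.Agent.N199.AFA3.sw Λ (𝟙 (𝟙_ C)) f).map (numIdeal Λ (𝟙_ C) B).mkQ with hSB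
  set SAB := (Pool.Agent.N199.AFA3.sw Λ (𝟙 (𝟙_ C)) (e ⊗ₘ f)).map
    (numIdeal Λ (𝟙_ C) (A ⊗ B)).mkQ with hSAB
  let bA := Module.finBasis Λ SA
  let bB := Module.finBasis Λ SB
  have hA : ∀ i, ∃ c : 𝟙_ C ⟶ A, (numIdeal Λ (𝟙_ C) A).mkQ (c ≫ e) = bA i := by
    intro i
    obtain ⟨y, hy, hy'⟩ := Submodule.mem_map.1 (bA i).2
    obtain ⟨c, rfl⟩ := Pool.Agent.N199.AFA3.mem_sw.1 hy
    exact ⟨c, by rw [← hy', Category.id_comp]⟩
  have hB : ∀ i, ∃ c : 𝟙_ C ⟶ B, (numIdeal Λ (𝟙_ C) B).mkQ (c ≫ f) = bB i := by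
    intro i
    obtain ⟨y, hy, hy'⟩ := Submodule.mem_map.1 (bB i).2
    obtain ⟨c, rfl⟩ := Pool.Agent.N199.AFA3.mem_sw.1 hy
    exact ⟨c, by rw [← hy', Category.id_comp]⟩
  choose cA hcA using hA
  choose cB hcB using hB
  -- linear independence
  have liA : ∀ c : Fin (finrank Λ SA) → Λ, NumTriv (∑ i, c i • (cA i ≫ e)) → ∀ i, c i = 0 := by
    intro c hc
    have h2 : ∑ i, c i • (bA i : (𝟙_ C ⟶ A) ⧸ numIdeal Λ (𝟙_ C) A) = 0 := by
      have h3 : (numIdeal Λ (𝟙_ C) A).mkQ (∑ i, c i • (cA i ≫ e)) = 0 :=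
        (Submodule.Quotient.mk_eq_zero _).2 hc
      rw [map_sum] at h3
      simpa only [map_smul, hcA] using h3
    have h3 : ∑ i, c i • bA i = 0 := by
      apply Subtype.ext
      simpa using h2
    exact Fintype.linearIndependent_iff.1 bA.linearIndependent c h3
  have liB : ∀ c : Fin (finrank Λ SB) → Λ, NumTriv (∑ i, c i • (cB i ≫ f)) → ∀ i, c i = 0 := by
    intro c hc
    have h2 : ∑ i, c i • (bB i : (𝟙_ C ⟶ B) ⧸ numIdeal Λ (𝟙_ C) B) = 0 := by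
      have h3 : (numIdeal Λ (𝟙_ C) B).mkQ (∑ i, c i • (cB i ≫ f)) = 0 :=
        (Submodule.Quotient.mk_eq_zero _).2 hc
      rw [map_sum] at h3
      simpa only [map_smul, hcB] using h3
    have h3 : ∑ i, c i • bB i = 0 := by
      apply Subtype.ext
      simpa using h2
    exact Fintype.linearIndependent_iff.1 bB.linearIndependent c h3
  -- the products
  let γ : Fin (finrank Λ SA) × Fin (finrank Λ SB) → (𝟙_ C ⟶ A ⊗ B) := fun ij =>
    (λ_ (𝟙_ C)).inv ≫ ((cA ij.1 ≫ e) ⊗ₘ (cB ij.2 ≫ f))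
  have hγ : ∀ ij, (numIdeal Λ (𝟙_ C) (A ⊗ B)).mkQ (γ ij) ∈ SAB := by
    intro ij
    refine Submodule.mem_map_of_mem (Pool.Agent.N199.AFA3.mem_sw.2
      ⟨(λ_ (𝟙_ C)).inv ≫ (cA ij.1 ⊗ₘ cB ij.2), ?_⟩)
    rw [Category.id_comp, Category.assoc, tensorHom_comp_tensorHom]
  have hprod : ∀ (α : 𝟙_ C ⟶ A) (β : 𝟙_ C ⟶ B) (x : A ⟶ 𝟙_ C) (y : B ⟶ 𝟙_ C),
      ((λ_ (𝟙_ C)).inv ≫ (α ⊗ₘ β)) ≫ ((x ⊗ₘ y) ≫ (λ_ (𝟙_ C)).hom) =
        (τ (α ≫ x) * τ (β ≫ y)) • 𝟙 (𝟙_ C) := by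
    intro α β x y
    rw [Category.assoc, tensorHom_comp_tensorHom_assoc]
    have e1 : ((α ≫ x) ⊗ₘ (β ≫ y)) = (τ (α ≫ x) * τ (β ≫ y)) • 𝟙 (𝟙_ C ⊗ 𝟙_ C) := by
      conv_lhs => rw [hτ' (α ≫ x), hτ' (β ≫ y)]
      rw [MonoidalCategory.tensorHom_def, MonoidalLinear.smul_whiskerRight, MonoidalLinear.whiskerLeft_smul,
        Linear.smul_comp, Linear.comp_smul, smul_smul, id_whiskerRight, whiskerLeft_id,
        Category.comp_id]
    rw [e1, Linear.smul_comp, Linear.comp_smul, Category.id_comp, Iso.inv_hom_id]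
  have hli : LinearIndependent Λ (fun ij => (⟨_, hγ ij⟩ : SAB)) := by
    rw [Fintype.linearIndependent_iff]
    intro c hc ij
    have h2 : NumTriv (∑ ij, c ij • γ ij) := by
      have h3 : (numIdeal Λ (𝟙_ C) (A ⊗ B)).mkQ (∑ ij, c ij • γ ij) = 0 := by
        rw [map_sum]
        have h4 := congrArg Subtype.val hc
        simpa only [map_smul, AddSubmonoidClass.coe_finsetSum, Submodule.coe_smul,
          Submodule.coe_zero] using h4
      exact (Submodule.Quotient.mk_eq_zero _).1 h3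
    have h3 : ∀ (x : A ⟶ 𝟙_ C) (y : B ⟶ 𝟙_ C),
        ∑ i, (∑ j, c (i, j) * τ ((cB j ≫ f) ≫ y)) * τ ((cA i ≫ e) ≫ x) = 0 := by
      intro x y
      have h4 := (numTriv_unit_iff hR _).1 h2 ((x ⊗ₘ y) ≫ (λ_ (𝟙_ C)).hom)
      rw [Preadditive.sum_comp] at h4
      have h5 : ∀ ij, (c ij • γ ij) ≫ (x ⊗ₘ y) ≫ (λ_ (𝟙_ C)).hom =
          (c ij * (τ ((cA ij.1 ≫ e) ≫ x) * τ ((cB ij.2 ≫ f) ≫ y))) • 𝟙 (𝟙_ C) := by
        intro ij
        rw [Linear.smul_comp, hprod, smul_smul]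
      rw [Finset.sum_congr rfl fun ij _ => h5 ij, ← Finset.sum_smul] at h4
      rcases smul_eq_zero.1 h4 with h6 | h6
      · rw [Fintype.sum_prod_type] at h6
        rw [← h6]
        refine Finset.sum_congr rfl fun i _ => ?_
        rw [Finset.sum_mul]
        refine Finset.sum_congr rfl fun j _ => ?_
        ring
      · exact absurd h6 h1ne
    have h4 : ∀ (y : B ⟶ 𝟙_ C) (i), ∑ j, c (i, j) * τ ((cB j ≫ f) ≫ y) = 0 := by
      intro y
      refine liA _ ?_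
      rw [numTriv_unit_iff hR]
      intro x
      rw [Preadditive.sum_comp]
      have h5 : ∀ i, ((∑ j, c (i, j) * τ ((cB j ≫ f) ≫ y)) • (cA i ≫ e)) ≫ x =
          ((∑ j, c (i, j) * τ ((cB j ≫ f) ≫ y)) * τ ((cA i ≫ e) ≫ x)) • 𝟙 (𝟙_ C) := by
        intro i
        rw [Linear.smul_comp]
        conv_lhs => rw [hτ' ((cA i ≫ e) ≫ x)]
        rw [smul_smul]
      rw [Finset.sum_congr rfl fun i _ => h5 i, ← Finset.sum_smul, h3, zero_smul]
    have h5 : ∀ j, c (ij.1, j) = 0 := by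
      refine liB _ ?_
      rw [numTriv_unit_iff hR]
      intro y
      rw [Preadditive.sum_comp]
      have h5 : ∀ j, (c (ij.1, j) • (cB j ≫ f)) ≫ y =
          (c (ij.1, j) * τ ((cB j ≫ f) ≫ y)) • 𝟙 (𝟙_ C) := by
        intro j
        rw [Linear.smul_comp]
        conv_lhs => rw [hτ' ((cB j ≫ f) ≫ y)]
        rw [smul_smul]
      rw [Finset.sum_congr rfl fun j _ => h5 j, ← Finset.sum_smul, h4, zero_smul]
    exact h5 ij.2
  have h6 := hli.fintype_card_le_finrank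
  rwa [Fintype.card_prod, Fintype.card_fin, Fintype.card_fin] at h6

end

end Pool.Agent.H23NC
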