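import Pool.Agent.H23NC.Cat1
import Pool.Agent.H23NC.Ana3

/-!
# Multiplicities in tensor products of direct summands
-/

set_option autoImplicit false
set_option linter.unusedSectionVars false
set_option linter.style.haveILetI false

open CategoryTheory Limits MonoidalCategory Module
open Pool.Agent.Y112.SR Pool.Agent.Y112.KD Pool.Agent.N64.AF
open Pool.Agent.Y116.MT (tr)

namespace Pool.Agent.H23NC

universe v u w t x

section

variable {C : Type u} [Category.{v} C] [Preadditive C] [MonoidalCategory C]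
  [MonoidalPreadditive C] [SymmetricCategory C] [RightRigidCategory C]

/-- The tensor product of the objects of a list. -/
@[reducible] def lo : List (Pr C) → C
  | [] => 𝟙_ C
  | P :: L => P.Y ⊗ lo L

/-- The tensor product of the endomorphisms of a list. -/
def le : ∀ L : List (Pr C), (lo L ⟶ lo L)
  | [] => 𝟙 (𝟙_ C)
  | P :: L => P.e ⊗ₘ le L

lemma lo_cons (P : Pr C) (L : List (Pr C)) : lo (P :: L) = P.Y ⊗ lo L := rfl

lemma le_cons (P : Pr C) (L : List (Pr C)) : le (P :: L) = P.e ⊗ₘ le L := rfl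

/-- Permutations. -/
lemma iso_perm {L L' : List (Pr C)} (h : L.Perm L') :
    ∃ i : lo L ≅ lo L', le L ≫ i.hom = i.hom ≫ le L' := by
  induction h with
  | nil => exact ⟨Iso.refl _, rfl⟩
  | cons P _ ih =>
    obtain ⟨i, hi⟩ := ih
    refine ⟨whiskerLeftIso P.Y i, ?_⟩
    change (P.e ⊗ₘ le _) ≫ (P.Y ◁ i.hom) = (P.Y ◁ i.hom) ≫ (P.e ⊗ₘ le _)
    rw [← id_tensorHom, tensorHom_comp_tensorHom,
      tensorHom_comp_tensorHom, hi, Category.id_comp, Category.comp_id]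
  | swap P Q L =>
    refine ⟨(α_ Q.Y P.Y (lo L)).symm ≪≫ whiskerRightIso (β_ Q.Y P.Y) (lo L) ≪≫
      α_ P.Y Q.Y (lo L), ?_⟩
    change (Q.e ⊗ₘ (P.e ⊗ₘ le L)) ≫ ((α_ Q.Y P.Y (lo L)).inv ≫ (β_ Q.Y P.Y).hom ▷ lo L ≫
      (α_ P.Y Q.Y (lo L)).hom) = ((α_ Q.Y P.Y (lo L)).inv ≫ (β_ Q.Y P.Y).hom ▷ lo L ≫
      (α_ P.Y Q.Y (lo L)).hom) ≫ (P.e ⊗ₘ (Q.e ⊗ₘ le L))
    simp only [Category.assoc]
    rw [associator_inv_naturality_assoc, ← associator_naturality, ← tensorHom_id,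
      tensorHom_comp_tensorHom_assoc, tensorHom_comp_tensorHom_assoc, Category.comp_id,
      Category.id_comp, BraidedCategory.braiding_naturality]
  | trans _ _ ih1 ih2 =>
    obtain ⟨i, hi⟩ := ih1
    obtain ⟨j, hj⟩ := ih2
    refine ⟨i ≪≫ j, ?_⟩
    rw [Iso.trans_hom, ← Category.assoc, hi, Category.assoc, hj, Category.assoc]

/-- Concatenation. -/
lemma iso_append (L L' : List (Pr C)) :
    ∃ i : lo (L ++ L') ≅ lo L ⊗ lo L', le (L ++ L') ≫ i.hom = i.hom ≫ (le L ⊗ₘ le L') := by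
  induction L with
  | nil =>
    refine ⟨(λ_ (lo L')).symm, ?_⟩
    change le L' ≫ (λ_ (lo L')).inv = (λ_ (lo L')).inv ≫ (𝟙 (𝟙_ C) ⊗ₘ le L')
    rw [id_tensorHom, leftUnitor_inv_naturality]
  | cons P L ih =>
    obtain ⟨i, hi⟩ := ih
    refine ⟨whiskerLeftIso P.Y i ≪≫ (α_ P.Y (lo L) (lo L')).symm, ?_⟩
    change (P.e ⊗ₘ le (L ++ L')) ≫ (P.Y ◁ i.hom ≫ (α_ P.Y (lo L) (lo L')).inv) =
      (P.Y ◁ i.hom ≫ (α_ P.Y (lo L) (lo L')).inv) ≫ ((P.e ⊗ₘ le L) ⊗ₘ le L')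
    rw [Category.assoc, ← associator_inv_naturality, ← id_tensorHom,
      tensorHom_comp_tensorHom_assoc, tensorHom_comp_tensorHom_assoc, hi, Category.comp_id,
      Category.id_comp]

variable {Λ : Type t} [Field Λ] [CharZero Λ] [Linear Λ C] [MonoidalLinear Λ C]
  {K : Type w} [Field K] [IsAlgClosed K] [Algebra Λ K] {R : SuperRealisation C K}

lemma numIdem_le (hR : IsReal Λ R) (L : List (Pr C)) : NumIdem (le L) := by
  induction L with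
  | nil => exact numIdem_id _
  | cons P L ih => exact numIdem_tensor hR P.idem ih

/-- The multiplicity of the unit object. -/
noncomputable def q (Λ : Type t) [Field Λ] [Linear Λ C] [MonoidalLinear Λ C]
    (L : List (Pr C)) : ℕ := nr Λ (𝟙 (𝟙_ C)) (le L)

lemma q_perm (hR : IsReal Λ R) {L L' : List (Pr C)} (h : L.Perm L') : q Λ L = q Λ L' := by
  obtain ⟨i, hi⟩ := iso_perm h
  exact nr_congr_right hR i _ hi

lemma q_mul (hR : IsReal Λ R) (L L' : List (Pr C)) : q Λ L * q Λ L' ≤ q Λ (L ++ L') := by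
  obtain ⟨i, hi⟩ := iso_append L L'
  refine (nr_mul_le hR (le L) (le L')).trans (le_of_eq ?_)
  exact (nr_congr_right hR i _ hi).symm

/-- The multiplicity as a dimension of morphisms between tensor products. -/
lemma nr_eq_q (hR : IsReal Λ R) {L' L : List (Pr C)} (h : List.Forall₂ IsDual L' L) :
    ∀ M : List (Pr C), nr Λ (le L) (le M) = q Λ (L' ++ M) := by
  induction h with
  | nil => intro M; rfl
  | @cons P' P L' L hP hL ih =>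
    intro M
    change nr Λ (P.e ⊗ₘ le L) (le M) = _
    rw [nr_move hR hP]
    change nr Λ (le L) (le (P' :: M)) = _
    rw [ih (P' :: M)]
    exact q_perm hR List.perm_middle

lemma cs_list (hR : IsReal Λ R) {x x' y y' : List (Pr C)} (hx : List.Forall₂ IsDual x' x)
    (hy : List.Forall₂ IsDual y' y) :
    q Λ (x' ++ y) ^ 2 ≤ q Λ (x' ++ x) * q Λ (y' ++ y) := by
  rw [← nr_eq_q hR hx, ← nr_eq_q hR hx, ← nr_eq_q hR hy]
  exact nr_sq_le' hR (numIdem_le hR x) (numIdem_le hR y)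

/-- The multiplicity, for multisets. -/
noncomputable def qm (hR : IsReal Λ R) : Multiset (Pr C) → ℝ :=
  Quot.lift (fun L => (q Λ L : ℝ)) fun _ _ h => by rw [q_perm hR h]

lemma qm_coe (hR : IsReal Λ R) (L : List (Pr C)) : qm hR (L : Multiset (Pr C)) = q Λ L := rfl

/-- Duality of multisets. -/
def DM (x x' : Multiset (Pr C)) : Prop :=
  ∃ L L' : List (Pr C), (L : Multiset (Pr C)) = x ∧ (L' : Multiset (Pr C)) = x' ∧
    List.Forall₂ IsDual L L'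

lemma forall₂_symm {L L' : List (Pr C)} (h : List.Forall₂ IsDual L L') :
    List.Forall₂ IsDual L' L := by
  induction h with
  | nil => exact List.Forall₂.nil
  | cons h _ ih => exact List.Forall₂.cons h.symm ih

lemma forall₂_append {L L' M M' : List (Pr C)} (h : List.Forall₂ IsDual L L')
    (h' : List.Forall₂ IsDual M M') : List.Forall₂ IsDual (L ++ M) (L' ++ M') := by
  induction h with
  | nil => exact h'
  | cons h _ ih => exact List.Forall₂.cons h ih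

lemma q_nil (hR : IsReal Λ R) : q Λ ([] : List (Pr C)) = 1 := by
  have h1 : q Λ ([] : List (Pr C)) = numRank Λ (𝟙_ C) := (numRank_eq (𝟙_ C)).symm
  rw [h1, numRank]
  have h1ne : (𝟙 (𝟙_ C) : 𝟙_ C ⟶ 𝟙_ C) ≠ 0 := E1aux.id_ne_zero R
  have h2 : ¬ NumTriv (𝟙 (𝟙_ C) : 𝟙_ C ⟶ 𝟙_ C) := by
    intro h
    have h3 := (numTriv_unit_iff hR _).1 h (𝟙 _)
    rw [Category.id_comp] at h3
    exact h1ne h3
  refine (finrank_eq_one_iff_of_nonzero' (Submodule.Quotient.mk (𝟙 (𝟙_ C))) ?_).2 ?_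
  · intro h
    exact h2 ((Submodule.Quotient.mk_eq_zero _).1 h)
  · intro w
    obtain ⟨w, rfl⟩ := Submodule.mkQ_surjective _ w
    obtain ⟨c, hc⟩ := hR.unit w
    refine ⟨c, ?_⟩
    rw [hc]
    rfl

/-- **The axioms.** -/
theorem ax (hR : IsReal Λ R) : Ax (qm hR) (DM (C := C)) where
  zero := by
    change qm hR (([] : List (Pr C)) : Multiset (Pr C)) = 1
    rw [qm_coe, q_nil hR, Nat.cast_one]
  int x := by
    obtain ⟨L, rfl⟩ := Quot.exists_rep x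
    change (q Λ L : ℝ) = 0 ∨ 1 ≤ (q Λ L : ℝ)
    rcases Nat.eq_zero_or_pos (q Λ L) with h | h
    · exact Or.inl (by rw [h, Nat.cast_zero])
    · exact Or.inr (by exact_mod_cast h)
  mul x y := by
    obtain ⟨L, rfl⟩ := Quot.exists_rep x
    obtain ⟨M, rfl⟩ := Quot.exists_rep y
    change (q Λ L : ℝ) * (q Λ M : ℝ) ≤ (q Λ (L ++ M) : ℝ)
    exact_mod_cast q_mul hR L M
  dzero := ⟨[], [], rfl, rfl, List.Forall₂.nil⟩
  dadd := by
    rintro _ _ _ _ ⟨L, L', rfl, rfl, h⟩ ⟨M, M', rfl, rfl, h'⟩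
    exact ⟨L ++ M, L' ++ M', rfl, rfl, forall₂_append h h'⟩
  dsymm := by
    rintro _ _ ⟨L, L', rfl, rfl, h⟩
    exact ⟨L', L, rfl, rfl, forall₂_symm h⟩
  cs := by
    rintro _ _ _ _ ⟨L, L', rfl, rfl, h⟩ ⟨M, M', rfl, rfl, h'⟩
    change (q Λ (L' ++ M) : ℝ) ^ 2 ≤ (q Λ (L' ++ L) : ℝ) * (q Λ (M' ++ M) : ℝ)
    exact_mod_cast cs_list hR (forall₂_symm h) (forall₂_symm h')

/-- The complementary direct summand. -/
def Pr.compl (P : Pr C) : Pr C := ⟨P.Y, 𝟙 P.Y - P.e, numIdem_compl P.idem⟩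

/-- The whole object. -/
def Pr.full (Y : C) : Pr C := ⟨Y, 𝟙 Y, numIdem_id Y⟩

lemma IsDual.compl {P P' : Pr C} (h : IsDual P P') : IsDual P.compl P'.compl := by
  obtain ⟨p, hp⟩ := h
  refine ⟨p, ?_⟩
  change η_ P.Y P'.Y ≫ ((𝟙 P.Y - P.e) ▷ P'.Y) = η_ P.Y P'.Y ≫ (P.Y ◁ (𝟙 P'.Y - P'.e))
  rw [P2aux.sub_right, P2aux.sub_left, Preadditive.comp_sub, Preadditive.comp_sub, hp,
    id_whiskerRight, whiskerLeft_id]

lemma IsDual.full {P P' : Pr C} (h : IsDual P P') : IsDual (Pr.full P.Y) (Pr.full P'.Y) := by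
  obtain ⟨p, hp⟩ := h
  refine ⟨p, ?_⟩
  change η_ P.Y P'.Y ≫ (𝟙 P.Y ▷ P'.Y) = η_ P.Y P'.Y ≫ (P.Y ◁ 𝟙 P'.Y)
  rw [id_whiskerRight, whiskerLeft_id]

/-- Additivity. -/
lemma q_add (hR : IsReal Λ R) {P P' : Pr C} (hP : IsDual P P') (L : List (Pr C)) :
    q Λ (Pr.full P.Y :: L) = q Λ (P :: L) + q Λ (P.compl :: L) := by
  have h1 := nr_move (Λ := Λ) hR hP (𝟙 (𝟙_ C)) (le L)
  have h2 := nr_move (Λ := Λ) hR hP.compl (𝟙 (𝟙_ C)) (le L)
  have h3 := nr_move (Λ := Λ) hR hP.full (𝟙 (𝟙_ C)) (le L)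
  change _ = q Λ (P :: L) at h1
  change _ = q Λ (P.compl :: L) at h2
  change _ = q Λ (Pr.full P.Y :: L) at h3
  have h4 := nr_add hR (Z := lo L) (numIdem_tensor hR P'.idem (numIdem_id (𝟙_ C))) (le L)
  have e1 : (P'.compl.e ⊗ₘ 𝟙 (𝟙_ C)) = 𝟙 (P'.Y ⊗ 𝟙_ C) - (P'.e ⊗ₘ 𝟙 (𝟙_ C)) := by
    change ((𝟙 P'.Y - P'.e) ⊗ₘ 𝟙 (𝟙_ C)) = _
    rw [tensorHom_id, tensorHom_id, P2aux.sub_right, id_whiskerRight]
  have e2 : ((Pr.full P'.Y).e ⊗ₘ 𝟙 (𝟙_ C)) = 𝟙 (P'.Y ⊗ 𝟙_ C) := by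
    change (𝟙 P'.Y ⊗ₘ 𝟙 (𝟙_ C)) = _
    rw [tensorHom_id, id_whiskerRight]
  have e1' : nr Λ (P'.compl.e ⊗ₘ 𝟙 (𝟙_ C)) (le L) =
      nr Λ (𝟙 (P'.Y ⊗ 𝟙_ C) - (P'.e ⊗ₘ 𝟙 (𝟙_ C))) (le L) :=
    congrArg (fun z : (P'.Y ⊗ 𝟙_ C ⟶ P'.Y ⊗ 𝟙_ C) => nr Λ z (le L)) e1
  have e2' : nr Λ ((Pr.full P'.Y).e ⊗ₘ 𝟙 (𝟙_ C)) (le L) = nr Λ (𝟙 (P'.Y ⊗ 𝟙_ C)) (le L) :=
    congrArg (fun z : (P'.Y ⊗ 𝟙_ C ⟶ P'.Y ⊗ 𝟙_ C) => nr Λ z (le L)) e2
  rw [← h3, e2', ← h4, ← h1, ← h2, e1']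

/-- The dual. -/
def Pr.dual (hR : IsReal Λ R) (P : Pr C) : Pr C := ⟨P.Yᘁ, P.eᘁ, numIdem_mate hR P.idem⟩

lemma isDual_dual (hR : IsReal Λ R) (P : Pr C) : IsDual P (P.dual hR) := by
  refine ⟨inferInstanceAs (ExactPairing P.Y P.Yᘁ), ?_⟩
  change η_ P.Y P.Yᘁ ≫ (P.e ▷ P.Yᘁ) = η_ P.Y P.Yᘁ ≫ (P.Y ◁ P.eᘁ)
  exact (coevaluation_comp_rightAdjointMate P.e).symm

/-- Replacement of an object by an isomorphic tensor product. -/
lemma q_replace (hR : IsReal Λ R) {P : Pr C} {M : List (Pr C)} (i : P.Y ≅ lo M)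
    (hi : P.e ≫ i.hom = i.hom ≫ le M) (L : List (Pr C)) : q Λ (P :: L) = q Λ (M ++ L) := by
  obtain ⟨j, hj⟩ := iso_append M L
  have h1 : nr Λ (𝟙 (𝟙_ C)) (le (P :: L)) = nr Λ (𝟙 (𝟙_ C)) (le M ⊗ₘ le L) := by
    refine nr_congr_right hR (whiskerRightIso i (lo L)) _ ?_
    change (P.e ⊗ₘ le L) ≫ (i.hom ▷ lo L) = (i.hom ▷ lo L) ≫ (le M ⊗ₘ le L)
    rw [← tensorHom_id, tensorHom_comp_tensorHom, tensorHom_comp_tensorHom, hi,
      Category.id_comp, Category.comp_id]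
  rw [q, h1]
  exact (nr_congr_right hR j _ hj).symm

end

end Pool.Agent.H23NC
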