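import Pool.Agent.H23NC.Cat2

/-!
# The dimension of a direct summand of a tensor power
-/

set_option autoImplicit false
set_option linter.unusedSectionVars false
set_option linter.style.haveILetI false

open CategoryTheory Limits MonoidalCategory Module Filter Topology
open Pool.Agent.Y112.SR Pool.Agent.Y112.KD Pool.Agent.N64.AF
open Pool.Agent.Y116.MT (tr)

namespace Pool.Agent.H23NC

universe v u w t x

variable {C : Type u} [Category.{v} C] [Preadditive C] [MonoidalCategory C]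
  [MonoidalPreadditive C] [SymmetricCategory C] [RightRigidCategory C]
  {Λ : Type t} [Field Λ] [CharZero Λ] [Linear Λ C] [MonoidalLinear Λ C]
  {K : Type w} [Field K] [IsAlgClosed K] [Algebra Λ K] {R : SuperRealisation C K}

/-- The trivial bound. -/
theorem numRank_le_bt (hR : IsReal Λ R) (Z : C) : numRank Λ Z ≤ bt R Z := by
  have hfi : ∀ Y : C, Module.Finite K (R.H.obj Y) := R.finite
  rw [numRank_eq, nr_eq_rk hR (fun b : Bool => bif b then Z else 𝟙_ C) true false]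
  set β := (cat R fun b : Bool => bif b then Z else 𝟙_ C).B true false
    (R.H.map (𝟙 Z)).hom (R.H.map (𝟙 (𝟙_ C))).hom
  have h1 : Pool.Agent.Y133.Half.rk β ≤ _ := LinearMap.finrank_range_le β
  refine h1.trans ((Submodule.finrank_le _).trans ?_)
  have h2 : finrank K (R.H.obj (𝟙_ C) →ₗ[K] R.H.obj Z) = bt R Z := by
    rw [Module.finrank_linearMap]
    have h3 : finrank K (R.H.obj (𝟙_ C)) = 1 := bt_unit R
    rw [h3, one_mul]
    rfl
  exact h2.le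

lemma le_replicate (T : C) (m : ℕ) :
    le (List.replicate m (Pr.full T)) = 𝟙 (lo (List.replicate m (Pr.full T))) := by
  induction m with
  | zero => rfl
  | succ m ih =>
    change (𝟙 T ⊗ₘ le (List.replicate m (Pr.full T))) =
      𝟙 (T ⊗ lo (List.replicate m (Pr.full T)))
    rw [ih, id_tensorHom_id]

lemma nonempty_iso_replicate (T : C) (m : ℕ) :
    Nonempty (tp T m ≅ lo (List.replicate m (Pr.full T))) := by
  induction m with
  | zero => exact ⟨Iso.refl _⟩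
  | succ m ih =>
    obtain ⟨i⟩ := ih
    exact ⟨whiskerRightIso i T ≪≫ β_ (lo (List.replicate m (Pr.full T))) T⟩

lemma q_replicate (hR : IsReal Λ R) (T : C) (m : ℕ) :
    q Λ (List.replicate m (Pr.full T)) = numRank Λ (tp T m) := by
  obtain ⟨i⟩ := nonempty_iso_replicate T m
  rw [numRank_eq, q, le_replicate]
  exact (nr_congr_right hR i _ (by rw [Category.id_comp, Category.comp_id])).symm

lemma forall₂_replicate {P : Pr C} (h : IsDual P P) (m : ℕ) :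
    List.Forall₂ IsDual (List.replicate m P) (List.replicate m P) := by
  induction m with
  | zero => exact List.Forall₂.nil
  | succ m ih => exact List.Forall₂.cons h ih

lemma isDual_self (T : C) [ExactPairing T T] : IsDual (Pr.full T) (Pr.full T) := by
  refine ⟨inferInstanceAs (ExactPairing T T), ?_⟩
  change η_ T T ≫ (𝟙 T ▷ T) = η_ T T ≫ (T ◁ 𝟙 T)
  rw [id_whiskerRight, whiskerLeft_id]

/-- The dual of the whole object. -/
lemma q_full_dual (hR : IsReal Λ R) {Y : C} {M : List (Pr C)} (j : Y ≅ lo M)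
    (hM : le M = 𝟙 (lo M)) (hd : List.Forall₂ IsDual M M) (L : List (Pr C)) :
    q Λ (Pr.full Yᘁ :: L) = q Λ (M ++ L) := by
  have h1 := nr_move (Λ := Λ) hR (isDual_dual hR (Pr.full Y)).full.symm.symm.symm.symm.symm
    (𝟙 (𝟙_ C)) (le L)
  rw [← nr_eq_q hR hd L, hM]
  have h2 : nr Λ (𝟙 (Y ⊗ 𝟙_ C)) (le L) = nr Λ (𝟙 (lo M)) (le L) :=
    nr_congr_left hR (ρ_ Y ≪≫ j) (by rw [Category.id_comp, Category.comp_id]) _
  rw [← h2]
  have h3 : ((Pr.full Y).e ⊗ₘ 𝟙 (𝟙_ C)) = 𝟙 (Y ⊗ 𝟙_ C) := id_tensorHom_id _ _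
  have h4 : nr Λ ((Pr.full Y).e ⊗ₘ 𝟙 (𝟙_ C)) (le L) = nr Λ (𝟙 (Y ⊗ 𝟙_ C)) (le L) :=
    congrArg (fun z : (Y ⊗ 𝟙_ C ⟶ Y ⊗ 𝟙_ C) => nr Λ z (le L)) h3
  rw [← h4]
  exact h1.symm

section Unit

variable (hR : IsReal Λ R) {T : C} {i : 𝟙_ C ⟶ T} {r : T ⟶ 𝟙_ C} (hir : i ≫ r = 𝟙 (𝟙_ C))
include hR hir

/-- The unit as a direct summand. -/
def Pr.unit (i : 𝟙_ C ⟶ T) (r : T ⟶ 𝟙_ C) (hir : i ≫ r = 𝟙 (𝟙_ C)) : Pr C :=
  ⟨T, r ≫ i, by
    have : (r ≫ i) ≫ (r ≫ i) - r ≫ i = 0 := by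
      rw [Category.assoc, ← Category.assoc i, hir, Category.id_comp, sub_self]
    unfold NumIdem
    rw [this]
    exact P2aux.zero _ _⟩

lemma nr_unit {W : C} (g : W ⟶ W) :
    nr Λ (𝟙 (𝟙_ C)) g = nr Λ (𝟙 (𝟙_ C)) ((r ≫ i) ⊗ₘ g) := by
  have hΦ : ∀ c : 𝟙_ C ⟶ W, Linear.rightComp Λ (𝟙_ C) ((λ_ W).inv ≫ i ▷ W) c =
      c ≫ (λ_ W).inv ≫ i ▷ W := fun _ => rfl
  have e1 : (λ_ W).inv ≫ (i ▷ W) ≫ ((r ≫ i) ⊗ₘ g) = g ≫ (λ_ W).inv ≫ i ▷ W := by
    rw [← tensorHom_id, tensorHom_comp_tensorHom, ← Category.assoc, hir, Category.id_comp,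
      Category.id_comp, MonoidalCategory.tensorHom_def', ← leftUnitor_inv_naturality_assoc]
    rw [tensorHom_id]
  refine Pool.Agent.N199.AFA3.nr_eq_of _ _ _ _
    (Linear.rightComp Λ (𝟙_ C) ((λ_ W).inv ≫ i ▷ W))
    (fun c => ⟨c ≫ (λ_ W).inv ≫ i ▷ W, ?_⟩)
    (fun c' => ⟨c' ≫ (r ▷ W) ≫ (λ_ W).hom, ?_⟩) ?_
  · rw [hΦ]
    simp only [Category.assoc, Category.id_comp, e1]
  · rw [hΦ]
    simp only [Category.assoc, Category.id_comp]
    congr 1
    rw [← e1, Iso.hom_inv_id_assoc, ← tensorHom_id, ← tensorHom_id,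
      tensorHom_comp_tensorHom, tensorHom_comp_tensorHom]
    congr 1
    · rw [← Category.assoc i r i, hir, Category.id_comp]
    · rw [Category.id_comp, Category.id_comp]
  · intro c
    rw [hΦ]
    generalize 𝟙 (𝟙_ C) ≫ c ≫ g = x
    constructor
    · intro hx
      have h1 := Pool.Agent.N199.AFA3.comp_right hR hx ((r ▷ W) ≫ (λ_ W).hom)
      have h2 : (x ≫ (λ_ W).inv ≫ i ▷ W) ≫ (r ▷ W) ≫ (λ_ W).hom = x := by
        simp only [Category.assoc]
        rw [← comp_whiskerRight_assoc, hir, id_whiskerRight, Category.id_comp,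
          Iso.inv_hom_id, Category.comp_id]
      rwa [h2] at h1
    · intro hx
      exact Pool.Agent.N199.AFA3.comp_right hR hx _

lemma q_unit (L : List (Pr C)) : q Λ (Pr.unit i r hir :: L) = q Λ L :=
  (nr_unit hR hir (le L)).symm

lemma q_unit_dual (L : List (Pr C)) : q Λ ((Pr.unit i r hir).dual hR :: L) = q Λ L := by
  have h1 := nr_move (Λ := Λ) hR (isDual_dual hR (Pr.unit i r hir)).symm (𝟙 (𝟙_ C)) (le L)
  have h2 : nr Λ ((Pr.unit i r hir).e ⊗ₘ 𝟙 (𝟙_ C)) (le L) = nr Λ (𝟙 (𝟙_ C)) (le L) := by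
    have h3 := nr_retract hR ((λ_ (𝟙_ C)).inv ≫ (i ▷ 𝟙_ C)) ((r ▷ 𝟙_ C) ≫ (λ_ (𝟙_ C)).hom)
      (by
        rw [Category.assoc, ← comp_whiskerRight_assoc, hir, id_whiskerRight, Category.id_comp,
          Iso.inv_hom_id]) (le L)
    have h4 : ((r ▷ 𝟙_ C) ≫ (λ_ (𝟙_ C)).hom) ≫ ((λ_ (𝟙_ C)).inv ≫ (i ▷ 𝟙_ C)) =
        ((r ≫ i) ⊗ₘ 𝟙 (𝟙_ C)) := by
      rw [Category.assoc, Iso.hom_inv_id_assoc, ← comp_whiskerRight, tensorHom_id]
    rw [← h3]
    exact congrArg (fun z : (T ⊗ 𝟙_ C ⟶ T ⊗ 𝟙_ C) => nr Λ z (le L)) h4.symm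
  exact h1.symm.trans h2

end Unit

end Pool.Agent.H23NC
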