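import Pool.Agent.H23NC.Cat3

/-!
# The dimension of a direct summand of a tensor power: the theorem
-/

set_option autoImplicit false
set_option linter.unusedSectionVars false
set_option linter.style.haveILetI false

open CategoryTheory Limits MonoidalCategory Module Filter Topology
open Pool.Agent.Y112.SR Pool.Agent.Y112.KD Pool.Agent.N64.AF
open Pool.Agent.Y116.MT (tr)

namespace Pool.Agent.H23NC

universe v u w t x

variable {C : Type u} [Category.{v} C] [Preadditive C] [MonoidalCategory C]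
  [MonoidalPreadditive C] [SymmetricCategory C] [RightRigidCategory C]
  {Λ : Type t} [Field Λ] [CharZero Λ] [Linear Λ C] [MonoidalLinear Λ C]
  {K : Type w} [Field K] [IsAlgClosed K] [Algebra Λ K] {R : SuperRealisation C K}

/-- The unit object is a direct summand of `T`. -/
def HasUnit (T : C) : Prop := ∃ (i : 𝟙_ C ⟶ T) (r : T ⟶ 𝟙_ C), i ≫ r = 𝟙 (𝟙_ C)

lemma nsmul_full (T : C) (n : ℕ) : n • ({Pr.full T} : Multiset (Pr C)) =
    ((List.replicate n (Pr.full T) : List (Pr C)) : Multiset (Pr C)) := by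
  rw [Multiset.nsmul_singleton, Multiset.coe_replicate]

lemma qm_cons (hR : IsReal Λ R) (P : Pr C) (L : List (Pr C)) :
    qm hR ({P} + (L : Multiset (Pr C))) = q Λ (P :: L) := rfl

lemma qm_single_add (hR : IsReal Λ R) (P : Pr C) (z : Multiset (Pr C)) :
    ∃ L : List (Pr C), (L : Multiset (Pr C)) = z ∧ qm hR ({P} + z) = q Λ (P :: L) ∧
      qm hR z = q Λ L := by
  obtain ⟨L, rfl⟩ := Quot.exists_rep z
  exact ⟨L, rfl, rfl, rfl⟩

/-- The system given by `T`. -/
theorem exists_sys (hR : IsReal Λ R) {T : C} [ExactPairing T T] (hT : HasUnit T) :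
    ∃ (t t' : Multiset (Pr C)) (ρ : ℝ), (ax hR).Sys ({Pr.full T}) t t' ρ := by
  obtain ⟨i, r, hir⟩ := hT
  have hs : DM ({Pr.full T} : Multiset (Pr C)) {Pr.full T} :=
    ⟨[Pr.full T], [Pr.full T], rfl, rfl, List.Forall₂.cons (isDual_self T) List.Forall₂.nil⟩
  have hkk : ∀ k : ℕ, k • (({Pr.full T} : Multiset (Pr C)) + {Pr.full T}) =
      ((List.replicate (2 * k) (Pr.full T) : List (Pr C)) : Multiset (Pr C)) := by
    intro k
    rw [← nsmul_full, nsmul_add, two_mul, add_nsmul]
  have hval : ∀ n : ℕ, qm hR ((List.replicate n (Pr.full T) : List (Pr C)) :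
      Multiset (Pr C)) = numRank Λ (tp T n) := by
    intro n
    rw [qm_coe, q_replicate hR]
  obtain ⟨ρ, hρ⟩ := (ax hR).exists_rate hs (B := (bt R T : ℝ) ^ 2) (by
    have h1 := hkk 1
    rw [one_nsmul] at h1
    rw [h1, hval]
    have h2 : 0 < numRank Λ (tp T (2 * 1)) := by
      obtain ⟨i', r', h'⟩ := E1aux.retract_unit hir (2 * 1)
      have hfin := finite_num hR (Λ := Λ) (𝟙_ C) (tp T (2 * 1))
      unfold numRank
      rw [Module.finrank_pos_iff_exists_ne_zero]
      refine ⟨Submodule.Quotient.mk i', fun h0 => ?_⟩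
      rw [Submodule.Quotient.mk_eq_zero, mem_numIdeal, numTriv_unit_iff hR] at h0
      have h1 := h0 r'
      rw [h'] at h1
      exact E1aux.id_ne_zero R h1
    exact_mod_cast h2) (by positivity) (by
    intro k
    rw [hkk, hval, ← pow_mul]
    have h1 := numRank_le_bt (Λ := Λ) hR (tp T (2 * k))
    rw [bt_tp] at h1
    exact_mod_cast h1)
  refine ⟨{(Pr.unit i r hir).compl}, {((Pr.unit i r hir).dual hR).compl}, ρ, hs,
    ⟨[(Pr.unit i r hir).compl], [((Pr.unit i r hir).dual hR).compl], rfl, rfl,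
      List.Forall₂.cons (isDual_dual hR _).compl List.Forall₂.nil⟩, ?_, ?_, hρ⟩
  · intro z
    obtain ⟨L, rfl⟩ := Quot.exists_rep z
    have h1 := q_add hR (isDual_dual hR (Pr.unit i r hir)) L
    rw [q_unit hR hir] at h1
    change (q Λ (Pr.full T :: L) : ℝ) = q Λ L + q Λ ((Pr.unit i r hir).compl :: L)
    exact_mod_cast h1
  · intro z
    obtain ⟨L, rfl⟩ := Quot.exists_rep z
    have h1 := q_add hR (isDual_dual hR (Pr.unit i r hir)).symm L
    rw [q_unit_dual hR hir] at h1
    have h2 : q Λ (Pr.full Tᘁ :: L) = q Λ (Pr.full T :: L) := by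
      refine q_full_dual hR (M := [Pr.full T]) (ρ_ T).symm ?_
        (List.Forall₂.cons (isDual_self T) List.Forall₂.nil) L
      exact le_replicate T 1
    change (q Λ (Pr.full T :: L) : ℝ) = q Λ L + q Λ (((Pr.unit i r hir).dual hR).compl :: L)
    rw [← h2]
    exact_mod_cast h1

/-- The multiplicity of a direct summand. -/
lemma nr_eq_qm (hR : IsReal Λ R) (T : C) {Y : C} {e : Y ⟶ Y} (he : NumIdem e) (n : ℕ) :
    (nr Λ e (𝟙 (tp T n)) : ℝ) =
      qm hR (({(⟨Y, e, he⟩ : Pr C).dual hR} : Multiset (Pr C)) + n • {Pr.full T}) := by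
  rw [nsmul_full, qm_cons]
  have h1 : List.Forall₂ IsDual [(⟨Y, e, he⟩ : Pr C).dual hR] [(⟨Y, e, he⟩ : Pr C)] :=
    List.Forall₂.cons (isDual_dual hR _).symm List.Forall₂.nil
  have h2 := nr_eq_q (Λ := Λ) hR h1 (List.replicate n (Pr.full T))
  obtain ⟨j⟩ := nonempty_iso_replicate T n
  have h3 : nr Λ (le [(⟨Y, e, he⟩ : Pr C)]) (le (List.replicate n (Pr.full T))) =
      nr Λ e (𝟙 (tp T n)) := by
    rw [le_replicate]
    have h4 : nr Λ (e ⊗ₘ 𝟙 (𝟙_ C)) (𝟙 (lo (List.replicate n (Pr.full T)))) =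
        nr Λ e (𝟙 (lo (List.replicate n (Pr.full T)))) := by
      refine nr_congr_left hR (ρ_ Y) ?_ _
      rw [tensorHom_id, rightUnitor_naturality]
    refine Eq.trans h4 ?_
    exact (nr_congr_right hR j e (by rw [Category.id_comp, Category.comp_id])).symm
  rw [← h3, h2]
  rfl

/-- **The dimension of a direct summand of a tensor power**, without the sign conjecture. -/
theorem exists_dims (hR : IsReal Λ R) {T : C} [ExactPairing T T] (hT : HasUnit T) :
    ∃ c : ℕ → ℝ, (∀ n, 0 < c n) ∧ (∀ n, (numRank Λ (tp T n) : ℝ) ≤ c n) ∧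
      Tendsto (fun n => (numRank Λ (tp T n) : ℝ) / c n) atTop (𝓝 1) ∧
      (∃ ρ : ℝ, 0 < ρ ∧ Tendsto (fun n => c (n + 1) / c n) atTop (𝓝 ρ)) ∧
      ∀ (m : ℕ) (e : tp T m ⟶ tp T m), NumIdem e → ∃ d : ℝ,
        (nr Λ e (𝟙 (tp T m)) = 0 → d = 0) ∧ (0 < nr Λ e (𝟙 (tp T m)) → 1 ≤ d) ∧
        (∀ n, (nr Λ e (𝟙 (tp T n)) : ℝ) ≤ d * c n) ∧
        Tendsto (fun n => (nr Λ e (𝟙 (tp T n)) : ℝ) / c n) atTop (𝓝 d) ∧
        ∀ (he : NumIdem e) (B : ℝ), 0 ≤ B → (∀ k : ℕ,
          (nr Λ (le (List.replicate k (⟨tp T m, e, he⟩ : Pr C)))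
            (le (List.replicate k (⟨tp T m, e, he⟩ : Pr C))) : ℝ) ≤ B ^ k) → d ^ 2 ≤ B := by
  obtain ⟨t, t', ρ, H⟩ := exists_sys hR hT
  have hval : ∀ n : ℕ, qm hR (n • ({Pr.full T} : Multiset (Pr C))) = numRank Λ (tp T n) := by
    intro n
    rw [nsmul_full, qm_coe, q_replicate hR]
  refine ⟨Ax.cmp (qm hR) {Pr.full T}, (ax hR).cmp_pos H, ?_, ?_,
    ⟨Real.sqrt ρ, Real.sqrt_pos.2 H.rate.1, (ax hR).tendsto_cmp H⟩, ?_⟩
  · intro n
    rw [← hval]
    exact (ax hR).le_cmp H n
  · simp_rw [← hval]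
    exact (ax hR).tendsto_one H
  · intro m e he
    let P : Pr C := ⟨tp T m, e, he⟩
    have hP := isDual_dual hR P
    have h1 : DM ({P.dual hR} : Multiset (Pr C)) {P} :=
      ⟨[P.dual hR], [P], rfl, rfl, List.Forall₂.cons hP.symm List.Forall₂.nil⟩
    have h2 : DM ({(P.dual hR).compl} : Multiset (Pr C)) {P.compl} :=
      ⟨[(P.dual hR).compl], [P.compl], rfl, rfl, List.Forall₂.cons hP.compl.symm
        List.Forall₂.nil⟩
    obtain ⟨j⟩ := nonempty_iso_replicate T m
    obtain ⟨d, hd0, hd1, hd2, hd3, hd4⟩ := (ax hR).exists_dim H m h1 h2 (by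
      intro z
      obtain ⟨L, rfl⟩ := Quot.exists_rep z
      rw [nsmul_full]
      have h3 := q_add hR hP.symm L
      have h4 : q Λ (Pr.full (tp T m)ᘁ :: L) = q Λ (List.replicate m (Pr.full T) ++ L) :=
        q_full_dual hR j (le_replicate T m) (forall₂_replicate (isDual_self T) m) L
      change (q Λ (List.replicate m (Pr.full T) ++ L) : ℝ) = q Λ (P.dual hR :: L) +
        q Λ ((P.dual hR).compl :: L)
      rw [← h4]
      exact_mod_cast h3) (by
      intro z
      obtain ⟨L, rfl⟩ := Quot.exists_rep z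
      rw [nsmul_full]
      have h3 := q_add hR hP L
      have h4 : q Λ (Pr.full (tp T m) :: L) = q Λ (List.replicate m (Pr.full T) ++ L) := by
        refine q_replace hR (P := Pr.full (tp T m)) j ?_ L
        rw [le_replicate]
        change 𝟙 (tp T m) ≫ j.hom = j.hom ≫ 𝟙 _
        rw [Category.id_comp, Category.comp_id]
      change (q Λ (List.replicate m (Pr.full T) ++ L) : ℝ) = q Λ (P :: L) +
        q Λ (P.compl :: L)
      rw [← h4]
      exact_mod_cast h3)
    have hmul : ∀ n : ℕ, (nr Λ e (𝟙 (tp T n)) : ℝ) =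
        qm hR (({P.dual hR} : Multiset (Pr C)) + n • {Pr.full T}) := fun n =>
      nr_eq_qm hR T he n
    -- the case of the zero object
    have hee : qm hR (({P.dual hR} : Multiset (Pr C)) + {P}) = nr Λ e e := by
      have h5 : List.Forall₂ IsDual [P.dual hR] [P] :=
        List.Forall₂.cons hP.symm List.Forall₂.nil
      have h6 := nr_eq_q (Λ := Λ) hR h5 [P]
      have h7 : nr Λ (e ⊗ₘ 𝟙 (𝟙_ C)) (e ⊗ₘ 𝟙 (𝟙_ C)) = nr Λ e e := by
        rw [nr_congr_left hR (ρ_ (tp T m)) (e' := e) (by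
          rw [tensorHom_id, rightUnitor_naturality])]
        exact nr_congr_right hR (ρ_ (tp T m)) e (by rw [tensorHom_id, rightUnitor_naturality])
      have h8 : q Λ ([P.dual hR] ++ [P]) = nr Λ e e := h6.symm.trans h7
      rw [← h8]
      rfl
    have hsch := nr_sq_le' (Λ := Λ) hR he (numIdem_id (tp T m))
    have hler := nr_le_right (Λ := Λ) hR e e
    refine ⟨d, ?_, ?_, ?_, ?_, ?_⟩
    · intro h0
      refine hd0 ?_
      rw [hee]
      have : nr Λ e e = 0 := by omega
      rw [this, Nat.cast_zero]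
    · intro h0
      refine hd1 ?_
      rw [hee]
      intro h9
      have h10 : nr Λ e e = 0 := by exact_mod_cast h9
      rw [h10, zero_mul] at hsch
      have : 0 < nr Λ e (𝟙 (tp T m)) ^ 2 := by positivity
      omega
    · intro n
      rw [hmul]
      exact hd2 n
    · simp_rw [hmul]
      exact hd3
    · intro _ B hB hBk
      refine hd4 B hB fun k => ?_
      have h5 : List.Forall₂ IsDual (List.replicate k (P.dual hR)) (List.replicate k P) := by
        induction k with
        | zero => exact List.Forall₂.nil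
        | succ k ih => exact List.Forall₂.cons hP.symm ih
      have h6 := nr_eq_q (Λ := Λ) hR h5 (List.replicate k P)
      have h7 := hBk k
      change (nr Λ (le (List.replicate k P)) (le (List.replicate k P)) : ℝ) ≤ B ^ k at h7
      rw [h6] at h7
      have h8 : k • (({P.dual hR} : Multiset (Pr C)) + {P}) =
          ((List.replicate k (P.dual hR) ++ List.replicate k P : List (Pr C)) :
            Multiset (Pr C)) := by
        rw [nsmul_add, Multiset.nsmul_singleton, Multiset.nsmul_singleton, ← Multiset.coe_add,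
          Multiset.coe_replicate, Multiset.coe_replicate]
      rw [h8, qm_coe]
      exact h7

end Pool.Agent.H23NC
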