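import Pool.Agent.H23NC.Cat4
import Pool.Agent.N64.AF.S

/-!
# Constituents of additive functors, without the sign conjecture
-/

set_option autoImplicit false
set_option linter.unusedSectionVars false
set_option linter.style.haveILetI false

open CategoryTheory Limits MonoidalCategory Module Filter Topology
open Pool.Agent.Y112.SR Pool.Agent.Y112.KD Pool.Agent.N64.AF
open Pool.Agent.Y116.MT (tr)
open scoped ENNReal

namespace Pool.Agent.H23NC

universe v u w t x

variable {C : Type u} [Category.{v} C] [Preadditive C] [MonoidalCategory C]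
  [MonoidalPreadditive C] [SymmetricCategory C] [RightRigidCategory C]
  {Λ : Type t} [Field Λ] [CharZero Λ] [Linear Λ C] [MonoidalLinear Λ C]
  {K : Type w} [Field K] [IsAlgClosed K] [Algebra Λ K] {R : SuperRealisation C K}

open N441G in
/-- The first constituent. -/
theorem exists_simple' (hR : IsReal Λ R) {U : C} (F : C ⥤ ModuleCat.{x} Λ)
    [F.Additive] [F.Linear Λ] [Module.Finite Λ (F.obj U)]
    (hnil : ∀ y : U ⟶ U, NumTriv y → IsNilpotent ((F.map y).hom : Module.End Λ (F.obj U)))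
    (hne : ¬ Subsingleton (F.obj U)) :
    ∃ (g : U ⟶ U) (z : F.obj U), NumIdem g ∧ 0 < nr Λ g (𝟙 U) ∧
      ∀ (Z : C) (c : U ⟶ Z), (F.map (g ≫ c)).hom z = 0 → NumTriv (g ≫ c) := by
  letI := act F U
  haveI := act_tower F U
  haveI := idl_two hR U
  haveI := idl_fin hR U
  haveI : IsSemisimpleRing (End U ⧸ idl hR U) := semisimple' hR (idl hR U) (mem_idl hR U)
  have hnil' : ∀ y ∈ idl hR U, ∃ n : ℕ, ∀ v : F.obj U, y ^ n • v = 0 := by
    intro y hy
    obtain ⟨n, hn⟩ := hnil y hy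
    refine ⟨n, fun v => ?_⟩
    rw [act_pow, hn]
    rfl
  have hbot : (⊥ : Submodule (End U) (F.obj U)) ≠ ⊤ := by
    intro h
    exact hne (Submodule.subsingleton_iff (End U) |>.1 (subsingleton_of_bot_eq_top h))
  obtain ⟨N', g, z, hlt, hN', hg, hgz, hgx, hfr⟩ := mod_step (Λ := Λ) (A := End U)
    (V := F.obj U) (idl hR U) hnil' ⊥ hbot
  rw [nr_eq hR U g] at hfr
  have hlt' : finrank Λ ((⊥ : Submodule (End U) (F.obj U)).restrictScalars Λ) <
      finrank Λ (N'.restrictScalars Λ) := by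
    apply Submodule.finrank_lt_finrank_of_lt
    exact hlt
  have hgI : NumIdem (Y := U) g := hg
  refine ⟨g, z, hgI, by omega, fun Z c hc => ?_⟩
  refine triv_of hR hgI c fun d => ?_
  obtain ⟨w, hw⟩ : ∃ w : End U, w = (c ≫ d : U ⟶ U) := ⟨_, rfl⟩
  have h10 : (g * w * g) • z = g • ((F.map (((g : U ⟶ U) ≫ c) ≫ d)).hom z) := by
    rw [mul_smul, mul_smul]
    congr 1
    rw [hw]
    change (F.map (c ≫ d)).hom ((F.map (g : U ⟶ U)).hom z) = _
    rw [← comp_ap, Category.assoc]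
  have h8 : (g * w * g) • z ∈ (⊥ : Submodule (End U) (F.obj U)) := by
    rw [h10, comp_ap, hc, map_zero, smul_zero]
    exact Submodule.zero_mem _
  have h12 : NumTriv (Y := U) (Z := U) (g * w * g) := hgx _ h8
  have h13 : (g * w * g : End U) = ((g : U ⟶ U) ≫ (c ≫ d)) ≫ g := by
    rw [End.mul_def, End.mul_def, hw]
    simp only [Category.assoc]
  rw [h13] at h12
  exact h12

/-- The unit object being a retract of `T`, each tensor power is a retract of the next one. -/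
lemma exists_retract_tp' {T : C} (h : HasUnit T) (n : ℕ) :
    ∃ (i : tp T n ⟶ tp T (n + 1)) (r : tp T (n + 1) ⟶ tp T n), i ≫ r = 𝟙 (tp T n) := by
  obtain ⟨i, r, hir⟩ := h
  refine ⟨(ρ_ (tp T n)).inv ≫ (tp T n ◁ i), (tp T n ◁ r) ≫ (ρ_ (tp T n)).hom, ?_⟩
  rw [Category.assoc, ← Category.assoc (tp T n ◁ i), ← MonoidalCategory.whiskerLeft_comp, hir,
    MonoidalCategory.whiskerLeft_id, Category.id_comp, Iso.inv_hom_id]

lemma map_retract {Y Z : C} (F : C ⥤ ModuleCat.{x} Λ) {i : Y ⟶ Z} {r : Z ⟶ Y}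
    (hir : i ≫ r = 𝟙 Y) (a : F.obj Y) : (F.map r).hom ((F.map i).hom a) = a := by
  have h2 : F.map i ≫ F.map r = 𝟙 _ := by rw [← F.map_comp, hir, F.map_id]
  exact congrArg (fun g : F.obj Y ⟶ F.obj Y => g.hom a) h2

lemma not_finite_succ' {T : C} (h : HasUnit T) (F : C ⥤ ModuleCat.{x} Λ) {n : ℕ}
    (hn : ¬ Module.Finite Λ (F.obj (tp T n))) : ¬ Module.Finite Λ (F.obj (tp T (n + 1))) := by
  intro h1
  obtain ⟨i, r, hir⟩ := exists_retract_tp' h n
  exact hn (Module.Finite.of_surjective (F.map r).hom fun a =>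
    ⟨(F.map i).hom a, map_retract F hir a⟩)

lemma finrank_mono {T : C} (h : HasUnit T) (F : C ⥤ ModuleCat.{x} Λ)
    (hfin : ∀ n, Module.Finite Λ (F.obj (tp T n))) :
    Monotone fun n => finrank Λ (F.obj (tp T n)) := by
  refine monotone_nat_of_le_succ fun n => ?_
  obtain ⟨i, r, hir⟩ := exists_retract_tp' h n
  have := hfin (n + 1)
  refine LinearMap.finrank_le_finrank_of_injective (f := (F.map i).hom) ?_
  intro a b hab
  rw [← map_retract F hir a, ← map_retract F hir b]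
  exact congrArg _ hab

/-- The properties of the comparison sequence. -/
structure Dims (Λ : Type t) [Field Λ] [Linear Λ C] [MonoidalLinear Λ C] (T : C) (c : ℕ → ℝ) :
    Prop where
  pos : ∀ n, 0 < c n
  le : ∀ n, (numRank Λ (tp T n) : ℝ) ≤ c n
  one : Tendsto (fun n => (numRank Λ (tp T n) : ℝ) / c n) atTop (𝓝 1)
  rate : ∃ ρ : ℝ, 0 < ρ ∧ Tendsto (fun n => c (n + 1) / c n) atTop (𝓝 ρ)
  dim : ∀ (m : ℕ) (e : tp T m ⟶ tp T m), NumIdem e → ∃ d : ℝ,
    (nr Λ e (𝟙 (tp T m)) = 0 → d = 0) ∧ (0 < nr Λ e (𝟙 (tp T m)) → 1 ≤ d) ∧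
    (∀ n, (nr Λ e (𝟙 (tp T n)) : ℝ) ≤ d * c n) ∧
    Tendsto (fun n => (nr Λ e (𝟙 (tp T n)) : ℝ) / c n) atTop (𝓝 d) ∧
    ∀ (he : NumIdem e) (B : ℝ), 0 ≤ B → (∀ k : ℕ,
      (nr Λ (Pool.Agent.H23NC.le (List.replicate k (⟨tp T m, e, he⟩ : Pr C)))
        (Pool.Agent.H23NC.le (List.replicate k (⟨tp T m, e, he⟩ : Pr C))) : ℝ) ≤ B ^ k) →
        d ^ 2 ≤ B

theorem exists_comparison (hR : IsReal Λ R) {T : C} [ExactPairing T T] (hT : HasUnit T) :
    ∃ c : ℕ → ℝ, Dims Λ T c := by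
  obtain ⟨c, h1, h2, h3, h4, h5⟩ := exists_dims hR hT
  exact ⟨c, h1, h2, h3, h4, h5⟩

/-- The numerical rank is positive. -/
lemma numRank_pos' (hR : IsReal Λ R) {T : C} (hT : HasUnit T) (n : ℕ) :
    0 < numRank Λ (tp T n) := by
  obtain ⟨i, r, hir⟩ := hT
  obtain ⟨i', r', h'⟩ := E1aux.retract_unit hir n
  have hfin := finite_num hR (Λ := Λ) (𝟙_ C) (tp T n)
  unfold numRank
  rw [Module.finrank_pos_iff_exists_ne_zero]
  refine ⟨Submodule.Quotient.mk i', fun h0 => ?_⟩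
  rw [Submodule.Quotient.mk_eq_zero, mem_numIdeal, numTriv_unit_iff hR] at h0
  have h1 := h0 r'
  rw [h'] at h1
  exact E1aux.id_ne_zero R h1

/-- The growth of the comparison sequence. -/
lemma Dims.growth {T : C} {c : ℕ → ℝ} (h : Dims Λ T c) :
    ∃ (B : ℝ) (n₀ : ℕ), 1 ≤ B ∧ ∀ n k, n₀ ≤ n → c (n + k) ≤ B ^ k * c n := by
  obtain ⟨ρ, hρ, hlim⟩ := h.rate
  obtain ⟨n₀, hn₀⟩ := eventually_atTop.1 (hlim.eventually (gt_mem_nhds (lt_add_one ρ)))
  refine ⟨ρ + 1, n₀, by linarith, fun n k hn => ?_⟩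
  induction k with
  | zero => simp
  | succ k ih =>
    have h1 := hn₀ (n + k) (by omega)
    rw [div_lt_iff₀ (h.pos _)] at h1
    rw [← add_assoc, pow_succ]
    nlinarith

/-- The case of a non-nilpotent numerically trivial operator. -/
theorem infinite_case' (hR : IsReal Λ R) {T : C} (hT : HasUnit T) {c : ℕ → ℝ}
    (hc : Dims Λ T c) (F : C ⥤ ModuleCat.{x} Λ)
    [F.Additive] [F.Linear Λ] (hfin : ∀ n, Module.Finite Λ (F.obj (tp T n))) {m : ℕ}
    {y : tp T m ⟶ tp T m} (hy : NumTriv y)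
    (hn : ¬ IsNilpotent ((F.map y).hom : Module.End Λ (F.obj (tp T m)))) :
    Tendsto (fun n => (finrank Λ (F.obj (tp T n)) : ℝ) / c n) atTop atTop := by
  have hm : m ≠ 0 := by
    rintro rfl
    apply hn
    have h0 : y ≫ 𝟙 (𝟙_ C) = 0 := (numTriv_unit_iff hR (S := 𝟙_ C) y).1 hy (𝟙 (𝟙_ C))
    have h1 : y = 0 := by
      have := h0
      rwa [Category.comp_id] at this
    have h2 : F.map y = 0 := by rw [h1, F.map_zero]
    rw [h2]
    exact IsNilpotent.zero
  have := hfin m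
  obtain ⟨z, e, hz, he, he'⟩ := exists_phantom hR F hy hn
  -- the lower bound along multiples of `m`
  have low : ∀ a : ℕ, (a + 1) * numRank Λ (tp T (m * a)) ≤
      finrank Λ (F.obj (tp T (m * a + m))) := by
    intro a
    have hiso : ∀ a, Nonempty (tp T (m * a) ⊗ tp T m ≅ tp T (m * a + m)) := fun a => by
      obtain ⟨i, _⟩ := exists_tp_iso T (m * a) m
      exact ⟨i⟩
    obtain ⟨i⟩ := Pool.Agent.N712.AF.tpIso T m hiso a
    obtain ⟨j⟩ := Pool.Agent.N712.AF.tpIso T m hiso (a + 1)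
    have j' : tp (tp T m) (a + 1) ≅ tp T (m * a + m) := j
    have e1 : numRank Λ (tp T (m * a)) = numRank Λ (tp (tp T m) a) := by
      rw [numRank_eq, numRank_eq]
      exact (nr_congr_right hR i (𝟙 (𝟙_ C)) (by rw [Category.id_comp, Category.comp_id])).symm
    have eq := (F.mapIso j').toLinearEquiv
    have e2 : finrank Λ (F.obj (tp T (m * a + m))) = finrank Λ (F.obj (tp (tp T m) (a + 1))) :=
      eq.finrank_eq.symm
    have := hfin (m * a + m)
    have : Module.Finite Λ (F.obj (tp (tp T m) (a + 1))) := Module.Finite.equiv eq.symm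
    rw [e1, e2]
    exact phantom hR F hz he he' a
  have mono' := finrank_mono hT F hfin
  obtain ⟨B, n₀, hB, gr⟩ := hc.growth
  -- the comparison sequence is at most twice the rank
  obtain ⟨n₁, hn₁⟩ := eventually_atTop.1 (hc.one.eventually
    (lt_mem_nhds (by norm_num : (1 : ℝ) / 2 < 1)))
  have key : ∀ᶠ n : ℕ in atTop, ((n / m : ℕ) : ℝ) / (2 * B ^ (2 * m)) ≤
      (finrank Λ (F.obj (tp T n)) : ℝ) / c n := by
    filter_upwards [eventually_ge_atTop (m * (n₀ + n₁ + 2))] with n hn'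
    have hBp : (0 : ℝ) < B ^ (2 * m) := by positivity
    rw [div_le_div_iff₀ (by positivity) (hc.pos n)]
    have h0 : n₀ + n₁ + 2 ≤ n / m := (Nat.le_div_iff_mul_le (Nat.pos_of_ne_zero hm)).2 (by
      rw [mul_comm]; exact hn')
    obtain ⟨a, ha⟩ := Nat.exists_eq_succ_of_ne_zero (show n / m ≠ 0 by omega)
    have hdm := Nat.div_add_mod n m
    have hlt := Nat.mod_lt n (Nat.pos_of_ne_zero hm)
    rw [ha, Nat.mul_succ] at hdm
    have ha2 : n₀ + n₁ ≤ a := by omega
    have hma : n₀ + n₁ ≤ m * a := ha2.trans (Nat.le_mul_of_pos_left a (Nat.pos_of_ne_zero hm))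
    have h1 : finrank Λ (F.obj (tp T (m * a + m))) ≤ finrank Λ (F.obj (tp T n)) :=
      mono' (by omega)
    have h2 := low a
    obtain ⟨k, hk⟩ : ∃ k, n = m * a + k := ⟨m + n % m, by omega⟩
    have hk2 : k ≤ 2 * m := by omega
    have h3 : c n ≤ B ^ (2 * m) * c (m * a) := by
      rw [hk]
      refine (gr (m * a) k (by omega)).trans (mul_le_mul_of_nonneg_right ?_ (hc.pos _).le)
      exact pow_le_pow_right₀ hB hk2
    have h5 := hn₁ (m * a) (by omega)
    rw [lt_div_iff₀ (hc.pos _)] at h5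
    have h6 : ((a : ℝ) + 1) * numRank Λ (tp T (m * a)) ≤ finrank Λ (F.obj (tp T n)) := by
      exact_mod_cast h2.trans h1
    have h7 : ((n / m : ℕ) : ℝ) = a + 1 := by rw [ha]; push_cast; rfl
    rw [h7]
    have h8 : (0 : ℝ) ≤ a + 1 := by positivity
    calc ((a : ℝ) + 1) * c n ≤ (a + 1) * (B ^ (2 * m) * c (m * a)) :=
          mul_le_mul_of_nonneg_left h3 h8
      _ ≤ (a + 1) * (B ^ (2 * m) * (2 * numRank Λ (tp T (m * a)))) := by
          apply mul_le_mul_of_nonneg_left _ h8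
          apply mul_le_mul_of_nonneg_left _ hBp.le
          linarith
      _ = ((a + 1) * numRank Λ (tp T (m * a))) * (2 * B ^ (2 * m)) := by ring
      _ ≤ _ := mul_le_mul_of_nonneg_right h6 (by positivity)
  refine tendsto_atTop_mono' atTop key ?_
  have hBp : (0 : ℝ) < 2 * B ^ (2 * m) := by positivity
  exact (tendsto_natCast_atTop_atTop.comp (Nat.tendsto_div_const_atTop hm)).atTop_div_const hBp

end Pool.Agent.H23NC
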