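import Pool.Agent.H23NC.Main

/-!
# The law for the endomorphisms of the tensor powers of an arbitrary object
-/

set_option autoImplicit false
set_option linter.unusedSectionVars false
set_option linter.style.haveILetI false

open CategoryTheory Limits MonoidalCategory Module Filter Topology
open Pool.Agent.Y112.SR Pool.Agent.Y112.KD Pool.Agent.N64.AF
open Pool.Agent.Y116.MT (tr)
open scoped ENNReal

namespace Pool.Agent.H23NC

universe v u w t x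

variable {C : Type u} [Category.{v} C] [Preadditive C] [MonoidalCategory C]
  [MonoidalPreadditive C] [SymmetricCategory C] [RightRigidCategory C]
  {Λ : Type t} [Field Λ] [CharZero Λ] [Linear Λ C] [MonoidalLinear Λ C]
  {K : Type w} [Field K] [IsAlgClosed K] [Algebra Λ K] {R : SuperRealisation C K}

open Pool.Agent.N413.AFW

/-- The endomorphism of the power of `T ⊗ Tᘁ` given by an endomorphism of the power of `T`. -/
noncomputable def lft (T : C) (n : ℕ) (f : tp T n ⟶ tp T n) :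
    tp (T ⊗ Tᘁ) n ⟶ tp (T ⊗ Tᘁ) n :=
  (isoTp T Tᘁ n).hom ≫ f ▷ (dp Tᘁ n) ≫ (isoTp T Tᘁ n).inv

lemma lft_comp (T : C) (n : ℕ) (f g : tp T n ⟶ tp T n) :
    lft T n (f ≫ g) = lft T n f ≫ lft T n g := by
  unfold lft
  simp only [Category.assoc, Iso.inv_hom_id_assoc, comp_whiskerRight]

lemma lft_triv (hR : IsReal Λ R) (T : C) (n : ℕ) {f : tp T n ⟶ tp T n} (hf : NumTriv f) :
    NumTriv (lft T n f) :=
  (hf.whiskerRight hR (dp Tᘁ n)).comp hR _ _

lemma lft_inj (T : C) (n : ℕ) {f : tp T n ⟶ tp T n} (h : lft T n f = 0) : f = 0 := by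
  let _ := pairTp T Tᘁ n
  have h1 : f ▷ (dp Tᘁ n) = 0 := by
    have h2 : f ▷ (dp Tᘁ n) = (isoTp T Tᘁ n).inv ≫ lft T n f ≫ (isoTp T Tᘁ n).hom := by
      unfold lft
      simp only [Category.assoc, Iso.inv_hom_id_assoc, Iso.inv_hom_id, Category.comp_id]
    rw [h2, h, zero_comp, comp_zero]
  have h3 : (λ_ (tp T n)).hom ≫ f = 0 := by
    apply (tensorRightHomEquiv (𝟙_ C) (tp T n) (dp Tᘁ n) (tp T n)).injective
    have h4 : ∀ g : 𝟙_ C ⊗ tp T n ⟶ tp T n,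
        tensorRightHomEquiv (𝟙_ C) (tp T n) (dp Tᘁ n) (tp T n) g =
          (ρ_ _).inv ≫ (_ ◁ η_ _ _) ≫ (α_ _ _ _).inv ≫ g ▷ _ := fun g => rfl
    rw [h4, h4, comp_whiskerRight, h1, comp_zero, comp_zero, comp_zero, comp_zero]
    rw [MonoidalPreadditive.zero_whiskerRight, comp_zero, comp_zero, comp_zero]
  have h5 := congrArg (fun g => (λ_ (tp T n)).inv ≫ g) h3
  simpa using h5

lemma nr_id_id (Y : C) : nr Λ (𝟙 Y) (𝟙 Y) = finrank Λ ((Y ⟶ Y) ⧸ numIdeal Λ Y Y) := by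
  unfold nr
  have h1 : LinearMap.range ((numIdeal Λ Y Y).mkQ ∘ₗ Linear.rightComp Λ Y (𝟙 Y) ∘ₗ
      Linear.leftComp Λ Y (𝟙 Y)) = ⊤ := by
    rw [eq_top_iff]
    intro q _
    obtain ⟨f, rfl⟩ := Submodule.mkQ_surjective _ q
    refine ⟨f, ?_⟩
    change (numIdeal Λ Y Y).mkQ ((𝟙 Y ≫ f) ≫ 𝟙 Y) = _
    rw [Category.id_comp, Category.comp_id]
  rw [h1, finrank_top]

/-- The object `T ⊗ Tᘁ` is self-dual. -/
@[reducible] noncomputable def selfDual (T : C) : ExactPairing (T ⊗ Tᘁ) (T ⊗ Tᘁ) :=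
  letI : ExactPairing Tᘁ T := BraidedCategory.exactPairing_swap T Tᘁ
  ExactPairing.tensor (X₁ := T) (X₂ := Tᘁ) (Y₁ := Tᘁ) (Y₂ := T)

lemma hasUnit_tensor_dual (hR : IsReal Λ R) {T : C} (hT : ¬ NumTriv (𝟙 T)) :
    HasUnit (T ⊗ Tᘁ) := by
  unfold NumTriv at hT
  push Not at hT
  obtain ⟨w, hw⟩ := hT
  rw [Category.id_comp] at hw
  obtain ⟨q, hq⟩ := hR.unit (tr w)
  have hq0 : q ≠ 0 := by
    rintro rfl
    rw [zero_smul] at hq
    exact hw hq
  refine ⟨η_ T Tᘁ, q⁻¹ • ((w ▷ Tᘁ) ≫ (β_ T Tᘁ).hom ≫ ε_ T Tᘁ), ?_⟩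
  rw [Linear.comp_smul]
  have h4 : η_ T Tᘁ ≫ (w ▷ Tᘁ) ≫ (β_ T Tᘁ).hom ≫ ε_ T Tᘁ = tr w := rfl
  rw [h4, hq, smul_smul, inv_mul_cancel₀ hq0, one_smul]

lemma lft_prod (hR : IsReal Λ R) (T : C) (n : ℕ) (l : List (End (tp T n)))
    (hl : ∀ f ∈ l, NumTriv (Y := tp T n) (Z := tp T n) f) :
    NumPow (T ⊗ Tᘁ) l.length (lft T n (l.prod : tp T n ⟶ tp T n)) := by
  induction l with
  | nil => trivial
  | cons f l ih =>
    have h1 := ih fun g hg => hl g (List.mem_cons_of_mem f hg)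
    have h2 := hl f List.mem_cons_self
    rw [List.length_cons, List.prod_cons]
    refine ⟨n, lft T n (l.prod : tp T n ⟶ tp T n), lft T n (f : tp T n ⟶ tp T n), h1,
      lft_triv hR T n h2, ?_⟩
    rw [← lft_comp]
    rfl

/-- **The law for the endomorphisms of the powers of an arbitrary object.** -/
theorem end_law (hR : IsReal Λ R) {T : C} (hT : ¬ NumTriv (𝟙 T)) :
    ∃ N : ℝ≥0∞,
      Tendsto (fun n => ((dimE Λ (tp T n ⟶ tp T n) : ℕ∞) : ℝ≥0∞) /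
        finrank Λ ((tp T n ⟶ tp T n) ⧸ numIdeal Λ (tp T n) (tp T n))) atTop (𝓝 N) ∧
      (N = 1 ∨ 2 ≤ N) ∧
      (N = 1 ↔ ∀ (n : ℕ) (f : tp T n ⟶ tp T n), NumTriv f → f = 0) ∧
      (∀ (n : ℕ) (l : List (End (tp T n))),
        (∀ f ∈ l, NumTriv (Y := tp T n) (Z := tp T n) f) → l.prod ≠ 0 →
          (l.length : ℝ≥0∞) + 1 ≤ N) ∧
      (N ≠ ⊤ → ∀ n : ℕ, Module.Finite Λ (tp T n ⟶ tp T n)) := by
  let _ := selfDual T
  have hS := hasUnit_tensor_dual hR hT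
  obtain ⟨N, h1, h2, h3, h4, h5⟩ := hom_law hR hS
  have e1 : ∀ n, (finrank Λ ((tp T n ⟶ tp T n) ⧸ numIdeal Λ (tp T n) (tp T n))) =
      numRank Λ (tp (T ⊗ Tᘁ) n) := fun n => by
    rw [numRank_tensor_dual hR T n, nr_id_id]
  have e2 : ∀ n, Nonempty ((𝟙_ C ⟶ tp (T ⊗ Tᘁ) n) ≃ₗ[Λ] (tp T n ⟶ tp T n)) :=
    nonempty_equiv_tensor_dual T
  have e3 : ∀ n, dimE Λ (tp T n ⟶ tp T n) = dimE Λ (𝟙_ C ⟶ tp (T ⊗ Tᘁ) n) := fun n => by
    obtain ⟨i⟩ := e2 n
    unfold dimE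
    rw [i.rank_eq]
  have hlim : Tendsto (fun n => ((dimE Λ (tp T n ⟶ tp T n) : ℕ∞) : ℝ≥0∞) /
        finrank Λ ((tp T n ⟶ tp T n) ⧸ numIdeal Λ (tp T n) (tp T n))) atTop (𝓝 N) := by
    refine h1.congr fun n => ?_
    rw [e1, e3]
  refine ⟨N, hlim, h2, ?_, ?_, ?_⟩
  · constructor
    · intro hN n f hf
      exact lft_inj T n (h3.1 hN n n _ (lft_triv hR T n hf))
    · intro hall
      have h6 : ∀ n, ((dimE Λ (tp T n ⟶ tp T n) : ℕ∞) : ℝ≥0∞) /
          finrank Λ ((tp T n ⟶ tp T n) ⧸ numIdeal Λ (tp T n) (tp T n)) = 1 := by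
        intro n
        have h7 : numIdeal Λ (tp T n) (tp T n) = ⊥ := by
          rw [eq_bot_iff]
          intro f hf
          exact (Submodule.mem_bot Λ).2 (hall n f hf)
        have h8 : finrank Λ ((tp T n ⟶ tp T n) ⧸ numIdeal Λ (tp T n) (tp T n)) =
            finrank Λ (tp T n ⟶ tp T n) := by
          rw [h7]
          exact (Submodule.quotEquivOfEqBot ⊥ rfl).finrank_eq
        have hq := finite_num hR (Λ := Λ) (tp T n) (tp T n)
        have h9 : Module.Finite Λ (tp T n ⟶ tp T n) := by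
          have e := Submodule.quotEquivOfEqBot (numIdeal Λ (tp T n) (tp T n)) h7
          exact Module.Finite.equiv e
        have h10 : 0 < finrank Λ (tp T n ⟶ tp T n) := by
          rw [← h8, e1]
          exact numRank_pos' hR hS n
        rw [dimE_eq, h8]
        have h11 : ((finrank Λ (tp T n ⟶ tp T n) : ℕ) : ℝ≥0∞) ≠ 0 := by
          exact_mod_cast h10.ne'
        have h12 : (((finrank Λ (tp T n ⟶ tp T n) : ℕ) : ℕ∞) : ℝ≥0∞) =
            ((finrank Λ (tp T n ⟶ tp T n) : ℕ) : ℝ≥0∞) := by norm_cast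
        rw [h12]
        exact ENNReal.div_self h11 (ENNReal.natCast_ne_top _)
      simp_rw [h6] at hlim
      exact tendsto_nhds_unique hlim tendsto_const_nhds
  · intro n l hl hne
    refine h4 l.length n n _ (lft_prod hR T n l hl) fun h0 => hne ?_
    exact lft_inj T n h0
  · intro hN n
    obtain ⟨i⟩ := e2 n
    have h6 : Module.Finite Λ (𝟙_ C ⟶ tp (T ⊗ Tᘁ) n) := (h5 hN).1 0 n
    exact Module.Finite.equiv i

end Pool.Agent.H23NC
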