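import Pool.Agent.H23NC.Index

/-!
# The index law for the endomorphisms of the powers of an object: full form
-/

set_option autoImplicit false
set_option linter.unusedSectionVars false
set_option linter.style.haveILetI false

open CategoryTheory Limits MonoidalCategory Module Filter Topology
open Pool.Agent.Y112.SR Pool.Agent.Y112.KD Pool.Agent.N64.AF
open Pool.Agent.Y116.MT (tr)
open scoped ENNReal

namespace Pool.Agent.H23NC

universe v u w t x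

variable {C : Type u} [Category.{v} C] [Preadditive C] [MonoidalCategory C]
  [MonoidalPreadditive C] [SymmetricCategory C] [RightRigidCategory C]
  {Λ : Type t} [Field Λ] [CharZero Λ] [Linear Λ C] [MonoidalLinear Λ C]
  {K : Type w} [Field K] [IsAlgClosed K] [Algebra Λ K] {R : SuperRealisation C K}

/-- **The index law for the endomorphisms of the powers of an arbitrary object**, with the structure
in the case of a finite index. -/
theorem index_full (hR : IsReal Λ R) {T : C} (hT : ¬ NumTriv (𝟙 T)) :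
    ∃ N : ℕ∞,
      Tendsto (fun n => ((dimE Λ (tp T n ⟶ tp T n) : ℕ∞) : ℝ≥0∞) /
        finrank Λ ((tp T n ⟶ tp T n) ⧸ numIdeal Λ (tp T n) (tp T n))) atTop (𝓝 (N : ℝ≥0∞)) ∧
      N ≠ 0 ∧
      (N = 1 ↔ ∀ (n : ℕ) (f : tp T n ⟶ tp T n), NumTriv f → f = 0) ∧
      (∀ (n : ℕ) (l : List (End (tp T n))),
        (∀ f ∈ l, NumTriv (Y := tp T n) (Z := tp T n) f) → l.prod ≠ 0 →
          (l.length : ℕ∞) + 1 ≤ N) ∧
      (HasUnit T → ∀ (n : ℕ) (x : 𝟙_ C ⟶ tp T n), NumTriv x → x ≠ 0 →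
        2 ≤ N ∧ (R.H.map x ≠ 0 → N = ⊤)) ∧
      (N ≠ ⊤ →
        (∀ n : ℕ, Module.Finite Λ (tp T n ⟶ tp T n)) ∧
        (∀ (n : ℕ) (f : tp T n ⟶ tp T n), NumTriv f → R.H.map f = 0) ∧
        ∃ (ι : Type) (_ : Fintype ι) (m : ι → ℕ)
          (e : ∀ i, tp (T ⊗ Tᘁ) (m i) ⟶ tp (T ⊗ Tᘁ) (m i)) (r : ι → ℕ),
          (∀ i, NumIdem (e i) ∧ IsRk R (e i) (r i) ∧ 0 < r i) ∧
          N = 1 + (∑ i, r i : ℕ) ∧
          (∀ n, finrank Λ (tp T n ⟶ tp T n) =
            finrank Λ ((tp T n ⟶ tp T n) ⧸ numIdeal Λ (tp T n) (tp T n)) +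
              ∑ i, nr Λ (e i) (𝟙 (tp (T ⊗ Tᘁ) n))) ∧
          ∃ (p l : ℕ) (z : Fin l → (𝟙_ C ⟶ tp (T ⊗ Tᘁ) p)), l ≤ Fintype.card ι ∧
            (∀ i, NumTriv (z i)) ∧ ∀ (n : ℕ) (y : 𝟙_ C ⟶ tp (T ⊗ Tᘁ) n), NumTriv y →
              y ∈ Submodule.span Λ {y' : 𝟙_ C ⟶ tp (T ⊗ Tᘁ) n |
                ∃ (i : Fin l) (c : tp (T ⊗ Tᘁ) p ⟶ tp (T ⊗ Tᘁ) n), z i ≫ c = y'}) := by
  let _ := selfDual T
  have hS := hasUnit_tensor_dual hR hT
  obtain ⟨M, g1, g2, g3, g4, g5⟩ := index_hom hR hS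
  obtain ⟨N, h1, h2, h3, h4, h5⟩ := index_end hR hT
  have e1 : ∀ n, (finrank Λ ((tp T n ⟶ tp T n) ⧸ numIdeal Λ (tp T n) (tp T n))) =
      numRank Λ (tp (T ⊗ Tᘁ) n) := fun n => by
    rw [numRank_tensor_dual hR T n, nr_id_id]
  have e2 : ∀ n, Nonempty ((𝟙_ C ⟶ tp (T ⊗ Tᘁ) n) ≃ₗ[Λ] (tp T n ⟶ tp T n)) :=
    nonempty_equiv_tensor_dual T
  have e3 : ∀ n, dimE Λ (tp T n ⟶ tp T n) = dimE Λ (𝟙_ C ⟶ tp (T ⊗ Tᘁ) n) := fun n => by
    obtain ⟨i⟩ := e2 n
    unfold dimE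
    rw [i.rank_eq]
  have e4 : ∀ n, finrank Λ (tp T n ⟶ tp T n) = finrank Λ (𝟙_ C ⟶ tp (T ⊗ Tᘁ) n) := fun n => by
    obtain ⟨i⟩ := e2 n
    exact i.symm.finrank_eq
  have hlim : Tendsto (fun n => ((dimE Λ (tp T n ⟶ tp T n) : ℕ∞) : ℝ≥0∞) /
        finrank Λ ((tp T n ⟶ tp T n) ⧸ numIdeal Λ (tp T n) (tp T n))) atTop
          (𝓝 (M : ℝ≥0∞)) := by
    refine g1.congr fun n => ?_
    rw [e1, e3]
  have hNM : (N : ℝ≥0∞) = (M : ℝ≥0∞) := tendsto_nhds_unique h1 hlim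
  have hNM' : N = M := by exact_mod_cast hNM
  subst hNM'
  refine ⟨N, h1, h2, h3, h4, ?_, fun hN => ⟨fun n => (h5 hN n).1, fun n => (h5 hN n).2, ?_⟩⟩
  · rintro ⟨i, q, hiq⟩ n x hx hne
    obtain ⟨i', q', h'⟩ := E1aux.retract_unit hiq n
    have k1 : NumTriv (q' ≫ x) := by
      have := hx.comp hR q' (𝟙 _)
      rwa [Category.comp_id] at this
    have k2 : x = i' ≫ q' ≫ x := by rw [← Category.assoc, h', Category.id_comp]
    constructor
    · have k3 : (([(show End (tp T n) from q' ≫ x)] : List (End (tp T n))).prod) ≠ 0 := by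
        rw [List.prod_singleton]
        intro h0
        apply hne
        have k4 : q' ≫ x = 0 := h0
        rw [k2, k4, comp_zero]
      have k5 := h4 n [(show End (tp T n) from q' ≫ x)] (by
        intro f hf
        rw [List.mem_singleton] at hf
        rw [hf]
        exact k1) k3
      have k6 : ((([(show End (tp T n) from q' ≫ x)] : List (End (tp T n))).length : ℕ∞)) + 1 = 2 := by
        rw [List.length_singleton]
        norm_num
      rwa [k6] at k5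
    · intro hx'
      by_contra hN
      apply hx'
      have k3 := (h5 hN n).2 _ k1
      rw [k2, R.H.map_comp, k3, comp_zero]
  obtain ⟨-, -, ι, hι, m, e, r, k1, k2, k3, k4⟩ := g5 hN
  refine ⟨ι, hι, m, e, r, k1, k2, fun n => ?_, k4⟩
  rw [e4, e1]
  exact k3 n

end Pool.Agent.H23NC
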