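import Pool.Agent.H23NC.Chain
import Pool.Agent.N64.AF.D2
import Pool.Agent.N64.AF.E1

/-!
# If homological and numerical equivalence agree then the dimensions are the ranks
-/

set_option autoImplicit false
set_option linter.unusedSectionVars false
set_option linter.style.haveILetI false

open CategoryTheory Limits MonoidalCategory Module Filter Topology
open Pool.Agent.Y112.SR Pool.Agent.Y112.KD Pool.Agent.N64.AF
open Pool.Agent.Y116.MT (tr)

namespace Pool.Agent.H23NC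

universe v u w t x

variable {C : Type u} [Category.{v} C] [Preadditive C] [MonoidalCategory C]
  [MonoidalPreadditive C] [SymmetricCategory C] [RightRigidCategory C]
  {Λ : Type t} [Field Λ] [CharZero Λ] [Linear Λ C] [MonoidalLinear Λ C]
  {K : Type w} [Field K] [IsAlgClosed K] [Algebra Λ K] {R : SuperRealisation C K}

/-- The space of the operators `f ∘ A ∘ e`. -/
lemma finrank_sandwich {V W : Type*} [AddCommGroup V] [Module K V] [AddCommGroup W] [Module K W]
    [FiniteDimensional K V] [FiniteDimensional K W] (e : Module.End K V) (f : Module.End K W)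
    {U : Type*} [AddCommGroup U] [Module K U] (L : U →ₗ[K] (V →ₗ[K] W))
    (hL : ∀ u, ∃ A : V →ₗ[K] W, L u = f ∘ₗ A ∘ₗ e) :
    finrank K (LinearMap.range L) ≤ finrank K (LinearMap.range e) *
      finrank K (LinearMap.range f) := by
  let Φ : (LinearMap.range e →ₗ[K] LinearMap.range f) →ₗ[K] (V →ₗ[K] W) :=
    (LinearMap.lcomp K W e.rangeRestrict) ∘ₗ
      (LinearMap.llcomp K (LinearMap.range e) (LinearMap.range f) W (LinearMap.range f).subtype)
  have h1 : LinearMap.range L ≤ LinearMap.range Φ := by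
    rintro _ ⟨u, rfl⟩
    obtain ⟨A, hA⟩ := hL u
    rw [hA]
    exact ⟨f.rangeRestrict ∘ₗ A ∘ₗ (LinearMap.range e).subtype, rfl⟩
  refine (Submodule.finrank_mono h1).trans ((LinearMap.finrank_range_le Φ).trans ?_)
  rw [Module.finrank_linearMap]

/-- The numerical multiplicities are at most the products of the ranks. -/
theorem nr_le_rank (hR : IsReal Λ R) {Y Z : C} (e : Y ⟶ Y) (f : Z ⟶ Z) :
    nr Λ e f ≤ finrank K (LinearMap.range (R.H.map e).hom) *
      finrank K (LinearMap.range (R.H.map f).hom) := by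
  have hfi : ∀ Y : C, Module.Finite K (R.H.obj Y) := R.finite
  rw [nr_eq_rk hR (fun b : Bool => bif b then Z else Y) true false]
  set c := cat R fun b : Bool => bif b then Z else Y with hc
  let L : c.S true false →ₗ[K] (R.H.obj Y →ₗ[K] R.H.obj Z) :=
    (LinearMap.lcomp K (R.H.obj Z) (R.H.map e).hom) ∘ₗ
      (LinearMap.llcomp K (R.H.obj Y) (R.H.obj Z) (R.H.obj Z)
        (R.H.map f).hom) ∘ₗ (c.S true false).subtype
  let U : c.S true false → (R.H.obj Y →ₗ[K] R.H.obj Z) := fun u => u.1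
  let V' : c.S false true → (R.H.obj Z →ₗ[K] R.H.obj Y) := fun v => v.1
  have hLu : ∀ u, L u = (R.H.map f).hom ∘ₗ U u ∘ₗ (R.H.map e).hom := fun _ => rfl
  have h1 := finrank_sandwich (R.H.map e).hom (R.H.map f).hom L fun u => ⟨U u, hLu u⟩
  refine le_trans ?_ h1
  refine N441G.rank_le L _ fun u hu => ?_
  rw [LinearMap.mem_ker] at hu ⊢
  apply LinearMap.ext
  intro v
  rw [Pool.Agent.Y133.Half.Cat.B_apply, LinearMap.zero_apply]
  change LinearMap.trace K (R.H.obj Z) (((R.par Z).hom ∘ₗ (R.H.map f).hom ∘ₗ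
    U u ∘ₗ (R.H.map e).hom) ∘ₗ V' v) = 0
  have h2 : (R.H.map f).hom ∘ₗ U u ∘ₗ (R.H.map e).hom = 0 := hu
  rw [h2, LinearMap.comp_zero, LinearMap.zero_comp, map_zero]

/-- The realisation of `e` is idempotent. -/
def RealIdem (R : SuperRealisation C K) {Y : C} (e : Y ⟶ Y) : Prop :=
  R.H.map (e ≫ e) = R.H.map e

lemma RealIdem.tensor {Y Z : C} {e : Y ⟶ Y} {f : Z ⟶ Z} (he : RealIdem R e)
    (hf : RealIdem R f) : RealIdem R (e ⊗ₘ f) := by
  unfold RealIdem at *
  rw [MonoidalCategory.tensorHom_comp_tensorHom, Functor.Monoidal.map_tensor,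
    Functor.Monoidal.map_tensor, he, hf]

lemma RealIdem.le {P : Pr C} (hP : RealIdem R P.e) (k : ℕ) :
    RealIdem R (Pool.Agent.H23NC.le (List.replicate k P)) := by
  induction k with
  | zero =>
    change R.H.map (𝟙 (𝟙_ C) ≫ 𝟙 (𝟙_ C)) = R.H.map (𝟙 (𝟙_ C))
    rw [Category.comp_id]
  | succ k ih => exact RealIdem.tensor hP ih

/-- The rank of an idempotent is its trace. -/
lemma RealIdem.rank [CharZero K] {Y : C} {e : Y ⟶ Y} (he : RealIdem R e) {r : ℕ}
    (hr : IsRk R e r) : finrank K (LinearMap.range (R.H.map e).hom) = r := by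
  have h0 := R.finite Y
  have h1 : (R.H.map e).hom ∘ₗ (R.H.map e).hom = (R.H.map e).hom := by
    have h2 := congrArg ModuleCat.Hom.hom he
    rw [R.H.map_comp] at h2
    exact h2
  have h2 : LinearMap.IsProj (LinearMap.range (R.H.map e).hom) (R.H.map e).hom := by
    refine ⟨fun x => ⟨x, rfl⟩, ?_⟩
    rintro _ ⟨x, rfl⟩
    exact LinearMap.congr_fun h1 x
  have h3 := h2.trace
  unfold IsRk at hr
  rw [hr] at h3
  exact_mod_cast h3.symm

lemma RealIdem.isRk {Y : C} {e : Y ⟶ Y} (he : RealIdem R e) :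
    IsRk R e (finrank K (LinearMap.range (R.H.map e).hom)) := by
  have h0 := R.finite Y
  have h1 : (R.H.map e).hom ∘ₗ (R.H.map e).hom = (R.H.map e).hom := by
    have h2 := congrArg ModuleCat.Hom.hom he
    rw [R.H.map_comp] at h2
    exact h2
  have h2 : LinearMap.IsProj (LinearMap.range (R.H.map e).hom) (R.H.map e).hom := by
    refine ⟨fun x => ⟨x, rfl⟩, ?_⟩
    rintro _ ⟨x, rfl⟩
    exact LinearMap.congr_fun h1 x
  exact h2.trace

lemma RealIdem.compl {Y : C} {e : Y ⟶ Y} (he : RealIdem R e) : RealIdem R (𝟙 Y - e) := by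
  unfold RealIdem at *
  have h1 : (𝟙 Y - e) ≫ (𝟙 Y - e) = (𝟙 Y - e) + (e ≫ e - e) := by
    rw [Preadditive.sub_comp, Preadditive.comp_sub, Preadditive.comp_sub, Category.id_comp,
      Category.id_comp, Category.comp_id]
    abel
  have h2 : R.H.map (e ≫ e - e) = 0 := by rw [R.H.map_sub, he, sub_self]
  rw [h1, R.H.map_add, h2, add_zero]

lemma isRk_le {P : Pr C} {r : ℕ} (hr : IsRk R P.e r) (k : ℕ) :
    IsRk R (Pool.Agent.H23NC.le (List.replicate k P)) (r ^ k) := by
  induction k with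
  | zero =>
    have h1 := isRk_id R (𝟙_ C)
    rw [bt_unit] at h1
    exact h1
  | succ k ih =>
    rw [pow_succ']
    exact isRk_tensor hr ih

/-- The bound for the dimension by the rank. -/
lemma dim_le_rank (hR : IsReal Λ R) {T : C} {m : ℕ} {e : tp T m ⟶ tp T m} (he : NumIdem e)
    (hi : RealIdem R e) {r : ℕ} (hr : IsRk R e r) (k : ℕ) :
    (nr Λ (Pool.Agent.H23NC.le (List.replicate k (⟨tp T m, e, he⟩ : Pr C)))
      (Pool.Agent.H23NC.le (List.replicate k (⟨tp T m, e, he⟩ : Pr C))) : ℝ) ≤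
      ((r : ℝ) ^ 2) ^ k := by
  have hK : CharZero K := charZero_of_injective_algebraMap (algebraMap Λ K).injective
  have h1 := nr_le_rank (Λ := Λ) hR
    (Pool.Agent.H23NC.le (List.replicate k (⟨tp T m, e, he⟩ : Pr C)))
    (Pool.Agent.H23NC.le (List.replicate k (⟨tp T m, e, he⟩ : Pr C)))
  have h2 : IsRk R (Pool.Agent.H23NC.le (List.replicate k (⟨tp T m, e, he⟩ : Pr C))) (r ^ k) :=
    isRk_le (P := ⟨tp T m, e, he⟩) hr k
  have h3 : RealIdem R (Pool.Agent.H23NC.le (List.replicate k (⟨tp T m, e, he⟩ : Pr C))) :=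
    RealIdem.le (P := ⟨tp T m, e, he⟩) hi k
  rw [h3.rank h2] at h1
  have h4 : ((r : ℝ) ^ 2) ^ k = ((r ^ k * r ^ k : ℕ) : ℝ) := by
    push_cast
    rw [← pow_mul, mul_comm 2 k, pow_mul, sq]
  rw [h4]
  exact_mod_cast h1

/-- Numerically trivial morphisms between the powers have trivial realisation. -/
def HomNum (R : SuperRealisation C K) (T : C) : Prop :=
  ∀ (a b : ℕ) (f : tp T a ⟶ tp T b), NumTriv f → R.H.map f = 0

/-- The growth if homological and numerical equivalence agree. -/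
theorem growth' (hR : IsReal Λ R) {T : C} (hT : HomNum R T) (n : ℕ) :
    (bt R T ^ 2) ^ n ≤ (n + 1) ^ (bt R T ^ 2) * nr Λ (𝟙 (tp T n)) (𝟙 (tp T n)) := by
  have hK : CharZero K := charZero_of_injective_algebraMap (algebraMap Λ K).injective
  obtain ⟨ι, hι, s, hs1, -⟩ := exists_perm_span R T n
  set B := Submodule.span K (Set.range fun i => (R.H.map (s i)).hom) with hB
  refine hs1.trans (Nat.mul_le_mul_left _ ?_)
  -- the comparison
  obtain ⟨τ, hτ1, hτ2⟩ := exists_tau hR (tp T n)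
  have := finite_num hR (tp T n) (tp T n)
  have hfin := R.finite (tp T n)
  let ρ : (tp T n ⟶ tp T n) →ₛₗ[algebraMap Λ K] (R.H.obj (tp T n) →ₗ[K] R.H.obj (tp T n)) :=
    { toFun := fun a => (R.H.map a).hom
      map_add' := fun a b => by rw [R.H.map_add]; rfl
      map_smul' := fun c a => by rw [hR.lin]; rfl }
  have hρ : ∀ a, ρ a = (R.H.map a).hom := fun _ => rfl
  let ψ : (tp T n ⟶ tp T n) → (tp T n ⟶ tp T n) →ₗ[Λ] Λ := fun g =>
    τ ∘ₗ Linear.rightComp Λ (tp T n) g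
  let Ψ : (tp T n ⟶ tp T n) → (R.H.obj (tp T n) →ₗ[K] R.H.obj (tp T n)) →ₗ[K] K := fun g =>
    { toFun := fun F => LinearMap.trace K (R.H.obj (tp T n))
        ((R.par (tp T n)).hom ∘ₗ (R.H.map g).hom ∘ₗ F)
      map_add' := fun a b => by rw [LinearMap.comp_add, LinearMap.comp_add, map_add]
      map_smul' := fun c a => by rw [LinearMap.comp_smul, LinearMap.comp_smul, map_smul]; rfl }
  have hψ : ∀ g v, Ψ g (ρ v) = algebraMap Λ K (ψ g v) := by
    intro g v
    have h1 : ψ g v = τ (v ≫ g) := rfl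
    have hΨ : Ψ g (ρ v) = LinearMap.trace K (R.H.obj (tp T n))
      ((R.par (tp T n)).hom ∘ₗ (R.H.map g).hom ∘ₗ (ρ v)) := rfl
    rw [h1, hτ2, hΨ, hρ, R.H.map_comp]
    rfl
  have hN : ∀ v, (∀ g, ψ g v = 0) → v ∈ numIdeal Λ (tp T n) (tp T n) := by
    intro v hv
    rw [mem_numIdeal]
    intro g
    rw [hτ1]
    have : ψ g v = τ (v ≫ g) := rfl
    rw [← this, hv, zero_smul]
  have e1 := Pool.Agent.N767.AF.finrank_ext ρ (numIdeal Λ (tp T n) (tp T n)) ⊥
    (fun v hv => (Submodule.mem_bot K).2 (by rw [hρ, hT n n v (mem_numIdeal.1 hv)]; rfl)) ψ Ψ hψ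
    (fun F hF g => by rw [(Submodule.mem_bot K).1 hF, map_zero]) hN ⊤ (CK R (tp T n) (tp T n))
    (fun s _ => Submodule.subset_span ⟨s, rfl⟩) (by
      rw [CK, Submodule.span_le]
      rintro _ ⟨f, rfl⟩
      exact Submodule.subset_span ⟨f, trivial, rfl⟩)
  have e2 : nr Λ (𝟙 (tp T n)) (𝟙 (tp T n)) = finrank Λ ((⊤ : Submodule Λ
      (tp T n ⟶ tp T n)).map (numIdeal Λ (tp T n) (tp T n)).mkQ) := by
    have h1 : Pool.Agent.N199.AFA3.sw Λ (𝟙 (tp T n)) (𝟙 (tp T n)) = ⊤ := by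
      rw [eq_top_iff]
      intro f _
      exact Pool.Agent.N199.AFA3.mem_sw.2 ⟨f, by rw [Category.id_comp, Category.comp_id]⟩
    rw [Pool.Agent.N199.AFA3.nr_eq, h1]
  rw [e2, e1]
  have e3 : finrank K ((CK R (tp T n) (tp T n)).map
      (⊥ : Submodule K (R.H.obj (tp T n) →ₗ[K] R.H.obj (tp T n))).mkQ) =
      finrank K (CK R (tp T n) (tp T n)) := by
    have hinj : Function.Injective ((⊥ : Submodule K
        (R.H.obj (tp T n) →ₗ[K] R.H.obj (tp T n))).mkQ.domRestrict
          (CK R (tp T n) (tp T n))) := by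
      rw [← LinearMap.ker_eq_bot, Submodule.eq_bot_iff]
      rintro ⟨x, hx⟩ hx0
      rw [LinearMap.mem_ker, LinearMap.domRestrict_apply, Submodule.mkQ_apply,
        Submodule.Quotient.mk_eq_zero] at hx0
      exact Subtype.ext ((Submodule.mem_bot K).1 hx0)
    have h2 := LinearMap.finrank_range_of_inj hinj
    rwa [LinearMap.range_domRestrict] at h2
  rw [e3]
  apply Submodule.finrank_mono
  rw [hB, Submodule.span_le]
  rintro _ ⟨i, rfl⟩
  exact Submodule.subset_span ⟨s i, rfl⟩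

/-- The growth rate of the comparison sequence is at least the dimension of the realisation. -/
lemma rate_ge (hR : IsReal Λ R) {T : C} [ExactPairing T T] (hT : HomNum R T) {c : ℕ → ℝ}
    (hc : Dims Λ T c) {ρ : ℝ} (hρ : 0 < ρ)
    (hlim : Tendsto (fun n => c (n + 1) / c n) atTop (𝓝 ρ)) : (bt R T : ℝ) ≤ ρ := by
  by_contra hlt
  push Not at hlt
  obtain ⟨θ, h1, h2⟩ := exists_between hlt
  have hθ : 0 < θ := hρ.trans h1
  have hb : (0 : ℝ) < bt R T := hθ.trans h2
  obtain ⟨n₀, hn₀⟩ := eventually_atTop.1 (hlim.eventually (gt_mem_nhds h1))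
  have h3 : ∀ k, c (n₀ + k) ≤ θ ^ k * c n₀ := by
    intro k
    induction k with
    | zero => simp
    | succ k ih =>
      have h4 := hn₀ (n₀ + k) (by omega)
      rw [div_lt_iff₀ (hc.pos _)] at h4
      rw [← add_assoc, pow_succ]
      nlinarith
  -- the lower bound
  set D := bt R T ^ 2 with hD
  have h4 : ∀ n : ℕ, ((bt R T : ℝ) ^ 2) ^ n ≤ (n + 1) ^ D * c (2 * n) := by
    intro n
    have h5 := growth' (Λ := Λ) hR hT n
    have h6 : nr Λ (𝟙 (tp T n)) (𝟙 (tp T n)) = numRank Λ (tp T (2 * n)) := by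
      rw [two_mul]
      exact (nr_tp hR T n n)
    rw [h6] at h5
    have h7 : ((bt R T : ℝ) ^ 2) ^ n ≤ (n + 1) ^ D * (numRank Λ (tp T (2 * n)) : ℝ) := by
      exact_mod_cast h5
    exact h7.trans (mul_le_mul_of_nonneg_left (hc.le _) (by positivity))
  set q : ℝ := (θ / bt R T) ^ 2 with hq
  have hq0 : 0 < q := by positivity
  have hq1 : q < 1 := by
    have : θ / bt R T < 1 := (div_lt_one hb).2 h2
    have h0 : 0 ≤ θ / bt R T := by positivity
    rw [hq]
    nlinarith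
  have h5 : Tendsto (fun n : ℕ => ((n : ℝ) ^ D * q ^ n)) atTop (𝓝 0) :=
    tendsto_pow_const_mul_const_pow_of_abs_lt_one D (by rw [abs_of_pos hq0]; exact hq1)
  have h6 := (h5.comp (tendsto_add_atTop_nat 1)).mul_const (q⁻¹ * (c n₀ / θ ^ n₀))
  rw [zero_mul] at h6
  have h7 : (1 : ℝ) ≤ 0 := by
    refine ge_of_tendsto h6 ?_
    filter_upwards [eventually_ge_atTop n₀] with n hn
    have h8 := h4 n
    obtain ⟨k, hk⟩ := Nat.exists_eq_add_of_le (show n₀ ≤ 2 * n by omega)
    have h9 := h3 k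
    rw [← hk] at h9
    have h10 : θ ^ k = θ ^ (2 * n) / θ ^ n₀ := by
      rw [hk, pow_add, mul_div_cancel_left₀ _ (by positivity)]
    rw [h10] at h9
    have h11 : ((bt R T : ℝ) ^ 2) ^ n ≤ (n + 1) ^ D * (θ ^ (2 * n) / θ ^ n₀ * c n₀) :=
      h8.trans (mul_le_mul_of_nonneg_left h9 (by positivity))
    have h12 : ((bt R T : ℝ) ^ 2) ^ n * 1 ≤ ((bt R T : ℝ) ^ 2) ^ n *
        ((((n + 1 : ℕ) : ℝ) ^ D * q ^ (n + 1)) * (q⁻¹ * (c n₀ / θ ^ n₀))) := by
      rw [mul_one]
      refine h11.trans (le_of_eq ?_)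
      have h13 : q ^ (n + 1) * q⁻¹ = q ^ n := by
        rw [pow_succ, mul_assoc, mul_inv_cancel₀ hq0.ne', mul_one]
      have h14 : ((bt R T : ℝ) ^ 2) ^ n * q ^ n = θ ^ (2 * n) := by
        rw [← mul_pow, hq, div_pow, mul_div_cancel₀ _ (by positivity), pow_mul]
      calc ((n : ℝ) + 1) ^ D * (θ ^ (2 * n) / θ ^ n₀ * c n₀)
          = ((n : ℝ) + 1) ^ D * (θ ^ (2 * n)) * (c n₀ / θ ^ n₀) := by ring
        _ = ((n : ℝ) + 1) ^ D * (((bt R T : ℝ) ^ 2) ^ n * (q ^ (n + 1) * q⁻¹)) *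
              (c n₀ / θ ^ n₀) := by rw [h13, h14]
        _ = _ := by push_cast; ring
    exact le_of_mul_le_mul_left h12 (by positivity)
  linarith

/-- **The dimensions are the ranks.** -/
theorem dim_eq_rank (hR : IsReal Λ R) {T : C} [ExactPairing T T] (hT : HomNum R T)
    {c : ℕ → ℝ} (hc : Dims Λ T c) {m : ℕ} {e : tp T m ⟶ tp T m} (he : NumIdem e) {d : ℝ}
    (hd : Tendsto (fun n => (nr Λ e (𝟙 (tp T n)) : ℝ) / c n) atTop (𝓝 d)) :
    ∃ r : ℕ, IsRk R e r ∧ d = r := by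
  have hK : CharZero K := charZero_of_injective_algebraMap (algebraMap Λ K).injective
  have hfi := R.finite (tp T m)
  have hi : RealIdem R e := by
    have h1 := hT m m _ he
    rw [R.H.map_sub, sub_eq_zero] at h1
    exact h1
  have hi' : RealIdem R (𝟙 (tp T m) - e) := hi.compl
  set r := finrank K (LinearMap.range (R.H.map e).hom) with hr
  set r' := finrank K (LinearMap.range (R.H.map (𝟙 (tp T m) - e)).hom) with hr'
  have h1 : IsRk R e r := hi.isRk
  have h2 : IsRk R (𝟙 (tp T m) - e) r' := hi'.isRk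
  have h3 : r + r' = bt R T ^ m := by
    have h4 := isRk_id R (tp T m)
    unfold IsRk at h1 h2 h4
    rw [R.H.map_sub, ModuleCat.hom_sub, map_sub, h4, h1, bt_tp] at h2
    have h5 : ((r + r' : ℕ) : K) = ((bt R T ^ m : ℕ) : K) := by
      rw [Nat.cast_add, ← h2]
      ring
    exact_mod_cast h5
  -- the bounds
  obtain ⟨d₁, -, -, -, h4, h5⟩ := hc.dim m e he
  obtain ⟨d₂, -, -, -, h6, h7⟩ := hc.dim m _ (numIdem_compl he)
  have hd1 : d = d₁ := tendsto_nhds_unique hd h4
  have h8 : d₁ ^ 2 ≤ (r : ℝ) ^ 2 := h5 he _ (by positivity) fun k => dim_le_rank hR he hi h1 k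
  have h9 : d₂ ^ 2 ≤ (r' : ℝ) ^ 2 := h7 (numIdem_compl he) _ (by positivity) fun k =>
    dim_le_rank hR (numIdem_compl he) hi' h2 k
  have h10 : d₁ ≤ r := le_of_sq_le_sq h8 (Nat.cast_nonneg _)
  have h11 : d₂ ≤ r' := le_of_sq_le_sq h9 (Nat.cast_nonneg _)
  -- the sum
  obtain ⟨ρ, hρ, hlim⟩ := hc.rate
  have hb := rate_ge (Λ := Λ) hR hT hc hρ hlim
  have h12 : ∀ k, Tendsto (fun n => c (n + k) / c n) atTop (𝓝 (ρ ^ k)) := by
    intro k
    induction k with
    | zero =>
      refine tendsto_const_nhds.congr fun n => ?_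
      rw [pow_zero, add_zero, div_self (hc.pos n).ne']
    | succ k ih =>
      have h1 := (hlim.comp (tendsto_add_atTop_nat k)).mul ih
      rw [← pow_succ'] at h1
      refine h1.congr fun n => ?_
      rw [Function.comp_apply]
      have := (hc.pos (n + k)).ne'
      rw [div_mul_div_comm, mul_comm (c (n + k + 1)), mul_div_mul_left _ _ this]
      rfl
  have h13 : Tendsto (fun n => (nr Λ e (𝟙 (tp T n)) : ℝ) / c n +
      (nr Λ (𝟙 (tp T m) - e) (𝟙 (tp T n)) : ℝ) / c n) atTop (𝓝 (ρ ^ m)) := by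
    have h14 := (hc.one.comp (tendsto_add_atTop_nat m)).mul (h12 m)
    rw [one_mul] at h14
    refine h14.congr fun n => ?_
    rw [Function.comp_apply, ← add_div]
    have h15 := nr_add hR he (𝟙 (tp T n))
    have h16 : nr Λ (𝟙 (tp T m)) (𝟙 (tp T n)) = numRank Λ (tp T (n + m)) := by
      rw [add_comm n m]
      exact nr_tp hR T m n
    rw [h16] at h15
    have h17 := (hc.pos (n + m)).ne'
    rw [div_mul_div_comm, mul_comm (c (n + m)), mul_div_mul_right _ _ h17, ← h15]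
    push_cast
    rfl
  have h18 : d₁ + d₂ = ρ ^ m := tendsto_nhds_unique (h4.add h6) h13
  have h19 : ((bt R T : ℝ)) ^ m ≤ ρ ^ m := pow_le_pow_left₀ (Nat.cast_nonneg _) hb m
  have h20 : (r : ℝ) + r' = (bt R T : ℝ) ^ m := by exact_mod_cast h3
  exact ⟨r, h1, by linarith⟩

end Pool.Agent.H23NC
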