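import Pool.Agent.H23NC.EndLaw
import Pool.Agent.H23NC.HomNum
import Pool.Agent.N64.AF.V2
import Pool.Agent.N64.AF.M6

/-!
# A finite index is an integer, and homological equivalence is then numerical equivalence
-/

set_option autoImplicit false
set_option linter.unusedSectionVars false
set_option linter.style.haveILetI false

open CategoryTheory Limits MonoidalCategory Module Filter Topology
open Pool.Agent.Y112.SR Pool.Agent.Y112.KD Pool.Agent.N64.AF
open Pool.Agent.Y116.MT (tr)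
open scoped ENNReal

namespace Pool.Agent.H23NC

universe v u w t x

variable {C : Type u} [Category.{v} C] [Preadditive C] [MonoidalCategory C]
  [MonoidalPreadditive C] [SymmetricCategory C] [RightRigidCategory C]
  {Λ : Type t} [Field Λ] [CharZero Λ] [Linear Λ C] [MonoidalLinear Λ C]
  {K : Type w} [Field K] [IsAlgClosed K] [Algebra Λ K] {R : SuperRealisation C K}

open Pool.Agent.N645.AFK1 in
/-- If the realisation is zero on the numerically trivial morphisms from the unit object to the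
powers of `T` then also on all numerically trivial morphisms between the powers. -/
lemma homNum_of (hR : IsReal Λ R) {T : C} [ExactPairing T T]
    (h0 : ∀ (b : ℕ) (f : tp T 0 ⟶ tp T b), NumTriv f → R.H.map f = 0) (a : ℕ) :
    ∀ (b : ℕ) (f : tp T a ⟶ tp T b), NumTriv f → R.H.map f = 0 := by
  induction a with
  | zero => exact h0
  | succ a ih =>
    intro b f hf
    have h1 : R.H.map (cur Λ T (tp T a) (tp T b) f) = 0 := by
      apply ih (b + 1)
      rw [cur_eq]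
      have h2 := (hf.whiskerRight hR T).comp hR
        ((ρ_ (tp T a)).inv ≫ (_ ◁ η_ T T) ≫ (α_ _ _ _).inv) (𝟙 _)
      rwa [Category.comp_id] at h2
    have h2 : f = (cur Λ T (tp T a) (tp T b)).symm (cur Λ T (tp T a) (tp T b) f) :=
      ((cur Λ T (tp T a) (tp T b)).symm_apply_apply f).symm
    have h3 : ∀ g : tp T a ⟶ tp T b ⊗ T, (cur Λ T (tp T a) (tp T b)).symm g =
        g ▷ T ≫ (α_ _ _ _).hom ≫ (_ ◁ ε_ T T) ≫ (ρ_ _).hom := fun _ => rfl
    rw [h2, h3, R.H.map_comp, Functor.Monoidal.map_whiskerRight, h1]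
    rw [MonoidalPreadditive.zero_whiskerRight]
    simp only [zero_comp, comp_zero]

/-- If the products of `k` numerically trivial morphisms vanish, then homological and numerical
equivalence agree. -/
theorem homNum_of_nil (hR : IsReal Λ R) {T : C} [ExactPairing T T] {k : ℕ}
    (h : ∀ (b : ℕ) (f : tp T 0 ⟶ tp T b), NumPow T k f → f = 0) : HomNum R T := by
  refine fun a b f hf => homNum_of hR ?_ a b f hf
  intro b f hf
  by_contra hne
  obtain ⟨b', ⟨j⟩⟩ := N690V2.exists_iso T b k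
  have h1 := h b' _ (N690V2.numPow_tpow hR hf k b' j.hom)
  have h2 : tpow f k = 0 := by
    have h3 : tpow f k = (tpow f k ≫ j.hom) ≫ j.inv := by
      rw [Category.assoc, Iso.hom_inv_id, Category.comp_id]
    rw [h3, h1, zero_comp]
  have h3 := map_tpow_ne R hne k
  rw [h2] at h3
  exact h3 (R.H.map_zero _ _)

/-- A finite index gives the equality of homological and numerical equivalence. -/
theorem homNum_of_index (hR : IsReal Λ R) {T : C} [ExactPairing T T] {N : ℝ≥0∞}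
    (h : ∀ (j a b : ℕ) (f : tp T a ⟶ tp T b), NumPow T j f → f ≠ 0 → (j : ℝ≥0∞) + 1 ≤ N)
    (hN : N ≠ ⊤) : HomNum R T := by
  obtain ⟨k, hk⟩ := ENNReal.exists_nat_gt hN
  refine homNum_of_nil (Λ := Λ) (k := k) hR fun b f hf => ?_
  by_contra hne
  have h1 := h k 0 b f hf hne
  exact absurd (hk.trans_le (le_self_add.trans h1)) (lt_irrefl _)

/-- **The index law for the morphisms from the unit object.** -/
theorem index_hom (hR : IsReal Λ R) {T : C} [ExactPairing T T] (hT : HasUnit T) :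
    ∃ N : ℕ∞,
      Tendsto (fun n => ((dimE Λ (𝟙_ C ⟶ tp T n) : ℕ∞) : ℝ≥0∞) / numRank Λ (tp T n)) atTop
        (𝓝 (N : ℝ≥0∞)) ∧
      (N ≠ 0) ∧
      (N = 1 ↔ ∀ (a b : ℕ) (f : tp T a ⟶ tp T b), NumTriv f → f = 0) ∧
      (∀ (j a b : ℕ) (f : tp T a ⟶ tp T b), NumPow T j f → f ≠ 0 → (j : ℕ∞) + 1 ≤ N) ∧
      (N ≠ ⊤ → (∀ a b : ℕ, Module.Finite Λ (tp T a ⟶ tp T b)) ∧
        (∀ (a b : ℕ) (f : tp T a ⟶ tp T b), NumTriv f → R.H.map f = 0) ∧
        ∃ (ι : Type) (_ : Fintype ι) (m : ι → ℕ) (e : ∀ i, tp T (m i) ⟶ tp T (m i))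
          (r : ι → ℕ),
          (∀ i, NumIdem (e i) ∧ IsRk R (e i) (r i) ∧ 0 < r i) ∧
          N = 1 + (∑ i, r i : ℕ) ∧
          (∀ n, finrank Λ (𝟙_ C ⟶ tp T n) =
            numRank Λ (tp T n) + ∑ i, nr Λ (e i) (𝟙 (tp T n))) ∧
          ∃ (p l : ℕ) (z : Fin l → (𝟙_ C ⟶ tp T p)), l ≤ Fintype.card ι ∧
            (∀ i, NumTriv (z i)) ∧ ∀ (n : ℕ) (y : 𝟙_ C ⟶ tp T n), NumTriv y →
              y ∈ Submodule.span Λ {y' : 𝟙_ C ⟶ tp T n |
                ∃ (i : Fin l) (c : tp T p ⟶ tp T n), z i ≫ c = y'}) := by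
  obtain ⟨N, h1, h2, h3, h4, h5⟩ := hom_law hR hT
  by_cases hN : N = ⊤
  · subst hN
    refine ⟨⊤, h1, by simp, ?_, fun j a b f _ _ => le_top, fun h => absurd rfl h⟩
    rw [← h3]
    exact iff_of_false (by simp) (by simp)
  · have hnum : HomNum R T := homNum_of_index hR h4 hN
    obtain ⟨h6, ι, _, m, e, d, h7, h8, h9, h10⟩ := h5 hN
    obtain ⟨c, hc⟩ := exists_comparison (Λ := Λ) hR (T := T) hT
    have h11 : ∀ i, ∃ r : ℕ, IsRk R (e i) r ∧ d i = r := by
      intro i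
      refine dim_eq_rank hR hnum hc (h7 i).1 ?_
      have h12 := (h7 i).2.2.mul hc.one
      rw [mul_one] at h12
      refine h12.congr fun n => ?_
      have h13 : (numRank Λ (tp T n) : ℝ) ≠ 0 := by exact_mod_cast (numRank_pos' hR hT n).ne'
      rw [div_mul_div_comm, mul_comm (numRank Λ (tp T n) : ℝ), mul_div_mul_right _ _ h13]
    choose r hr1 hr2 using h11
    have hr3 : ∀ i, 0 < r i := by
      intro i
      have h12 := (h7 i).2.1
      rw [hr2 i] at h12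
      have h13 : 1 ≤ r i := by exact_mod_cast h12
      exact h13
    have hNN : N = ((1 + (∑ i, r i : ℕ) : ℕ∞) : ℝ≥0∞) := by
      rw [h8]
      simp_rw [hr2]
      rw [← Nat.cast_sum, ENNReal.ofReal_natCast]
      generalize (∑ i, r i) = S
      push_cast
      rfl
    refine ⟨1 + (∑ i, r i : ℕ), ?_, ?_, ?_, ?_, fun _ => ⟨h6, hnum, ι, inferInstance, m, e, r,
      fun i => ⟨(h7 i).1, hr1 i, hr3 i⟩, rfl, h9, h10⟩⟩
    · rw [← hNN]
      exact h1
    · simp
    · rw [← h3, hNN]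
      exact_mod_cast Iff.rfl
    · intro j a b f hf hne
      have h12 := h4 j a b f hf hne
      rw [hNN] at h12
      exact_mod_cast h12

/-- **The index law for the endomorphisms of the powers of an arbitrary object.** -/
theorem index_end (hR : IsReal Λ R) {T : C} (hT : ¬ NumTriv (𝟙 T)) :
    ∃ N : ℕ∞,
      Tendsto (fun n => ((dimE Λ (tp T n ⟶ tp T n) : ℕ∞) : ℝ≥0∞) /
        finrank Λ ((tp T n ⟶ tp T n) ⧸ numIdeal Λ (tp T n) (tp T n))) atTop (𝓝 (N : ℝ≥0∞)) ∧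
      N ≠ 0 ∧
      (N = 1 ↔ ∀ (n : ℕ) (f : tp T n ⟶ tp T n), NumTriv f → f = 0) ∧
      (∀ (n : ℕ) (l : List (End (tp T n))),
        (∀ f ∈ l, NumTriv (Y := tp T n) (Z := tp T n) f) → l.prod ≠ 0 →
          (l.length : ℕ∞) + 1 ≤ N) ∧
      (N ≠ ⊤ → ∀ n : ℕ, Module.Finite Λ (tp T n ⟶ tp T n) ∧
        ∀ f : tp T n ⟶ tp T n, NumTriv f → R.H.map f = 0) := by
  let _ := selfDual T
  have hS := hasUnit_tensor_dual hR hT
  obtain ⟨M, g1, g2, g3, g4, g5⟩ := index_hom hR hS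
  have e1 : ∀ n, (finrank Λ ((tp T n ⟶ tp T n) ⧸ numIdeal Λ (tp T n) (tp T n))) =
      numRank Λ (tp (T ⊗ Tᘁ) n) := fun n => by
    rw [numRank_tensor_dual hR T n, nr_id_id]
  have e2 : ∀ n, Nonempty ((𝟙_ C ⟶ tp (T ⊗ Tᘁ) n) ≃ₗ[Λ] (tp T n ⟶ tp T n)) :=
    nonempty_equiv_tensor_dual T
  have e3 : ∀ n, dimE Λ (tp T n ⟶ tp T n) = dimE Λ (𝟙_ C ⟶ tp (T ⊗ Tᘁ) n) := fun n => by
    obtain ⟨i⟩ := e2 n
    unfold dimE
    rw [i.rank_eq]
  have hlim : Tendsto (fun n => ((dimE Λ (tp T n ⟶ tp T n) : ℕ∞) : ℝ≥0∞) /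
        finrank Λ ((tp T n ⟶ tp T n) ⧸ numIdeal Λ (tp T n) (tp T n))) atTop
          (𝓝 (M : ℝ≥0∞)) := by
    refine g1.congr fun n => ?_
    rw [e1, e3]
  obtain ⟨N, h1, h2, h3, h4, h5⟩ := end_law hR hT
  have hNM : N = (M : ℝ≥0∞) := tendsto_nhds_unique h1 hlim
  subst hNM
  refine ⟨M, hlim, g2, ?_, ?_, ?_⟩
  · rw [← h3]
    exact_mod_cast Iff.rfl
  · intro n l hl hne
    have h6 := h4 n l hl hne
    exact_mod_cast h6
  · intro hN n
    refine ⟨h5 (by simpa using hN) n, fun f hf => ?_⟩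
    have h6 := (g5 hN).2.1 n n _ (lft_triv hR T n hf)
    unfold lft at h6
    have h7 : R.H.map (f ▷ Pool.Agent.N413.AFW.dp Tᘁ n) = 0 := by
      have h8 : f ▷ (Pool.Agent.N413.AFW.dp Tᘁ n) =
          (Pool.Agent.N413.AFW.isoTp T Tᘁ n).inv ≫ lft T n f ≫
            (Pool.Agent.N413.AFW.isoTp T Tᘁ n).hom := by
        unfold lft
        simp only [Category.assoc, Iso.inv_hom_id_assoc, Iso.inv_hom_id, Category.comp_id]
      have h9 : R.H.map (lft T n f) = 0 := (g5 hN).2.1 n n _ (lft_triv hR T n hf)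
      rw [h8, R.H.map_comp, R.H.map_comp, h9, zero_comp, comp_zero]
    let _ := Pool.Agent.N413.AFW.pairTp T Tᘁ n
    -- recover `f`
    have h10 : f = (λ_ (tp T n)).inv ≫ (tensorRightHomEquiv (𝟙_ C) (tp T n)
        (Pool.Agent.N413.AFW.dp Tᘁ n) (tp T n)).symm
          (tensorRightHomEquiv (𝟙_ C) (tp T n) (Pool.Agent.N413.AFW.dp Tᘁ n) (tp T n)
            ((λ_ (tp T n)).hom ≫ f)) := by
      rw [Equiv.symm_apply_apply, Iso.inv_hom_id_assoc]
    have h11 : ∀ g : 𝟙_ C ⊗ tp T n ⟶ tp T n,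
        tensorRightHomEquiv (𝟙_ C) (tp T n) (Pool.Agent.N413.AFW.dp Tᘁ n) (tp T n) g =
          (ρ_ _).inv ≫ (_ ◁ η_ _ _) ≫ (α_ _ _ _).inv ≫ g ▷ _ := fun g => rfl
    have h12 : ∀ g : 𝟙_ C ⟶ tp T n ⊗ Pool.Agent.N413.AFW.dp Tᘁ n,
        (tensorRightHomEquiv (𝟙_ C) (tp T n) (Pool.Agent.N413.AFW.dp Tᘁ n) (tp T n)).symm g =
          g ▷ _ ≫ (α_ _ _ _).hom ≫ (_ ◁ ε_ _ _) ≫ (ρ_ _).hom := fun g => rfl
    have h13 : R.H.map (tensorRightHomEquiv (𝟙_ C) (tp T n) (Pool.Agent.N413.AFW.dp Tᘁ n)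
        (tp T n) ((λ_ (tp T n)).hom ≫ f)) = 0 := by
      rw [h11, comp_whiskerRight]
      simp only [Functor.map_comp, h7, comp_zero]
    rw [h10, h12]
    simp only [Functor.map_comp, Functor.Monoidal.map_whiskerRight, h13,
      MonoidalPreadditive.zero_whiskerRight, comp_zero, zero_comp]

end Pool.Agent.H23NC
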