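import Pool.Agent.H23NC.Chain

/-!
# The law for additive functors, without the sign conjecture
-/

set_option autoImplicit false
set_option linter.unusedSectionVars false
set_option linter.style.haveILetI false

open CategoryTheory Limits MonoidalCategory Module Filter Topology
open Pool.Agent.Y112.SR Pool.Agent.Y112.KD Pool.Agent.N64.AF
open Pool.Agent.Y116.MT (tr)
open scoped ENNReal

namespace Pool.Agent.H23NC

universe v u w t x

variable {C : Type u} [Category.{v} C] [Preadditive C] [MonoidalCategory C]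
  [MonoidalPreadditive C] [SymmetricCategory C] [RightRigidCategory C]
  {Λ : Type t} [Field Λ] [CharZero Λ] [Linear Λ C] [MonoidalLinear Λ C]
  {K : Type w} [Field K] [IsAlgClosed K] [Algebra Λ K] {R : SuperRealisation C K}

/-- The structure of an additive functor with finite limit. -/
structure Decomp (Λ : Type t) [Field Λ] [Linear Λ C] [MonoidalLinear Λ C] (T : C) (c : ℕ → ℝ)
    (F : C ⥤ ModuleCat.{x} Λ) (ι : Type) [Fintype ι] (e : ι → Σ m : ℕ, (tp T m ⟶ tp T m))
    (d : ι → ℝ) : Prop where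
  idem : ∀ i, NumIdem (e i).2
  one_le : ∀ i, 1 ≤ d i
  le : ∀ i n, (nr Λ (e i).2 (𝟙 (tp T n)) : ℝ) ≤ d i * c n
  lim : ∀ i, Tendsto (fun n => (nr Λ (e i).2 (𝟙 (tp T n)) : ℝ) / c n) atTop (𝓝 (d i))
  sum : ∀ n, finrank Λ (F.obj (tp T n)) = ∑ i, nr Λ (e i).2 (𝟙 (tp T n))
  kill : ∀ (a b : ℕ) (f : tp T a ⟶ tp T b), NumPow T (Fintype.card ι) f → F.map f = 0
  gens : ∃ (m l : ℕ) (z : Fin l → F.obj (tp T m)), l ≤ Fintype.card ι ∧
    ∀ (n : ℕ) (y : F.obj (tp T n)), y ∈ gen F z (tp T n)

/-- Retracts. -/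
lemma exists_retract_add {T : C} (h : HasUnit T) (a b : ℕ) :
    ∃ (i : tp T a ⟶ tp T (a + b)) (r : tp T (a + b) ⟶ tp T a), i ≫ r = 𝟙 (tp T a) := by
  induction b with
  | zero => exact ⟨𝟙 _, 𝟙 _, Category.comp_id _⟩
  | succ b ih =>
    obtain ⟨i, r, h1⟩ := ih
    obtain ⟨i', r', h2⟩ := exists_retract_tp' h (a + b)
    refine ⟨i ≫ i', r' ≫ r, ?_⟩
    rw [Category.assoc, ← Category.assoc i' r' r, h2, Category.id_comp, h1]

lemma exists_retract_le {T : C} (h : HasUnit T) {a b : ℕ} (hab : a ≤ b) :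
    ∃ (i : tp T a ⟶ tp T b) (r : tp T b ⟶ tp T a), i ≫ r = 𝟙 (tp T a) := by
  obtain ⟨k, rfl⟩ := Nat.exists_eq_add_of_le hab
  exact exists_retract_add h a k

lemma gen_map_mem (F : C ⥤ ModuleCat.{x} Λ) {U : C} {l : ℕ} (z : Fin l → F.obj U) {Y Z : C}
    (f : Y ⟶ Z) {a : F.obj Y} (ha : a ∈ gen F z Y) : (F.map f).hom a ∈ gen F z Z :=
  gen_le F z f ha

/-- Generators in a common power. -/
lemma gens_cons {T : C} (h : HasUnit T) (F : C ⥤ ModuleCat.{x} Λ) {m₀ m l : ℕ}
    (z₀ : F.obj (tp T m₀)) (z : Fin l → F.obj (tp T m)) :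
    ∃ (m' : ℕ) (z' : Fin (l + 1) → F.obj (tp T m')),
      (∀ n (c : tp T m₀ ⟶ tp T n), (F.map c).hom z₀ ∈ gen F z' (tp T n)) ∧
      (∀ (i : Fin l) (n : ℕ) (c : tp T m ⟶ tp T n), (F.map c).hom (z i) ∈ gen F z' (tp T n)) := by
  obtain ⟨i₀, r₀, h₀⟩ := exists_retract_le h (le_max_left m₀ m)
  obtain ⟨i₁, r₁, h₁⟩ := exists_retract_le h (le_max_right m₀ m)
  refine ⟨max m₀ m, Fin.cons ((F.map i₀).hom z₀) fun i => (F.map i₁).hom (z i), ?_, ?_⟩
  · intro n c
    refine Submodule.subset_span ⟨0, r₀ ≫ c, ?_⟩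
    rw [Fin.cons_zero, F.map_comp]
    change (F.map c).hom ((F.map r₀).hom ((F.map i₀).hom z₀)) = _
    rw [map_retract F h₀]
  · intro i n c
    refine Submodule.subset_span ⟨i.succ, r₁ ≫ c, ?_⟩
    rw [Fin.cons_succ, F.map_comp]
    change (F.map c).hom ((F.map r₁).hom ((F.map i₁).hom (z i))) = _
    rw [map_retract F h₁]

/-- The induction. -/
theorem structure_core' (hR : IsReal Λ R) {T : C} (hT : HasUnit T) {c : ℕ → ℝ}
    (hc : Dims Λ T c) (k : ℕ) :
    ∀ (F : C ⥤ ModuleCat.{x} Λ) [F.Additive] [F.Linear Λ], IsFin Λ T F → ∀ B : ℝ, B < k →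
      (∃ᶠ n in atTop, (finrank Λ (F.obj (tp T n)) : ℝ) / c n ≤ B) →
      ∃ (ι : Type) (_ : Fintype ι) (e : ι → Σ m : ℕ, (tp T m ⟶ tp T m)) (d : ι → ℝ),
        Decomp Λ T c F ι e d := by
  induction k with
  | zero =>
    intro F _ _ _ B hB hfr
    obtain ⟨n, hn⟩ := hfr.exists
    have h1 : (0 : ℝ) ≤ (finrank Λ (F.obj (tp T n)) : ℝ) / c n :=
      div_nonneg (Nat.cast_nonneg _) (hc.pos n).le
    rw [Nat.cast_zero] at hB
    linarith
  | succ k ih =>
  intro F _ _ hfin B hB hfr
  by_cases hall : ∀ n, Subsingleton (F.obj (tp T n))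
  · -- the zero functor
    refine ⟨Empty, inferInstance, fun i => i.elim, fun i => i.elim, fun i => i.elim,
      fun i => i.elim, fun i => i.elim, fun i => i.elim, ?_, ?_, 0, 0, Fin.elim0, le_rfl, ?_⟩
    · intro n
      have := hall n
      rw [finrank_zero_of_subsingleton]
      simp
    · intro a b f _
      have := hall b
      ext v
      exact Subsingleton.elim _ _
    · intro n y
      have := hall n
      rw [Subsingleton.elim y 0]
      exact Submodule.zero_mem _
  · push Not at hall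
    obtain ⟨m, hm⟩ := hall
    have hm' : ¬ Subsingleton (F.obj (tp T m)) := not_subsingleton_iff_nontrivial.2 hm
    have hfinm := hfin.fin m
    obtain ⟨g, z, hg, hgpos, hgz⟩ := exists_simple' hR F (hfin.nil m) hm'
    obtain ⟨r, -, hr1, hrle, hrlim, -⟩ := hc.dim m g hg
    have hr : 1 ≤ r := hr1 hgpos
    -- the subfunctors
    have hS := isStab_range F g z
    have hS' := isStab_ker (R := R) F g z hR
    have hF1 := hfin.sub hS'
    have hF2 := hfin.quoS hS
    -- dimensions
    have hdim : ∀ n, finrank Λ (F.obj (tp T n)) =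
        finrank Λ ((quoS F _ hS).obj (tp T n)) + finrank Λ ((sub F _ hS').obj (tp T n)) +
          nr Λ g (𝟙 (tp T n)) := by
      intro n
      have := hfin.fin n
      have h1 := Submodule.finrank_quotient_add_finrank (LinearMap.range (thetaMap F g z (tp T n)))
      have h2 := finrank_map_of_ker (thetaMap F g z (tp T n)) (nuMap Λ g (tp T n)) (by
        intro c hc'
        rw [mem_ker_nuMap]
        exact hgz _ c hc')
      have h3 : finrank Λ (LinearMap.range (nuMap Λ g (tp T n))) = nr Λ g (𝟙 (tp T n)) := rfl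
      rw [h3] at h2
      change _ = finrank Λ (F.obj (tp T n) ⧸ LinearMap.range (thetaMap F g z (tp T n))) +
        finrank Λ ((LinearMap.ker (nuMap Λ g (tp T n))).map (thetaMap F g z (tp T n))) + _
      omega
    -- the bound for the constituents
    set ε : ℝ := ((k : ℝ) + 1 - B) / 2 with hε
    have hB' : B < (k : ℝ) + 1 := by exact_mod_cast hB
    have hε0 : 0 < ε := by rw [hε]; linarith
    have hev : ∀ᶠ n in atTop, 1 - ε < (nr Λ g (𝟙 (tp T n)) : ℝ) / c n :=
      hrlim.eventually (lt_mem_nhds (by linarith))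
    have hfr' : ∃ᶠ n in atTop, (finrank Λ ((quoS F _ hS).obj (tp T n)) : ℝ) / c n +
        (finrank Λ ((sub F _ hS').obj (tp T n)) : ℝ) / c n ≤ B - 1 + ε := by
      refine (hfr.and_eventually hev).mono fun n hn => ?_
      have h1 := hn.1
      rw [hdim n] at h1
      push_cast at h1
      rw [add_div, add_div] at h1
      linarith [hn.2]
    have hBk : B - 1 + ε < k := by rw [hε]; linarith
    obtain ⟨ι₁, _, e₁, d₁, H₁⟩ := ih (sub F _ hS') hF1 _ hBk (hfr'.mono fun n hn => by
      have : (0 : ℝ) ≤ (finrank Λ ((quoS F _ hS).obj (tp T n)) : ℝ) / c n :=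
        div_nonneg (Nat.cast_nonneg _) (hc.pos n).le
      linarith)
    obtain ⟨ι₂, _, e₂, d₂, H₂⟩ := ih (quoS F _ hS) hF2 _ hBk (hfr'.mono fun n hn => by
      have : (0 : ℝ) ≤ (finrank Λ ((sub F _ hS').obj (tp T n)) : ℝ) / c n :=
        div_nonneg (Nat.cast_nonneg _) (hc.pos n).le
      linarith)
    have hcard : Fintype.card (Option (ι₂ ⊕ ι₁)) = Fintype.card ι₂ + (Fintype.card ι₁ + 1) := by
      rw [Fintype.card_option, Fintype.card_sum]
      ring
    refine ⟨Option (ι₂ ⊕ ι₁), inferInstance, fun i => i.elim ⟨m, g⟩ (Sum.elim e₂ e₁),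
      fun i => i.elim r (Sum.elim d₂ d₁), ?_, ?_, ?_, ?_, ?_, ?_, ?_⟩
    · rintro (_ | (i | i))
      · exact hg
      · exact H₂.idem i
      · exact H₁.idem i
    · rintro (_ | (i | i))
      · exact hr
      · exact H₂.one_le i
      · exact H₁.one_le i
    · rintro (_ | (i | i))
      · exact hrle
      · exact H₂.le i
      · exact H₁.le i
    · rintro (_ | (i | i))
      · exact hrlim
      · exact H₂.lim i
      · exact H₁.lim i
    · intro n
      rw [Fintype.sum_option, Fintype.sum_sum_type]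
      simp only [Option.elim_none, Option.elim_some, Sum.elim_inl, Sum.elim_inr]
      rw [hdim n, H₁.sum, H₂.sum]
      ring
    · -- vanishing
      intro a b f hf
      rw [hcard] at hf
      obtain ⟨c, g₁, h₁, hg₁, hh₁, rfl⟩ := hf.split (Fintype.card ι₁ + 1)
      obtain ⟨c', y, h₂, hy, hh₂, rfl⟩ := hh₁.head hR
      have e1 := H₂.kill a c g₁ hg₁
      have e2 := H₁.kill c' b h₂ hh₂
      ext v
      have e3 : ((quoS F _ hS).map g₁).hom (Submodule.Quotient.mk v) = 0 := by
        rw [e1]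
        rfl
      rw [quoS_map_mk] at e3
      have e4 : (F.map g₁).hom v ∈ LinearMap.range (thetaMap F g z (tp T c)) :=
        (Submodule.Quotient.mk_eq_zero _).1 e3
      obtain ⟨c₀, hc₀⟩ := e4
      have e5 : (F.map y).hom ((F.map g₁).hom v) ∈
          (LinearMap.ker (nuMap Λ g (tp T c'))).map (thetaMap F g z (tp T c')) := by
        rw [← hc₀]
        refine ⟨c₀ ≫ y, ?_, (thetaMap_comp F g z c₀ y).symm⟩
        have h2 := NumTriv.comp hR hy (g ≫ c₀) (𝟙 _)
        rw [Category.comp_id, Category.assoc] at h2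
        exact (mem_ker_nuMap g _).2 h2
      have e6 := sub_map_val hS' h₂ ⟨_, e5⟩
      rw [e2] at e6
      rw [F.map_comp, F.map_comp]
      exact e6.symm
    · -- generators
      obtain ⟨m₂, l₂, z₂, hl₂, hz₂⟩ := H₂.gens
      choose z₃ hz₃ using fun i => Submodule.mkQ_surjective
        (LinearMap.range (thetaMap F g z (tp T m₂))) (z₂ i)
      obtain ⟨m', z', h1, h2⟩ := gens_cons hT F z z₃
      refine ⟨m', l₂ + 1, z', by rw [hcard]; omega, fun n y => ?_⟩
      have h3 : ∀ y' : F.obj (tp T n), y' ∈ LinearMap.range (thetaMap F g z (tp T n)) →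
          y' ∈ gen F z' (tp T n) := by
        rintro _ ⟨c, rfl⟩
        exact h1 n _
      have h4 : ∀ q : (quoS F _ hS).obj (tp T n), q ∈ gen (quoS F _ hS) z₂ (tp T n) →
          ∃ y' ∈ gen F z' (tp T n), (Submodule.Quotient.mk y' : F.obj (tp T n) ⧸
            LinearMap.range (thetaMap F g z (tp T n))) = q := by
        intro q hq
        unfold gen at hq
        induction hq using Submodule.span_induction with
        | mem q hq =>
          obtain ⟨i, c, rfl⟩ := hq
          refine ⟨(F.map c).hom (z₃ i), h2 i n c, ?_⟩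
          rw [← hz₃ i]
          rfl
        | zero => exact ⟨0, Submodule.zero_mem _, rfl⟩
        | add a b _ _ ha hb =>
          obtain ⟨a', ha', rfl⟩ := ha
          obtain ⟨b', hb', rfl⟩ := hb
          exact ⟨a' + b', Submodule.add_mem _ ha' hb', rfl⟩
        | smul s a _ ha =>
          obtain ⟨a', ha', rfl⟩ := ha
          exact ⟨s • a', Submodule.smul_mem _ s ha', rfl⟩
      obtain ⟨y', hy', hyy⟩ := h4 (Submodule.Quotient.mk y) (hz₂ n _)
      have h5 : y - y' ∈ LinearMap.range (thetaMap F g z (tp T n)) := by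
        rw [← Submodule.Quotient.mk_eq_zero, Submodule.Quotient.mk_sub, hyy]
        exact sub_self _
      have h6 := Submodule.add_mem _ (h3 _ h5) hy'
      rwa [sub_add_cancel] at h6

end Pool.Agent.H23NC
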