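import Pool.Agent.H23NC.Law

/-!
# The law, without the sign conjecture: limits
-/

set_option autoImplicit false
set_option linter.unusedSectionVars false
set_option linter.style.haveILetI false

open CategoryTheory Limits MonoidalCategory Module Filter Topology
open Pool.Agent.Y112.SR Pool.Agent.Y112.KD Pool.Agent.N64.AF
open Pool.Agent.Y116.MT (tr)
open scoped ENNReal

namespace Pool.Agent.H23NC

universe v u w t x

variable {C : Type u} [Category.{v} C] [Preadditive C] [MonoidalCategory C]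
  [MonoidalPreadditive C] [SymmetricCategory C] [RightRigidCategory C]
  {Λ : Type t} [Field Λ] [CharZero Λ] [Linear Λ C] [MonoidalLinear Λ C]
  {K : Type w} [Field K] [IsAlgClosed K] [Algebra Λ K] {R : SuperRealisation C K}

lemma Dims.div_rank (hR : IsReal Λ R) {T : C} (hT : HasUnit T) {c : ℕ → ℝ} (hc : Dims Λ T c)
    (a : ℕ → ℝ) (n : ℕ) : a n / numRank Λ (tp T n) =
      a n / c n * ((numRank Λ (tp T n) : ℝ) / c n)⁻¹ := by
  have h1 := (hc.pos n).ne'
  have h2 : (numRank Λ (tp T n) : ℝ) ≠ 0 := by exact_mod_cast (numRank_pos' hR hT n).ne'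
  field_simp

lemma Dims.inv_one {T : C} {c : ℕ → ℝ} (hc : Dims Λ T c) :
    Tendsto (fun n => ((numRank Λ (tp T n) : ℝ) / c n)⁻¹) atTop (𝓝 1) := by
  have := hc.one.inv₀ one_ne_zero
  rwa [_root_.inv_one] at this

lemma Dims.lim_rank (hR : IsReal Λ R) {T : C} (hT : HasUnit T) {c : ℕ → ℝ} (hc : Dims Λ T c)
    {a : ℕ → ℝ} {x : ℝ} (h : Tendsto (fun n => a n / c n) atTop (𝓝 x)) :
    Tendsto (fun n => a n / numRank Λ (tp T n)) atTop (𝓝 x) := by
  simp_rw [hc.div_rank hR hT a]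
  have := h.mul hc.inv_one
  rwa [mul_one] at this

lemma Dims.lim_rank_top (hR : IsReal Λ R) {T : C} (hT : HasUnit T) {c : ℕ → ℝ}
    (hc : Dims Λ T c) {a : ℕ → ℝ} (h : Tendsto (fun n => a n / c n) atTop atTop) :
    Tendsto (fun n => a n / numRank Λ (tp T n)) atTop atTop := by
  simp_rw [hc.div_rank hR hT a]
  exact h.atTop_mul_pos one_pos hc.inv_one

/-- The ratio of the dimension and the numerical rank. -/
noncomputable def ratio (Λ : Type t) [Field Λ] [Linear Λ C] [MonoidalLinear Λ C] (T : C)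
    (F : C ⥤ ModuleCat.{x} Λ) (n : ℕ) : ℝ≥0∞ :=
  ((dimE Λ (F.obj (tp T n)) : ℕ∞) : ℝ≥0∞) / numRank Λ (tp T n)

lemma ratio_eq (hR : IsReal Λ R) {T : C} (hT : HasUnit T) (F : C ⥤ ModuleCat.{x} Λ)
    {n : ℕ} (hn : Module.Finite Λ (F.obj (tp T n))) : ratio Λ T F n =
      ENNReal.ofReal ((finrank Λ (F.obj (tp T n)) : ℝ) / numRank Λ (tp T n)) := by
  have hβ : (0 : ℝ) < numRank Λ (tp T n) := by exact_mod_cast numRank_pos' hR hT n
  rw [ratio, dimE_eq, ENNReal.ofReal_div_of_pos hβ, ENNReal.ofReal_natCast,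
    ENNReal.ofReal_natCast]
  rfl

lemma ratio_lim (hR : IsReal Λ R) {T : C} (hT : HasUnit T) (F : C ⥤ ModuleCat.{x} Λ)
    (hfin : ∀ n, Module.Finite Λ (F.obj (tp T n))) {x : ℝ}
    (h : Tendsto (fun n => (finrank Λ (F.obj (tp T n)) : ℝ) / numRank Λ (tp T n)) atTop (𝓝 x)) :
    Tendsto (ratio Λ T F) atTop (𝓝 (ENNReal.ofReal x)) := by
  refine ((ENNReal.continuous_ofReal.tendsto _).comp h).congr fun n => ?_
  rw [ratio_eq hR hT F (hfin n)]
  rfl

lemma ratio_top (hR : IsReal Λ R) {T : C} (hT : HasUnit T) (F : C ⥤ ModuleCat.{x} Λ)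
    (hfin : ∀ n, Module.Finite Λ (F.obj (tp T n)))
    (h : Tendsto (fun n => (finrank Λ (F.obj (tp T n)) : ℝ) / numRank Λ (tp T n)) atTop atTop) :
    Tendsto (ratio Λ T F) atTop (𝓝 ⊤) := by
  refine (ENNReal.tendsto_ofReal_nhds_top.2 h).congr fun n => ?_
  rw [ratio_eq hR hT F (hfin n)]

/-- The two cases. -/
theorem law_cases (hR : IsReal Λ R) {T : C} (hT : HasUnit T) {c : ℕ → ℝ} (hc : Dims Λ T c)
    (F : C ⥤ ModuleCat.{x} Λ) [F.Additive] [F.Linear Λ] :
    (IsFin Λ T F ∧ ∃ (ι : Type) (_ : Fintype ι) (e : ι → Σ m : ℕ, (tp T m ⟶ tp T m))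
      (d : ι → ℝ), Decomp Λ T c F ι e d) ∨
    Tendsto (ratio Λ T F) atTop (𝓝 ⊤) := by
  by_cases hfin : ∀ n, Module.Finite Λ (F.obj (tp T n))
  · by_cases hnil : ∀ (m : ℕ) (y : tp T m ⟶ tp T m), NumTriv y →
      IsNilpotent ((F.map y).hom : Module.End Λ (F.obj (tp T m)))
    · by_cases hB : ∃ B : ℝ, ∃ᶠ n in atTop, (finrank Λ (F.obj (tp T n)) : ℝ) / c n ≤ B
      · obtain ⟨B, hB⟩ := hB
        obtain ⟨k, hk⟩ := exists_nat_gt B
        exact Or.inl ⟨⟨hfin, hnil⟩, structure_core' hR hT hc k F ⟨hfin, hnil⟩ B hk hB⟩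
      · right
        apply ratio_top hR hT F hfin
        apply hc.lim_rank_top hR hT
        rw [tendsto_atTop]
        intro B
        by_contra h1
        refine hB ⟨B, ?_⟩
        rw [Filter.not_eventually] at h1
        exact h1.mono fun n hn => (not_le.1 hn).le
    · push Not at hnil
      obtain ⟨m, y, hy, hn⟩ := hnil
      exact Or.inr (ratio_top hR hT F hfin (hc.lim_rank_top hR hT
        (infinite_case' hR hT hc F hfin hy hn)))
  · right
    push Not at hfin
    obtain ⟨m, hm⟩ := hfin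
    have h1 : ∀ n, m ≤ n → ¬ Module.Finite Λ (F.obj (tp T n)) := by
      intro n hn
      induction n, hn using Nat.le_induction with
      | base => exact hm
      | succ n _ ih => exact not_finite_succ' hT F ih
    refine tendsto_const_nhds.congr' ?_
    filter_upwards [eventually_ge_atTop m] with n hn
    rw [ratio, dimE_top (h1 n hn)]
    exact (ENNReal.top_div_of_ne_top (ENNReal.natCast_ne_top _)).symm

/-- The limit. -/
lemma Decomp.tendsto (hR : IsReal Λ R) {T : C} (hT : HasUnit T) {c : ℕ → ℝ} (hc : Dims Λ T c)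
    {F : C ⥤ ModuleCat.{x} Λ} (hF : IsFin Λ T F) {ι : Type} [Fintype ι]
    {e : ι → Σ m : ℕ, (tp T m ⟶ tp T m)} {d : ι → ℝ} (H : Decomp Λ T c F ι e d) :
    Tendsto (ratio Λ T F) atTop (𝓝 (ENNReal.ofReal (∑ i, d i))) := by
  apply ratio_lim hR hT F hF.fin
  apply hc.lim_rank hR hT
  have h1 : (fun n => (finrank Λ (F.obj (tp T n)) : ℝ) / c n) =
      fun n => ∑ i, (nr Λ (e i).2 (𝟙 (tp T n)) : ℝ) / c n := by
    funext n
    rw [H.sum, Nat.cast_sum, Finset.sum_div]
  rw [h1]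
  exact tendsto_finsetSum _ fun i _ => H.lim i

lemma Decomp.card_le {T : C} {c : ℕ → ℝ}
    {F : C ⥤ ModuleCat.{x} Λ} {ι : Type} [Fintype ι]
    {e : ι → Σ m : ℕ, (tp T m ⟶ tp T m)} {d : ι → ℝ} (H : Decomp Λ T c F ι e d) :
    (Fintype.card ι : ℝ) ≤ ∑ i, d i := by
  calc (Fintype.card ι : ℝ) = ∑ _i : ι, (1 : ℝ) := by simp
    _ ≤ ∑ i, d i := Finset.sum_le_sum fun i _ => H.one_le i

/-- **The law for additive functors.** -/
theorem law_functor (hR : IsReal Λ R) {T : C} [ExactPairing T T] (hT : HasUnit T)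
    (F : C ⥤ ModuleCat.{x} Λ) [F.Additive] [F.Linear Λ] :
    ∃ N : ℝ≥0∞, Tendsto (ratio Λ T F) atTop (𝓝 N) ∧ (N = 0 ∨ 1 ≤ N) ∧
      (N = 0 ↔ ∀ n, Subsingleton (F.obj (tp T n))) ∧
      (N ≠ ⊤ → IsFin Λ T F ∧ ∃ (ι : Type) (_ : Fintype ι)
        (e : ι → Σ m : ℕ, (tp T m ⟶ tp T m)) (d : ι → ℝ),
        (∀ i, NumIdem (e i).2 ∧ 1 ≤ d i ∧ Tendsto (fun n =>
          (nr Λ (e i).2 (𝟙 (tp T n)) : ℝ) / numRank Λ (tp T n)) atTop (𝓝 (d i))) ∧
        N = ENNReal.ofReal (∑ i, d i) ∧ (Fintype.card ι : ℝ≥0∞) ≤ N ∧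
        (∀ n, finrank Λ (F.obj (tp T n)) = ∑ i, nr Λ (e i).2 (𝟙 (tp T n))) ∧
        (∀ (a b : ℕ) (f : tp T a ⟶ tp T b), NumPow T (Fintype.card ι) f → F.map f = 0) ∧
        ∃ (m l : ℕ) (z : Fin l → F.obj (tp T m)), l ≤ Fintype.card ι ∧
          ∀ (n : ℕ) (y : F.obj (tp T n)), y ∈ gen F z (tp T n)) := by
  obtain ⟨c, hc⟩ := exists_comparison (Λ := Λ) hR (T := T) hT
  rcases law_cases hR hT hc F with ⟨hfin, ι, _, e, d, H⟩ | htop
  · have hd0 : 0 ≤ ∑ i, d i := Finset.sum_nonneg fun i _ => zero_le_one.trans (H.one_le i)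
    have hcard := H.card_le
    have hempty : IsEmpty ι → ∀ n, Subsingleton (F.obj (tp T n)) := by
      intro h n
      have := hfin.fin n
      have h1 : finrank Λ (F.obj (tp T n)) = 0 := by
        rw [H.sum, Finset.univ_eq_empty, Finset.sum_empty]
      exact finrank_zero_iff.1 h1
    refine ⟨ENNReal.ofReal (∑ i, d i), H.tendsto hR hT hc hfin, ?_, ?_, fun _ => ⟨hfin, ι, _, e, d,
      fun i => ⟨H.idem i, H.one_le i, hc.lim_rank hR hT (H.lim i)⟩, rfl, ?_, H.sum, H.kill,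
      H.gens⟩⟩
    · rcases isEmpty_or_nonempty ι with h | h
      · left
        rw [Finset.univ_eq_empty, Finset.sum_empty, ENNReal.ofReal_zero]
      · right
        rw [ENNReal.one_le_ofReal]
        have h1 : (1 : ℝ) ≤ Fintype.card ι := by exact_mod_cast Fintype.card_pos
        linarith
    · constructor
      · intro h0
        apply hempty
        rw [ENNReal.ofReal_eq_zero] at h0
        rw [← Fintype.card_eq_zero_iff]
        have h1 : (Fintype.card ι : ℝ) ≤ 0 := hcard.trans h0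
        exact_mod_cast le_antisymm h1 (Nat.cast_nonneg _)
      · intro hall
        have h1 : (fun n => ratio Λ T F n) = fun _ => 0 := by
          funext n
          have := hall n
          rw [ratio_eq hR hT F (hfin.fin n), finrank_zero_of_subsingleton, Nat.cast_zero, zero_div,
            ENNReal.ofReal_zero]
        have h2 := H.tendsto hR hT hc hfin
        change Tendsto (fun n => ratio Λ T F n) atTop _ at h2
        rw [h1] at h2
        exact (tendsto_nhds_unique h2 tendsto_const_nhds)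
    · rw [ENNReal.le_ofReal_iff_toReal_le (ENNReal.natCast_ne_top _) hd0, ENNReal.toReal_natCast]
      exact hcard
  · refine ⟨⊤, htop, Or.inr le_top, iff_of_false (by simp) fun hall => ?_, fun h => absurd rfl h⟩
    have h1 : (fun n => ratio Λ T F n) = fun _ => 0 := by
      funext n
      have := hall n
      rw [ratio, dimE_eq, finrank_zero_of_subsingleton]
      simp
    change Tendsto (fun n => ratio Λ T F n) atTop _ at htop
    rw [h1] at htop
    exact absurd (tendsto_nhds_unique htop tendsto_const_nhds) (by simp)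

end Pool.Agent.H23NC
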