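import Pool.Agent.H23NC.Law2
import Pool.Agent.N64.AF.K1
import Pool.Agent.N64.AF.W

/-!
# The law for the morphisms from the unit object, without the sign conjecture
-/

set_option autoImplicit false
set_option linter.unusedSectionVars false
set_option linter.style.haveILetI false

open CategoryTheory Limits MonoidalCategory Module Filter Topology
open Pool.Agent.Y112.SR Pool.Agent.Y112.KD Pool.Agent.N64.AF
open Pool.Agent.Y116.MT (tr)
open scoped ENNReal

namespace Pool.Agent.H23NC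

universe v u w t x

variable {C : Type u} [Category.{v} C] [Preadditive C] [MonoidalCategory C]
  [MonoidalPreadditive C] [SymmetricCategory C] [RightRigidCategory C]
  {Λ : Type t} [Field Λ] [CharZero Λ] [Linear Λ C] [MonoidalLinear Λ C]
  {K : Type w} [Field K] [IsAlgClosed K] [Algebra Λ K] {R : SuperRealisation C K}

/-- The numerically trivial morphisms from the unit object form a subfunctor. -/
lemma isStab_num (hR : IsReal Λ R) :
    IsStab (homF Λ (𝟙_ C)) (fun Z : C => numIdeal Λ (𝟙_ C) Z) := by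
  intro Y Z f x hx
  have h1 := NumTriv.comp hR (mem_numIdeal.1 hx) (𝟙 _) f
  rw [Category.id_comp] at h1
  exact h1

/-- The functor of the numerically trivial morphisms from the unit object. -/
noncomputable abbrev numF (hR : IsReal Λ R) : C ⥤ ModuleCat.{v} Λ :=
  sub (homF Λ (𝟙_ C)) (fun Z : C => numIdeal Λ (𝟙_ C) Z) (isStab_num hR)

/-- Dimensions. -/
lemma dimE_hom (hR : IsReal Λ R) (Z : C) :
    dimE Λ (𝟙_ C ⟶ Z) = dimE Λ (numIdeal Λ (𝟙_ C) Z) + (numRank Λ Z : ℕ∞) := by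
  have hq := finite_num hR (Λ := Λ) (𝟙_ C) Z
  by_cases h : Module.Finite Λ (numIdeal Λ (𝟙_ C) Z)
  · have h2 : Module.Finite Λ (𝟙_ C ⟶ Z) :=
      Module.Finite.of_submodule_quotient (numIdeal Λ (𝟙_ C) Z)
    have h3 := Submodule.finrank_quotient_add_finrank (numIdeal Λ (𝟙_ C) Z)
    rw [dimE_eq, dimE_eq, ← h3]
    unfold numRank
    push_cast
    ring
  · have h2 : ¬ Module.Finite Λ (𝟙_ C ⟶ Z) := by
      intro h3
      exact h inferInstance
    rw [dimE_top h, dimE_top h2, top_add]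

lemma ratio_hom (hR : IsReal Λ R) {T : C} (hT : HasUnit T) (n : ℕ) :
    ((dimE Λ (𝟙_ C ⟶ tp T n) : ℕ∞) : ℝ≥0∞) / numRank Λ (tp T n) =
      ratio Λ T (numF hR) n + 1 := by
  have h1 : ((numRank Λ (tp T n) : ℕ) : ℝ≥0∞) ≠ 0 := by
    exact_mod_cast (numRank_pos' hR hT n).ne'
  have h2 : (((numRank Λ (tp T n) : ℕ) : ℕ∞) : ℝ≥0∞) = ((numRank Λ (tp T n) : ℕ) : ℝ≥0∞) := by
    norm_cast
  rw [dimE_hom hR, ENat.toENNReal_add, ENNReal.add_div, h2,
    ENNReal.div_self h1 (ENNReal.natCast_ne_top _)]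
  rfl

/-- The functor vanishes if and only if there are no numerically trivial morphisms. -/
lemma numF_zero_iff (hR : IsReal Λ R) {T : C} [ExactPairing T T] :
    (∀ n, Subsingleton ((numF hR).obj (tp T n))) ↔
      ∀ (a b : ℕ) (f : tp T a ⟶ tp T b), NumTriv f → f = 0 := by
  constructor
  · intro h a b f hf
    refine Pool.Agent.N645.AFK1.vanish hR (N := 1) (fun b f hf => ?_) a b f
      ⟨a, 𝟙 _, f, trivial, hf, (Category.id_comp _).symm⟩
    obtain ⟨b', g, y, -, hy, rfl⟩ := hf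
    have h1 : NumTriv (g ≫ y) := by
      have := NumTriv.comp hR hy g (𝟙 _)
      rwa [Category.comp_id] at this
    have := h b
    have h2 : (⟨g ≫ y, h1⟩ : numIdeal Λ (𝟙_ C) (tp T b)) = 0 := @Subsingleton.elim _ (h b) _ _
    exact congrArg Subtype.val h2
  · intro h n
    refine ⟨fun a b => Subtype.ext ?_⟩
    have h1 : (a : numIdeal Λ (𝟙_ C) (tp T n)).1 = 0 := h 0 n _ a.2
    have h2 : (b : numIdeal Λ (𝟙_ C) (tp T n)).1 = 0 := h 0 n _ b.2
    exact h1.trans h2.symm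

/-- **The law for the morphisms from the unit object.** -/
theorem hom_law (hR : IsReal Λ R) {T : C} [ExactPairing T T] (hT : HasUnit T) :
    ∃ N : ℝ≥0∞,
      Tendsto (fun n => ((dimE Λ (𝟙_ C ⟶ tp T n) : ℕ∞) : ℝ≥0∞) / numRank Λ (tp T n)) atTop
        (𝓝 N) ∧
      (N = 1 ∨ 2 ≤ N) ∧
      (N = 1 ↔ ∀ (a b : ℕ) (f : tp T a ⟶ tp T b), NumTriv f → f = 0) ∧
      (∀ (j a b : ℕ) (f : tp T a ⟶ tp T b), NumPow T j f → f ≠ 0 → (j : ℝ≥0∞) + 1 ≤ N) ∧
      (N ≠ ⊤ → (∀ a b : ℕ, Module.Finite Λ (tp T a ⟶ tp T b)) ∧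
        ∃ (ι : Type) (_ : Fintype ι) (m : ι → ℕ) (e : ∀ i, tp T (m i) ⟶ tp T (m i))
          (d : ι → ℝ),
          (∀ i, NumIdem (e i) ∧ 1 ≤ d i ∧ Tendsto (fun n =>
            (nr Λ (e i) (𝟙 (tp T n)) : ℝ) / numRank Λ (tp T n)) atTop (𝓝 (d i))) ∧
          N = 1 + ENNReal.ofReal (∑ i, d i) ∧
          (∀ n, finrank Λ (𝟙_ C ⟶ tp T n) =
            numRank Λ (tp T n) + ∑ i, nr Λ (e i) (𝟙 (tp T n))) ∧
          ∃ (p l : ℕ) (z : Fin l → (𝟙_ C ⟶ tp T p)), l ≤ Fintype.card ι ∧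
            (∀ i, NumTriv (z i)) ∧ ∀ (n : ℕ) (y : 𝟙_ C ⟶ tp T n), NumTriv y →
              y ∈ Submodule.span Λ {y' : 𝟙_ C ⟶ tp T n |
                ∃ (i : Fin l) (c : tp T p ⟶ tp T n), z i ≫ c = y'}) := by
  obtain ⟨N₀, h1, h2, h3, h4⟩ := law_functor hR hT (numF hR)
  refine ⟨N₀ + 1, ?_, ?_, ?_, ?_, ?_⟩
  · refine (h1.add_const 1).congr fun n => ?_
    rw [ratio_hom hR hT]
  · rcases h2 with h2 | h2
    · left
      rw [h2, zero_add]
    · right
      calc (2 : ℝ≥0∞) = 1 + 1 := by norm_num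
        _ ≤ N₀ + 1 := by gcongr
  · rw [← numF_zero_iff hR, ← h3]
    constructor
    · intro h
      have h5 : N₀ + 1 = 0 + 1 := by rw [h, zero_add]
      exact (ENNReal.add_left_inj ENNReal.one_ne_top).1 h5
    · intro h
      rw [h, zero_add]
  · intro j a b f hf hne
    by_contra hlt
    have hN : N₀ ≠ ⊤ := by
      rintro rfl
      exact hlt (by simp)
    obtain ⟨-, ι, _, e, d, -, -, h5, -, h6, -⟩ := h4 hN
    have h7 : Fintype.card ι + 1 ≤ j := by
      by_contra h8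
      have h9 : j ≤ Fintype.card ι := by omega
      apply hlt
      have h10 : (j : ℝ≥0∞) ≤ Fintype.card ι := by exact_mod_cast h9
      gcongr
      exact h10.trans h5
    refine hne (Pool.Agent.N645.AFK1.vanish hR (N := Fintype.card ι + 1) (fun b f hf => ?_) a b f
      (hf.mono h7))
    obtain ⟨c, y, h, hy, hh, rfl⟩ := hf.head hR
    have h8 := h6 c b h hh
    have h9 := sub_map_val (isStab_num hR) h (⟨y, hy⟩ : numIdeal Λ (𝟙_ C) (tp T c))
    have h10 : ((numF hR).map h).hom (⟨y, hy⟩ : numIdeal Λ (𝟙_ C) (tp T c)) = 0 := by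
      rw [h8]
      rfl
    rw [h10] at h9
    exact h9.symm
  · intro hN
    have hN₀ : N₀ ≠ ⊤ := by
      rintro rfl
      exact hN (by simp)
    obtain ⟨hfin, ι, _, e, d, h5, h6, -, h8, -, p, l, z, hl, hz⟩ := h4 hN₀
    have hfin0 : ∀ n, Module.Finite Λ (numIdeal Λ (𝟙_ C) (tp T n)) := fun n => hfin.fin n
    have hfin1 : ∀ n, Module.Finite Λ (𝟙_ C ⟶ tp T n) := fun n => by
      have hq := finite_num hR (Λ := Λ) (𝟙_ C) (tp T n)
      have := hfin0 n
      exact Module.Finite.of_submodule_quotient (numIdeal Λ (𝟙_ C) (tp T n))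
    refine ⟨Pool.Agent.N645.AFK1.fin_hom hfin1, ι, inferInstance, fun i => (e i).1,
      fun i => (e i).2, d, h5, ?_, ?_, p, l, fun i => (z i : numIdeal Λ (𝟙_ C) (tp T p)).1, hl,
      fun i => (z i : numIdeal Λ (𝟙_ C) (tp T p)).2, ?_⟩
    · rw [h6, add_comm]
    · intro n
      have := hfin1 n
      have h9 := Submodule.finrank_quotient_add_finrank (numIdeal Λ (𝟙_ C) (tp T n))
      have h10 : finrank Λ (numIdeal Λ (𝟙_ C) (tp T n)) = _ := h8 n
      rw [← h9, h10]
      rfl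
    · intro n y hy
      have h9 := hz n (⟨y, hy⟩ : numIdeal Λ (𝟙_ C) (tp T n))
      unfold gen at h9
      have key : ∀ q : numIdeal Λ (𝟙_ C) (tp T n), q ∈ Submodule.span Λ
          {y : (numF hR).obj (tp T n) | ∃ (i : Fin l) (c : tp T p ⟶ tp T n),
            ((numF hR).map c).hom (z i) = y} →
          q.1 ∈ Submodule.span Λ {y' : 𝟙_ C ⟶ tp T n | ∃ (i : Fin l) (c : tp T p ⟶ tp T n),
            (z i : numIdeal Λ (𝟙_ C) (tp T p)).1 ≫ c = y'} := by
        intro q hq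
        induction hq using Submodule.span_induction with
        | mem q hq =>
          obtain ⟨i, c, rfl⟩ := hq
          exact Submodule.subset_span ⟨i, c, rfl⟩
        | zero => exact Submodule.zero_mem _
        | add a b _ _ ha hb => exact Submodule.add_mem _ ha hb
        | smul s a _ ha => exact Submodule.smul_mem _ s ha
      exact key _ h9

end Pool.Agent.H23NC
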