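import Pool.Agent.N64.AF.G
import Pool.Agent.Y133.Half.TrForm

/-!
# Numerically nilpotent endomorphisms have trace zero, without the sign conjecture
-/

set_option autoImplicit false
set_option linter.unusedSectionVars false
set_option linter.style.haveILetI false

open CategoryTheory Limits MonoidalCategory Module Polynomial
open Pool.Agent.Y112.SR Pool.Agent.Y112.KD Pool.Agent.N64.AF
open Pool.Agent.Y116.MT (tr)

namespace Pool.Agent.H23NC

universe v u w t x

/-- If the super traces of all high powers of an operator are zero then so is its super trace. -/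
theorem strace_zero {K V : Type*} [Field K] [AddCommGroup V] [Module K V] [FiniteDimensional K V]
    (p z : Module.End K V) (hc : Commute p z) (N : ℕ)
    (h : ∀ k, N ≤ k → LinearMap.trace K V (z ^ k * p) = 0) :
    LinearMap.trace K V (z * p) = 0 := by
  have h0 : minpoly K z ≠ 0 := minpoly.ne_zero (Algebra.IsIntegral.isIntegral z)
  obtain ⟨f, hf, hnd⟩ := exists_eq_pow_rootMultiplicity_mul_and_not_dvd (minpoly K z) h0 0
  set m := (minpoly K z).rootMultiplicity 0
  rw [map_zero, sub_zero] at hf hnd
  have hirr : Irreducible (X : K[X]) := irreducible_X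
  have hcop : IsCoprime ((X : K[X]) ^ (N + m)) f :=
    ((hirr.coprime_iff_not_dvd).2 hnd).pow_left
  obtain ⟨a, b, hab⟩ := hcop
  have hmin : aeval z (X ^ m * f) = 0 := by rw [← hf]; exact minpoly.aeval K z
  -- the decomposition
  have h1 : z = aeval z (a * X ^ (N + m) * X) + aeval z (b * f * X) := by
    rw [← map_add]
    have : a * X ^ (N + m) * X + b * f * X = X := by rw [← add_mul, hab, one_mul]
    rw [this, aeval_X]
  have h2 : IsNilpotent (aeval z (b * f * X) * p) := by
    have hc2 : Commute (aeval z (b * f * X)) p :=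
      (Algebra.commute_of_mem_adjoin_singleton_of_commute
        (aeval_mem_adjoin_singleton K z) hc).symm
    refine ⟨m + 1, ?_⟩
    rw [hc2.mul_pow, ← map_pow]
    have h3 : (b * f * X) ^ (m + 1) = (b ^ (m + 1) * f ^ m * X) * (X ^ m * f) := by ring
    rw [h3, map_mul, hmin, mul_zero, zero_mul]
  have h3 : ∀ q : K[X], LinearMap.trace K V (aeval z (q * X ^ (N + m)) * p) = 0 := by
    intro q
    induction q using Polynomial.induction_on' with
    | add q r hq hr => rw [add_mul, map_add, add_mul, map_add, hq, hr, add_zero]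
    | monomial n c =>
      have h4 : aeval z (monomial n c * X ^ (N + m)) * p = c • (z ^ (n + (N + m)) * p) := by
        rw [map_mul, aeval_monomial, map_pow, aeval_X, mul_assoc, mul_assoc, ← mul_assoc (z ^ n),
          ← pow_add, Algebra.smul_def]
      rw [h4, map_smul, h _ (by omega), smul_zero]
  rw [h1, add_mul, map_add, (LinearMap.isNilpotent_trace_of_isNilpotent h2).eq_zero, add_zero]
  have h4 : a * X ^ (N + m) * X = (a * X) * X ^ (N + m) := by ring
  rw [h4]
  exact h3 _

variable {C : Type u} [Category.{v} C] [Preadditive C] [MonoidalCategory C]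
  [MonoidalPreadditive C] [SymmetricCategory C] [RightRigidCategory C]
  {Λ : Type t} [Field Λ] [CharZero Λ] [Linear Λ C] [MonoidalLinear Λ C]
  {K : Type w} [Field K] [Algebra Λ K] {R : SuperRealisation C K}

/-- The realisation as a homomorphism of multiplicative monoids. -/
def rho (R : SuperRealisation C K) (Y : C) :
    End Y →* Module.End K (R.H.obj Y) where
  toFun a := (R.H.map a).hom
  map_one' := by
    change (R.H.map (𝟙 Y)).hom = _
    rw [R.H.map_id]
    rfl
  map_mul' a b := by
    change (R.H.map (b ≫ a)).hom = _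
    rw [R.H.map_comp]
    rfl

/-- An endomorphism with a numerically trivial power has trace zero. -/
theorem tr_zero_of_pow (hR : IsReal Λ R) {Y : C} (z : End Y) (N : ℕ)
    (h : NumTriv (Y := Y) (Z := Y) (z ^ N)) : tr (z : Y ⟶ Y) = 0 := by
  have hfin := R.finite Y
  have hcomm : Commute (R.par Y).hom (rho R Y z) := by
    have := congrArg ModuleCat.Hom.hom (R.par_natural (z : Y ⟶ Y))
    exact this
  rw [tr_eq_zero_iff hR]
  have key := strace_zero (R.par Y).hom (rho R Y z) hcomm N ?_
  · have h1 : (R.H.map (z : Y ⟶ Y) ≫ R.par Y).hom = (R.par Y).hom * rho R Y z := rfl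
    rw [h1, hcomm.eq]
    exact key
  · intro k hk
    obtain ⟨j, rfl⟩ := Nat.exists_eq_add_of_le hk
    have h1 : tr ((z ^ N : End Y) ≫ (z ^ j : End Y) : Y ⟶ Y) = 0 := h _
    rw [tr_eq_zero_iff hR] at h1
    have h2 : (R.H.map ((z ^ N : End Y) ≫ (z ^ j : End Y) : Y ⟶ Y) ≫ R.par Y).hom =
        (R.par Y).hom * (rho R Y (z ^ j) * rho R Y (z ^ N)) := by
      rw [← map_mul]
      rfl
    rw [h2, ← map_mul, ← pow_add, map_pow, add_comm] at h1
    rw [← (hcomm.pow_right (N + j)).eq]
    exact h1

/-- Semisimplicity of the numerical endomorphism algebras. -/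
theorem semisimple' (hR : IsReal Λ R) {Y : C} (I : Ideal (End Y))
    [I.IsTwoSided] (hI : ∀ x : End Y, x ∈ I ↔ NumTriv (Y := Y) (Z := Y) x) :
    IsSemisimpleRing (End Y ⧸ I) := by
  -- finiteness
  have hfin : Module.Finite Λ (End Y ⧸ I) := by
    have := finite_num hR Y Y
    let g : (Y ⟶ Y) →ₗ[Λ] (End Y ⧸ I) :=
      { toFun := fun x => Ideal.Quotient.mk I x
        map_add' := fun a b => (Ideal.Quotient.mk I).map_add a b
        map_smul' := fun c a => rfl }
    have hg : numIdeal Λ Y Y ≤ LinearMap.ker g := by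
      intro x hx
      rw [LinearMap.mem_ker]
      exact Ideal.Quotient.eq_zero_iff_mem.2 ((hI x).2 hx)
    refine Module.Finite.of_surjective ((numIdeal Λ Y Y).liftQ g hg) ?_
    intro y
    obtain ⟨x, rfl⟩ := Ideal.Quotient.mk_surjective y
    exact ⟨(numIdeal Λ Y Y).mkQ x, rfl⟩
  have hart : IsArtinianRing (End Y ⧸ I) := IsArtinianRing.of_finite Λ _
  have hjac : Ring.jacobson (End Y ⧸ I) = ⊥ := by
    rw [eq_bot_iff]
    intro x' hx'
    rw [Submodule.mem_bot]
    obtain ⟨x, rfl⟩ := Ideal.Quotient.mk_surjective x'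
    rw [Ideal.Quotient.eq_zero_iff_mem, hI]
    intro g
    -- nilpotency of the product
    obtain ⟨b, hb⟩ : ∃ b : End Y, b = g := ⟨g, rfl⟩
    have h4 : Ideal.Quotient.mk I (b * x) ∈ Ring.jacobson (End Y ⧸ I) := by
      rw [map_mul]
      exact Ideal.mul_mem_left _ _ hx'
    obtain ⟨n, hn⟩ : IsNilpotent (Ring.jacobson (End Y ⧸ I)) := IsSemiprimaryRing.isNilpotent
    have h5 : Ideal.Quotient.mk I ((b * x) ^ n) = 0 := by
      have := Ideal.pow_mem_pow h4 n
      rw [hn] at this
      rw [map_pow]
      exact this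
    rw [Ideal.Quotient.eq_zero_iff_mem, hI] at h5
    have h6 := tr_zero_of_pow hR (b * x) n h5
    rw [hb] at h6
    exact h6
  exact IsArtinianRing.isSemisimpleRing_iff_jacobson.2 hjac

end Pool.Agent.H23NC
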