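import Pool.Agent.H23NC.Nil
import Pool.Agent.Y133.Half.Blk
import Pool.Agent.N64.AF.P2
import Pool.Agent.N64.AF.A3

/-!
# The Schwarz inequality for numerical multiplicities, without the sign conjecture
-/

set_option autoImplicit false
set_option linter.unusedSectionVars false
set_option linter.style.haveILetI false

open CategoryTheory Limits MonoidalCategory Module
open Pool.Agent.Y112.SR Pool.Agent.Y112.KD Pool.Agent.N64.AF
open Pool.Agent.Y116.MT (tr)
open Pool.Agent.Y133.Half

namespace Pool.Agent.H23NC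

universe v u w t x

variable {C : Type u} [Category.{v} C] [Preadditive C] [MonoidalCategory C]
  [MonoidalPreadditive C] [SymmetricCategory C] [RightRigidCategory C]
  {Λ : Type t} [Field Λ] [CharZero Λ] [Linear Λ C] [MonoidalLinear Λ C]
  {K : Type w} [Field K] [Algebra Λ K] {R : SuperRealisation C K}

/-- The category of operators on finitely many realisations. -/
noncomputable def cat {ι : Type} [Fintype ι] [DecidableEq ι] (R : SuperRealisation C K)
    (obj : ι → C) : Pool.Agent.Y133.Half.Cat K (fun i => R.H.obj (obj i)) where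
  p i := (R.par (obj i)).hom
  p_sq i := by
    have := congrArg ModuleCat.Hom.hom (R.par_sq (obj i))
    exact this
  S i j := CK R (obj j) (obj i)
  one i := (isCat_CK R).id_mem (obj i)
  mul := fun ha hb => (isCat_CK R).comp_mem ha hb
  comm := by
    intro i j a ha
    refine Submodule.span_induction (p := fun a _ => (R.par (obj i)).hom ∘ₗ a =
      a ∘ₗ (R.par (obj j)).hom) ?_ ?_ ?_ ?_ ha
    · rintro _ ⟨f, rfl⟩
      have := congrArg ModuleCat.Hom.hom (R.par_natural f)
      exact this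
    · rw [LinearMap.comp_zero, LinearMap.zero_comp]
    · intro a b _ _ ha hb
      rw [LinearMap.comp_add, LinearMap.add_comp, ha, hb]
    · intro c a _ ha
      rw [LinearMap.comp_smul, LinearMap.smul_comp, ha]

/-- The numerical multiplicity is the rank of a form of super traces. -/
theorem nr_eq_rk {ι : Type} [Fintype ι] [DecidableEq ι] (hR : IsReal Λ R) (obj : ι → C)
    (i j : ι) (e : obj j ⟶ obj j) (f : obj i ⟶ obj i) :
    nr Λ e f = rk ((cat R obj).B i j (R.H.map f).hom (R.H.map e).hom) := by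
  have hfi : ∀ i, FiniteDimensional K (R.H.obj (obj i)) := fun i => R.finite (obj i)
  obtain ⟨τ, hτ1, hτ2⟩ := exists_tau hR (obj j)
  have := finite_num hR (obj j) (obj i)
  let ρ : (obj j ⟶ obj i) →ₛₗ[algebraMap Λ K] (R.H.obj (obj j) →ₗ[K] R.H.obj (obj i)) :=
    { toFun := fun a => (R.H.map a).hom
      map_add' := fun a b => by rw [R.H.map_add]; rfl
      map_smul' := fun c a => by rw [hR.lin]; rfl }
  have hρ : ∀ a, ρ a = (R.H.map a).hom := fun _ => rfl
  let ψ : (obj i ⟶ obj j) → (obj j ⟶ obj i) →ₗ[Λ] Λ := fun g => τ ∘ₗ Linear.rightComp Λ (obj j) g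
  let Ψ : (obj i ⟶ obj j) → (R.H.obj (obj j) →ₗ[K] R.H.obj (obj i)) →ₗ[K] K := fun g =>
    { toFun := fun F => LinearMap.trace K (R.H.obj (obj j))
        ((R.par (obj j)).hom ∘ₗ (R.H.map g).hom ∘ₗ F)
      map_add' := fun a b => by rw [LinearMap.comp_add, LinearMap.comp_add, map_add]
      map_smul' := fun c a => by rw [LinearMap.comp_smul, LinearMap.comp_smul, map_smul]; rfl }
  have hΨ : ∀ g F, Ψ g F = LinearMap.trace K (R.H.obj (obj j))
    ((R.par (obj j)).hom ∘ₗ (R.H.map g).hom ∘ₗ F) := fun _ _ => rfl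
  have hψ : ∀ g v, Ψ g (ρ v) = algebraMap Λ K (ψ g v) := by
    intro g v
    have h1 : ψ g v = τ (v ≫ g) := rfl
    rw [h1, hτ2, hΨ, hρ, R.H.map_comp]
    rfl
  let P : Submodule K (R.H.obj (obj j) →ₗ[K] R.H.obj (obj i)) := ⨅ g, LinearMap.ker (Ψ g)
  have hPm : ∀ F, F ∈ P ↔ ∀ g, Ψ g F = 0 := by
    intro F
    simp only [P, Submodule.mem_iInf, LinearMap.mem_ker]
  have hN : ∀ v, (∀ g, ψ g v = 0) → v ∈ numIdeal Λ (obj j) (obj i) := by
    intro v hv
    rw [mem_numIdeal]
    intro g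
    rw [hτ1]
    have : ψ g v = τ (v ≫ g) := rfl
    rw [← this, hv, zero_smul]
  rw [Pool.Agent.N199.AFA3.nr_eq]
  -- the spaces of operators
  let q : (cat R obj).S i j →ₗ[K] ((R.H.obj (obj j) →ₗ[K] R.H.obj (obj i)) ⧸ P) :=
    P.mkQ ∘ₗ (LinearMap.lcomp K (R.H.obj (obj i)) (R.H.map e).hom) ∘ₗ
      (LinearMap.llcomp K (R.H.obj (obj j)) (R.H.obj (obj i)) (R.H.obj (obj i))
        (R.H.map f).hom) ∘ₗ ((cat R obj).S i j).subtype
  have hq : ∀ u, q u = P.mkQ ((R.H.map f).hom ∘ₗ (u : R.H.obj (obj j) →ₗ[K] R.H.obj (obj i)) ∘ₗ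
    (R.H.map e).hom) := fun _ => rfl
  let SK : Submodule K (R.H.obj (obj j) →ₗ[K] R.H.obj (obj i)) := LinearMap.range
    ((LinearMap.lcomp K (R.H.obj (obj i)) (R.H.map e).hom) ∘ₗ
      (LinearMap.llcomp K (R.H.obj (obj j)) (R.H.obj (obj i)) (R.H.obj (obj i))
        (R.H.map f).hom) ∘ₗ ((cat R obj).S i j).subtype)
  have hrange : LinearMap.range q = SK.map P.mkQ := LinearMap.range_comp _ _
  have e1 : finrank Λ ((Pool.Agent.N199.AFA3.sw Λ e f).map (numIdeal Λ (obj j) (obj i)).mkQ) =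
      finrank K (SK.map P.mkQ) := by
    refine Pool.Agent.N767.AF.finrank_ext ρ (numIdeal Λ (obj j) (obj i)) P ?_ ψ Ψ hψ
      (fun F hF g => (hPm F).1 hF g) hN _ _ ?_ ?_
    · intro v hv
      rw [hPm]
      intro g
      rw [hψ]
      have h1 : tr (v ≫ g) = 0 := hv g
      have h2 := (tr_eq_zero_iff hR _).1 h1
      have h3 : ψ g v = τ (v ≫ g) := rfl
      rw [h3, hτ2, h2]
    · intro s hs
      obtain ⟨c, rfl⟩ := Pool.Agent.N199.AFA3.mem_sw.1 hs
      refine ⟨⟨(R.H.map c).hom, Submodule.subset_span ⟨c, rfl⟩⟩, ?_⟩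
      rw [hρ]
      change (R.H.map f).hom ∘ₗ (R.H.map c).hom ∘ₗ (R.H.map e).hom = (R.H.map (e ≫ c ≫ f)).hom
      rw [R.H.map_comp, R.H.map_comp]
      rfl
    · rintro _ ⟨⟨c, hc⟩, rfl⟩
      change (R.H.map f).hom ∘ₗ c ∘ₗ (R.H.map e).hom ∈ _
      refine Submodule.span_induction (p := fun c _ => (R.H.map f).hom ∘ₗ c ∘ₗ
        (R.H.map e).hom ∈ Submodule.span K (ρ '' (Pool.Agent.N199.AFA3.sw Λ e f :
          Set (obj j ⟶ obj i)))) ?_ ?_ ?_ ?_ hc
      · rintro _ ⟨c, rfl⟩
        refine Submodule.subset_span ⟨e ≫ c ≫ f, Pool.Agent.N199.AFA3.mem_sw.2 ⟨c, rfl⟩, ?_⟩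
        rw [hρ, R.H.map_comp, R.H.map_comp]
        rfl
      · rw [LinearMap.zero_comp, LinearMap.comp_zero]
        exact Submodule.zero_mem _
      · intro a b _ _ ha hb
        rw [LinearMap.add_comp, LinearMap.comp_add]
        exact Submodule.add_mem _ ha hb
      · intro c a _ ha
        rw [LinearMap.smul_comp, LinearMap.comp_smul]
        exact Submodule.smul_mem _ _ ha
  rw [e1, ← hrange]
  -- comparison of the kernels
  have hker : LinearMap.ker q = LinearMap.ker ((cat R obj).B i j (R.H.map f).hom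
      (R.H.map e).hom) := by
    ext u
    rw [LinearMap.mem_ker, LinearMap.mem_ker, hq, Submodule.mkQ_apply,
      Submodule.Quotient.mk_eq_zero, hPm]
    have hcyc : ∀ g : obj i ⟶ obj j, ∀ hg : (R.H.map g).hom ∈ (cat R obj).S j i,
        (cat R obj).B i j (R.H.map f).hom (R.H.map e).hom u ⟨(R.H.map g).hom, hg⟩ =
        Ψ g ((R.H.map f).hom ∘ₗ (u : R.H.obj (obj j) →ₗ[K] R.H.obj (obj i)) ∘ₗ
          (R.H.map e).hom) := by
      intro g hg
      rw [Pool.Agent.Y133.Half.Cat.B_apply, hΨ]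
      have h1 : (R.par (obj j)).hom ∘ₗ (R.H.map g).hom = (R.H.map g).hom ∘ₗ (R.par (obj i)).hom := by
        have := congrArg ModuleCat.Hom.hom (R.par_natural g)
        exact this
      change LinearMap.trace K (R.H.obj (obj i)) (((R.par (obj i)).hom ∘ₗ (R.H.map f).hom ∘ₗ
        (u : R.H.obj (obj j) →ₗ[K] R.H.obj (obj i)) ∘ₗ (R.H.map e).hom) ∘ₗ (R.H.map g).hom) = _
      rw [LinearMap.trace_comp_comm', ← LinearMap.comp_assoc, ← LinearMap.comp_assoc, ← h1]
      rfl
    constructor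
    · intro h
      apply LinearMap.ext
      rintro ⟨v, hv⟩
      rw [LinearMap.zero_apply]
      have key : ∀ v (hv : v ∈ (cat R obj).S j i),
          (cat R obj).B i j (R.H.map f).hom (R.H.map e).hom u ⟨v, hv⟩ = 0 := by
        intro v hv
        refine Submodule.span_induction (p := fun v (hv : v ∈ (cat R obj).S j i) =>
          (cat R obj).B i j (R.H.map f).hom (R.H.map e).hom u ⟨v, hv⟩ = 0) ?_ ?_ ?_ ?_ hv
        · rintro _ ⟨g, rfl⟩
          exact (hcyc g (Submodule.subset_span ⟨g, rfl⟩)).trans (h g)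
        · exact map_zero ((cat R obj).B i j (R.H.map f).hom (R.H.map e).hom u)
        · intro a b ha hb h1 h2
          have h3 := map_add ((cat R obj).B i j (R.H.map f).hom (R.H.map e).hom u)
            (⟨a, ha⟩ : (cat R obj).S j i) ⟨b, hb⟩
          rw [h1, h2, add_zero] at h3
          exact h3
        · intro c a ha h1
          have h3 := map_smul ((cat R obj).B i j (R.H.map f).hom (R.H.map e).hom u) c
            (⟨a, ha⟩ : (cat R obj).S j i)
          rw [h1, smul_zero] at h3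
          exact h3
      exact key v hv
    · intro h g
      rw [← hcyc g (Submodule.subset_span ⟨g, rfl⟩), h]
      rfl
  have e2 := q.quotKerEquivRange.finrank_eq
  have e3 := ((cat R obj).B i j (R.H.map f).hom (R.H.map e).hom).quotKerEquivRange.finrank_eq
  rw [rk, ← e2, ← e3]
  exact (Submodule.quotEquivOfEq _ _ hker).finrank_eq

variable [IsAlgClosed K]

/-- **Ranks.** -/
theorem exists_ranks' {ι : Type} [Fintype ι] [DecidableEq ι] (hR : IsReal Λ R) (obj : ι → C) :
    ∃ (n : ℕ) (r : ∀ i : ι, (obj i ⟶ obj i) → Fin n → ℕ), ∀ (i j : ι) (e : obj j ⟶ obj j)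
      (f : obj i ⟶ obj i), NumIdem e → NumIdem f → nr Λ e f = ∑ k, r j e k * r i f k := by
  have hfi : ∀ i, FiniteDimensional K (R.H.obj (obj i)) := fun i => R.finite (obj i)
  have hK : CharZero K := charZero_of_injective_algebraMap (algebraMap Λ K).injective
  set c := cat R obj with hc
  set t := c.tr with ht
  obtain ⟨n, r, hr⟩ := exists_ranks (K := K) (R := c.alg ⧸ t.rad)
  have hmem : ∀ {i j : ι} (h : obj j ⟶ obj i), (R.H.map h).hom ∈ c.S i j := fun h =>
    Submodule.subset_span ⟨h, rfl⟩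
  -- the elements of the quotient algebra
  let E : ∀ i : ι, (obj i ⟶ obj i) → (c.alg ⧸ t.rad) := fun i e =>
    Ideal.Quotient.mk t.rad ⟨Pool.Agent.Y133.Half.Cat.emb i i (R.H.map e).hom, c.emb_mem (hmem e)⟩
  have hE : ∀ i e, NumIdem e → E i e * E i e = E i e := by
    intro i e he
    have h1 : (⟨Pool.Agent.Y133.Half.Cat.emb (V := fun i => R.H.obj (obj i)) i i
        (R.H.map (e ≫ e - e)).hom, c.emb_mem (hmem (e ≫ e - e))⟩ : c.alg) ∈ t.rad := by
      rw [Tr.mem_rad]
      rintro ⟨T, hT⟩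
      rw [Pool.Agent.Y133.Half.Cat.tr_apply]
      change LinearMap.trace K _ (c.P ∘ₗ (LinearMap.single K (fun i => R.H.obj (obj i)) i ∘ₗ
        (R.H.map (e ≫ e - e)).hom ∘ₗ LinearMap.proj i) ∘ₗ T) = 0
      have h2 : c.P ∘ₗ (LinearMap.single K (fun i => R.H.obj (obj i)) i ∘ₗ
        (R.H.map (e ≫ e - e)).hom ∘ₗ LinearMap.proj i) ∘ₗ T =
        LinearMap.single K (fun i => R.H.obj (obj i)) i ∘ₗ ((R.par (obj i)).hom ∘ₗ
          (R.H.map (e ≫ e - e)).hom ∘ₗ LinearMap.proj i ∘ₗ T) := by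
        have h3 := c.P_single i
        calc _ = (c.P ∘ₗ LinearMap.single K (fun i => R.H.obj (obj i)) i) ∘ₗ
              ((R.H.map (e ≫ e - e)).hom ∘ₗ LinearMap.proj i ∘ₗ T) := rfl
          _ = (LinearMap.single K (fun i => R.H.obj (obj i)) i ∘ₗ c.p i) ∘ₗ
              ((R.H.map (e ≫ e - e)).hom ∘ₗ LinearMap.proj i ∘ₗ T) := by rw [h3]
          _ = _ := rfl
      rw [h2, LinearMap.trace_comp_comm']
      have h4 : Pool.Agent.Y133.Half.Cat.cmp i i T ∈ CK R (obj i) (obj i) := hT i i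
      change LinearMap.trace K _ ((R.par (obj i)).hom ∘ₗ (R.H.map (e ≫ e - e)).hom ∘ₗ
        Pool.Agent.Y133.Half.Cat.cmp i i T) = 0
      refine Submodule.span_induction (p := fun v _ => LinearMap.trace K _
        ((R.par (obj i)).hom ∘ₗ (R.H.map (e ≫ e - e)).hom ∘ₗ v) = 0) ?_ ?_ ?_ ?_ h4
      · rintro _ ⟨g, rfl⟩
        have h5 : tr (g ≫ (e ≫ e - e)) = 0 := by
          have h6 := NumTriv.comp hR (f := e ≫ e - e) he g (𝟙 _) (𝟙 _)
          rwa [Category.comp_id, Category.comp_id] at h6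
        have h6 := (tr_eq_zero_iff hR _).1 h5
        rw [R.H.map_comp] at h6
        exact h6
      · rw [LinearMap.comp_zero, LinearMap.comp_zero, map_zero]
      · intro a b _ _ ha hb
        rw [LinearMap.comp_add, LinearMap.comp_add, map_add, ha, hb, add_zero]
      · intro d a _ ha
        rw [LinearMap.comp_smul, LinearMap.comp_smul, map_smul, ha, smul_zero]
    have h2 : E i e * E i e - E i e = 0 := by
      rw [← map_mul, ← map_sub, Ideal.Quotient.eq_zero_iff_mem]
      convert h1 using 1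
      apply Subtype.ext
      change Pool.Agent.Y133.Half.Cat.emb (V := fun i => R.H.obj (obj i)) i i (R.H.map e).hom *
        Pool.Agent.Y133.Half.Cat.emb (V := fun i => R.H.obj (obj i)) i i (R.H.map e).hom -
        Pool.Agent.Y133.Half.Cat.emb (V := fun i => R.H.obj (obj i)) i i (R.H.map e).hom =
        Pool.Agent.Y133.Half.Cat.emb (V := fun i => R.H.obj (obj i)) i i
          (R.H.map (e ≫ e - e)).hom
      have h3 : LinearMap.proj i ∘ₗ LinearMap.single K (fun i => R.H.obj (obj i)) i =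
          LinearMap.id := by
        apply LinearMap.ext; intro x; simp
      rw [R.H.map_sub, R.H.map_comp]
      apply LinearMap.ext
      intro x
      have h4 : ∀ y, (Pi.single i y : ∀ i, R.H.obj (obj i)) i = y := fun y => by simp
      simp only [Pool.Agent.Y133.Half.Cat.emb, LinearMap.sub_apply, Module.End.mul_apply,
        LinearMap.comp_apply, LinearMap.proj_apply, LinearMap.single_apply, ModuleCat.hom_sub,
        ModuleCat.hom_comp, Pi.single_sub, h4]
    exact sub_eq_zero.1 h2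
  refine ⟨n, fun i e k => r (E i e) k, fun i j e f he hf => ?_⟩
  have h1 := hr (E i f) (E j e) (hE i f hf) (hE j e he)
  have h2 : dm K (E i f) (E j e) = nr Λ e f := by
    rw [nr_eq_rk hR obj i j e f, ← t.rk_form, ht, c.form_eq (hmem f) (hmem e),
      rk_comp _ (c.cmpS_surjective i j) (c.cmpS_surjective j i)]
  rw [← h2, h1]
  exact Finset.sum_congr rfl fun k _ => mul_comm _ _

/-- **The Schwarz inequality.** -/
theorem nr_sq_le' (hR : IsReal Λ R) {Y Z : C} {e : Y ⟶ Y} (he : NumIdem e) {f : Z ⟶ Z}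
    (hf : NumIdem f) : nr Λ e f ^ 2 ≤ nr Λ e e * nr Λ f f := by
  obtain ⟨n, r, hr⟩ := exists_ranks' hR (fun b : Bool => bif b then Z else Y)
  have h1 := hr true false e f he hf
  have h2 := hr false false e e he he
  have h3 := hr true true f f hf hf
  change nr Λ e f = _ at h1
  change nr Λ e e = _ at h2
  change nr Λ f f = _ at h3
  rw [h1, h2, h3]
  have h := Finset.sum_mul_sq_le_sq_mul_sq Finset.univ (fun i => (r false e i : ℤ))
    (fun i => (r true f i : ℤ))
  have h2 : ((∑ i, r false e i * r true f i : ℕ) : ℤ) ^ 2 ≤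
      ((∑ i, r false e i * r false e i : ℕ) : ℤ) * ((∑ i, r true f i * r true f i : ℕ) : ℤ) := by
    push_cast
    simpa [sq] using h
  exact_mod_cast h2

/-- Symmetry. -/
theorem nr_symm' (hR : IsReal Λ R) {Y Z : C} {e : Y ⟶ Y} (he : NumIdem e) {f : Z ⟶ Z}
    (hf : NumIdem f) : nr Λ e f = nr Λ f e := by
  obtain ⟨n, r, hr⟩ := exists_ranks' hR (fun b : Bool => bif b then Z else Y)
  have h1 := hr true false e f he hf
  have h2 := hr false true f e hf he
  change nr Λ e f = _ at h1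
  change nr Λ f e = _ at h2
  rw [h1, h2]
  exact Finset.sum_congr rfl fun k _ => mul_comm _ _

end Pool.Agent.H23NC
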